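import Pool.Agent.Helper93.LZ.Compare

/-!
A priori estimate for the Perron families on the fattened domain.
-/

open Set Metric Filter Topology Complex MeasureTheory Real InnerProductSpace

namespace Pool.Agent.Helper93.LZ

/-- the situation: a cone domain, a function, a set of zeros -/
structure Setup where
  G : Set ℂ
  r : ℝ
  κ : ℝ
  hG : ConeDom G r κ
  hconn : IsPreconnected G
  hne : G.Nonempty
  F : ℂ → ℂ
  hFc : ContinuousOn F (closure G)
  hFd : DifferentiableOn ℂ F G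
  hF0 : ∃ z ∈ G, F z ≠ 0
  E : Set ℂ
  hE : IsCompact E
  hEG : E ⊆ closure G
  hEne : E.Nonempty
  CF : ℝ
  hCF0 : 0 < CF
  hCF : ∀ z ∈ closure G, ‖F z‖ ≤ CF * infDist z E

namespace Setup

variable (S : Setup)

/-- the constant used for the reference set -/
noncomputable def k : ℝ := max 2 (2 / S.κ)

lemma two_le_k : 2 ≤ S.k := le_max_left _ _

lemma k_nonneg : 0 ≤ S.k := by linarith [S.two_le_k]

/-- the reference set -/
noncomputable def Es : Set ℂ := Est S.G S.E S.k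

/-- the distance to the reference set -/
noncomputable def ds (z : ℂ) : ℝ := infDist z S.Es

lemma exists_D0' : ∃ D₀ > 0, ∀ z, ∃ e ∈ S.Es, dist z e ≤ D₀ :=
  exists_D0 S.hG.bdd S.hne S.hEG S.hEne S.two_le_k

/-- bound of the distance function -/
noncomputable def D₀ : ℝ := S.exists_D0'.choose

lemma D₀_pos : 0 < S.D₀ := S.exists_D0'.choose_spec.1

lemma D₀_spec : ∀ z, ∃ e ∈ S.Es, dist z e ≤ S.D₀ := S.exists_D0'.choose_spec.2

lemma Es_nonempty : S.Es.Nonempty := by
  obtain ⟨e, he, _⟩ := S.D₀_spec 0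
  exact ⟨e, he⟩

lemma isClosed_Es : IsClosed S.Es := isClosed_Est S.hG.isOpen

lemma ds_nonneg (z : ℂ) : 0 ≤ S.ds z := infDist_nonneg

lemma ds_le (z : ℂ) : S.ds z ≤ S.D₀ := by
  obtain ⟨e, he, hd⟩ := S.D₀_spec z
  exact (infDist_le_dist_of_mem he).trans hd

lemma ds_lip (z w : ℂ) : S.ds z - S.ds w ≤ dist z w := by
  have : S.ds z ≤ S.ds w + dist z w := infDist_le_infDist_add_dist
  linarith

lemma ds_continuous : Continuous S.ds := continuous_infDist_pt _

lemma ds_pos {z : ℂ} (hz : z ∉ S.Es) : 0 < S.ds z := infDist_Est_pos S.hG.isOpen S.Es_nonempty hz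

lemma notMem_Es_of_mem {z : ℂ} (hz : z ∈ S.G) : z ∉ S.Es := fun h => h.1 hz

lemma F_zero {a : ℂ} (ha : a ∈ S.E) : S.F a = 0 := by
  have := S.hCF a (S.hEG ha)
  rw [infDist_zero_of_mem ha, mul_zero] at this
  exact norm_le_zero_iff.1 this

lemma F_le {z : ℂ} (hz : z ∈ closure S.G) : ‖S.F z‖ ≤ S.CF * (1 + S.k) * S.ds z := by
  refine (S.hCF z hz).trans ?_
  rw [mul_assoc]
  exact mul_le_mul_of_nonneg_left (infDist_E_le S.Es_nonempty S.k_nonneg hz) S.hCF0.le

lemma ds_frontier {ζ : ℂ} (hζ : ζ ∈ frontier S.G) :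
    S.ds ζ ≤ max 3 (8 * S.D₀ / S.r) * infDist ζ S.E :=
  infDist_Est_le S.hG S.hne S.hE S.hEG S.hEne (le_max_right _ _) S.D₀_spec hζ

lemma exists_cF : ∃ c > 0, ∀ p ∈ core S.G (S.κ * S.r / 128),
    ∃ x ∈ closedBall p (S.κ * S.r / 128), x ∈ S.G ∧ c ≤ ‖S.F x‖ := by
  have hκ := S.hG.κ_pos
  have hr := S.hG.r_pos
  set s := S.κ * S.r / 128 with hs
  have hs0 : 0 < s := by positivity
  have hGc : S.Gᶜ.Nonempty := by
    by_contra h
    rw [not_nonempty_iff_eq_empty, compl_empty_iff] at h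
    have := S.hG.bdd
    rw [h] at this
    exact NormedSpace.unbounded_univ ℝ ℂ this
  set K₀ : Set ℂ := {p | 2 * s ≤ infDist p S.Gᶜ} with hK₀
  have hKG : ∀ p ∈ K₀, ball p (2 * s) ⊆ S.G := by
    intro p hp x hx
    by_contra hcon
    have h1 : infDist p S.Gᶜ ≤ dist p x := infDist_le_dist_of_mem hcon
    rw [mem_ball, dist_comm] at hx
    have h2 : 2 * s ≤ infDist p S.Gᶜ := hp
    linarith
  have hKc : IsCompact K₀ := by
    apply Metric.isCompact_of_isClosed_isBounded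
    · exact isClosed_le continuous_const (continuous_infDist_pt _)
    · apply S.hG.bdd.subset
      intro p hp
      exact hKG p hp (mem_ball_self (by positivity))
  have hex : ∀ p ∈ K₀, ∃ x ∈ S.G, S.F x ≠ 0 ∧ dist p x < s := by
    intro p hp
    by_contra hcon
    push Not at hcon
    have hzero : ∀ x ∈ ball p s, S.F x = 0 := by
      intro x hx
      by_contra h
      have hxG : x ∈ S.G := hKG p hp (ball_subset_ball (by linarith) hx)
      have h1 := hcon x hxG h
      rw [mem_ball, dist_comm] at hx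
      linarith
    have hpG : p ∈ S.G := hKG p hp (mem_ball_self (by positivity))
    have han : AnalyticOnNhd ℂ S.F S.G := S.hFd.analyticOnNhd S.hG.isOpen
    have heq : S.F =ᶠ[𝓝 p] 0 := by
      filter_upwards [ball_mem_nhds p hs0] with x hx using hzero x hx
    have h0 := han.eqOn_zero_of_preconnected_of_eventuallyEq_zero S.hconn hpG heq
    obtain ⟨z, hz, hz0⟩ := S.hF0
    exact hz0 (h0 hz)
  have hcover : K₀ ⊆ ⋃ x : {x : ℂ // x ∈ S.G ∧ S.F x ≠ 0}, ball (x : ℂ) s := by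
    intro p hp
    obtain ⟨x, hxG, hx0, hd⟩ := hex p hp
    exact mem_iUnion.2 ⟨⟨x, hxG, hx0⟩, by rw [mem_ball]; exact hd⟩
  obtain ⟨t, ht⟩ := hKc.elim_finite_subcover _ (fun _ => isOpen_ball) hcover
  have hcore : core S.G s ⊆ K₀ := by
    intro p hp
    rw [hK₀, mem_ofPred_eq, le_infDist hGc]
    intro y hy
    by_contra hcon
    rw [not_le] at hcon
    apply hy
    apply hp
    rw [mem_closedBall, dist_comm]
    exact hcon.le
  by_cases hte : t.Nonempty
  · obtain ⟨x₀, hx₀, hmin⟩ := t.exists_min_image (fun x => ‖S.F x‖) hte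
    refine ⟨‖S.F x₀‖, norm_pos_iff.2 x₀.2.2, fun p hp => ?_⟩
    obtain ⟨x, hx, hpx⟩ := mem_iUnion₂.1 (ht (hcore hp))
    refine ⟨x, ?_, x.2.1, hmin x hx⟩
    rw [mem_closedBall, dist_comm]
    exact (mem_ball.1 hpx).le
  · refine ⟨1, one_pos, fun p hp => ?_⟩
    exfalso
    obtain ⟨x, hx, _⟩ := mem_iUnion₂.1 (ht (hcore hp))
    exact hte ⟨x, hx⟩

/-- data adapted to the setup -/
structure Adm (ρ : ℂ → ℝ) (N : ℕ) (d : Data) : Prop where
  dom : d.Ω = fat S.G ρ
  polesE : ∀ a ∈ d.P, a ∈ S.E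
  polesG : ∀ a ∈ d.P, a ∈ S.G
  bd_le : ∀ z, 0 < S.ds z → d.bd z ≤ N * Real.log (S.D₀ / S.ds z)
  bd_bdd : ∃ B, ∀ z ∈ frontier d.Ω, d.bd z ≤ B

theorem apriori : ∃ (M : ℕ) (c₁ : ℝ), 0 < M ∧ 0 < c₁ ∧ Fatt S.G S.r S.κ (fun z => c₁ * S.ds z ^ M) ∧
    ∃ Q > 0, ∀ N : ℕ, 2 ≤ N → ∀ d : Data, S.Adm (fun z => c₁ * S.ds z ^ M) N d →
      ∀ w, Fam d w → ∀ z ∈ closure S.G, z ∉ d.P → Real.exp (w z) * ‖S.F z‖ ^ N ≤ Q ^ N := by
  have hκ := S.hG.κ_pos
  have hκ1 := S.hG.κ_le
  have hr := S.hG.r_pos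
  have hκc : S.κ / 32 ≤ 1 / 4 := by linarith
  have hq0 := qf_pos (c := S.κ / 32) (by positivity) hκc
  have hq1 := qf_lt_one (c := S.κ / 32) (by positivity) hκc
  obtain ⟨K, hK⟩ := exists_chK hκ
  set q := qf (S.κ / 32) with hq
  obtain ⟨n, hn⟩ : ∃ n : ℕ, q ^ n * 4 ^ K < 1 := by
    have h2 := (tendsto_pow_atTop_nhds_zero_of_lt_one hq0.le hq1).mul_const ((4:ℝ) ^ K)
    rw [zero_mul] at h2
    exact (h2.eventually (gt_mem_nhds one_pos)).exists
  obtain ⟨k₀, hk₀⟩ : ∃ k₀ : ℕ, 8 * q ^ k₀ ≤ 1 := by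
    have h2 := (tendsto_pow_atTop_nhds_zero_of_lt_one hq0.le hq1).const_mul (8:ℝ)
    rw [mul_zero] at h2
    obtain ⟨m, hm⟩ := (h2.eventually (gt_mem_nhds one_pos)).exists
    exact ⟨m, hm.le⟩
  set A : ℝ := 9 * (4 * 8 ^ n * S.r) ^ K with hA
  have hA0 : 0 < A := by positivity
  have hD := S.D₀_pos
  set C2 : ℝ := max 3 (8 * S.D₀ / S.r) with hC2
  have hC2pos : 0 < C2 := lt_of_lt_of_le (by norm_num) (le_max_left _ _)
  set cS : ℝ := min (1 / 2) (min (S.r / (8 * S.D₀)) (1 / (2 * C2))) with hcS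
  have hcS0 : 0 < cS := by positivity
  have hcS1 : cS ≤ 1 / 2 := min_le_left _ _
  have hcS2 : cS * S.D₀ ≤ S.r / 8 := by
    have : cS ≤ S.r / (8 * S.D₀) := (min_le_right _ _).trans (min_le_left _ _)
    calc cS * S.D₀ ≤ S.r / (8 * S.D₀) * S.D₀ := by gcongr
      _ = S.r / 8 := by field_simp
  have hcS3 : cS * C2 ≤ 1 / 2 := by
    have : cS ≤ 1 / (2 * C2) := (min_le_right _ _).trans (min_le_right _ _)
    calc cS * C2 ≤ 1 / (2 * C2) * C2 := by gcongr
      _ = 1 / 2 := by field_simp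
  set M : ℕ := K * k₀ + 1 with hM
  set c₁ : ℝ := min (S.κ / (128 * (2 * A) ^ k₀) * (cS / 2) ^ M)
    (min (S.κ / 4 / (M * S.D₀ ^ (M - 1))) (S.κ ^ 2 * S.r / 64 / S.D₀ ^ M)) with hc₁
  have hMpos : (0:ℝ) < M := by rw [hM]; positivity
  have hc₁0 : 0 < c₁ := by positivity
  have hc₁a : c₁ ≤ S.κ / (128 * (2 * A) ^ k₀) * (cS / 2) ^ M := min_le_left _ _
  have hc₁b : c₁ * (M * S.D₀ ^ (M - 1)) ≤ S.κ / 4 := by
    have : c₁ ≤ S.κ / 4 / (M * S.D₀ ^ (M - 1)) := (min_le_right _ _).trans (min_le_left _ _)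
    rwa [le_div_iff₀ (by positivity)] at this
  have hc₁c : c₁ * S.D₀ ^ M ≤ S.κ ^ 2 * S.r / 64 := by
    have : c₁ ≤ S.κ ^ 2 * S.r / 64 / S.D₀ ^ M := (min_le_right _ _).trans (min_le_right _ _)
    rwa [le_div_iff₀ (by positivity)] at this
  set ρ : ℂ → ℝ := fun z => c₁ * S.ds z ^ M with hρdef
  have hρ : Fatt S.G S.r S.κ ρ := by
    constructor
    · intro z hz
      have := S.ds_pos (S.notMem_Es_of_mem hz)
      simp only [hρdef]; positivity
    · intro z
      have := S.ds_nonneg z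
      simp only [hρdef]; positivity
    · intro z w
      simp only [hρdef]
      rw [← mul_sub]
      have h1 := abs_pow_sub_pow_le (S.ds z) (S.ds w) M
      have h2 : |S.ds z - S.ds w| ≤ dist z w := by
        rw [abs_le]
        have h3 := S.ds_lip z w
        have h4 := S.ds_lip w z
        rw [dist_comm] at h4
        constructor <;> linarith
      have h3 : max |S.ds z| |S.ds w| ≤ S.D₀ := by
        rw [abs_of_nonneg (S.ds_nonneg z), abs_of_nonneg (S.ds_nonneg w)]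
        exact max_le (S.ds_le z) (S.ds_le w)
      have h4 : S.ds z ^ M - S.ds w ^ M ≤ dist z w * M * S.D₀ ^ (M - 1) := by
        refine (le_abs_self _).trans (h1.trans ?_)
        gcongr
      calc c₁ * (S.ds z ^ M - S.ds w ^ M) ≤ c₁ * (dist z w * M * S.D₀ ^ (M - 1)) := by gcongr
        _ = c₁ * (M * S.D₀ ^ (M - 1)) * dist z w := by ring
        _ ≤ S.κ / 4 * dist z w := by gcongr
    · intro z
      simp only [hρdef]
      refine le_trans ?_ hc₁c
      have := S.ds_nonneg z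
      gcongr
      exact S.ds_le z
  refine ⟨M, c₁, Nat.succ_pos _, hc₁0, hρ, ?_⟩
  obtain ⟨cF, hcF0, hcF⟩ := S.exists_cF
  set Q1 : ℝ := 2 * S.D₀ * (S.CF * (1 + S.k)) with hQ1
  have hQ10 : 0 < Q1 := by
    have h1 := S.hCF0
    have h2 := S.k_nonneg
    positivity
  set Λ : ℝ := max 0 (Real.log (Q1 / cF)) with hΛ
  refine ⟨Real.exp Λ * Q1, by positivity, ?_⟩
  intro N hN d hd
  have hN0 : (0:ℝ) ≤ N := Nat.cast_nonneg N
  obtain ⟨B, hB⟩ := hd.bd_bdd
  -- the supremum
  set 𝓑 : Set ℝ := {b | b = 0 ∨ ∃ w, Fam d w ∧ ∃ p ∈ core S.G (S.κ * S.r / 128),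
    (∀ x ∈ closedBall p (S.κ * S.r / 128), x ∉ d.P → b ≤ w x)} with h𝓑
  have hnotP : ∀ x, cF ≤ ‖S.F x‖ → x ∉ d.P := by
    intro x hx hxP
    rw [S.F_zero (hd.polesE x hxP), norm_zero] at hx
    linarith
  have hGd : S.G ⊆ d.Ω := by rw [hd.dom]; exact G_subset_fat hρ
  have hbddB : BddAbove 𝓑 := by
    refine ⟨max 0 (2 * (d.P.card * Real.log (d.D * S.CF / cF)) + B), ?_⟩
    rintro b (rfl | ⟨w, hw, p, hp, hlow⟩)
    · exact le_max_left _ _
    · refine le_trans ?_ (le_max_right _ _)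
      obtain ⟨x, hx, hxG, hxF⟩ := hcF p hp
      have hxP := hnotP x hxF
      have h1 := hlow x hx hxP
      have h2 := hw.bound hB x (hGd hxG) hxP
      have h3 : Tp d.P d.D x ≤ d.P.card * Real.log (d.D * S.CF / cF) := by
        rw [Tp, ← nsmul_eq_mul]
        apply Finset.sum_le_card_nsmul
        intro a ha
        have h4 : ‖S.F x‖ ≤ S.CF * ‖x - a‖ := by
          refine (S.hCF x (subset_closure hxG)).trans ?_
          rw [← dist_eq_norm]
          exact mul_le_mul_of_nonneg_left (infDist_le_dist_of_mem (hd.polesE a ha)) S.hCF0.le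
        have hxa : 0 < ‖x - a‖ := by
          rw [norm_pos_iff, sub_ne_zero]
          rintro rfl
          exact hxP ha
        apply Real.log_le_log
        · exact div_pos d.hD hxa
        · rw [div_le_div_iff₀ hxa hcF0]
          have := d.hD
          nlinarith
      linarith
  set V : ℝ := sSup 𝓑 with hV
  have h0mem : (0:ℝ) ∈ 𝓑 := Or.inl rfl
  have hV0 : 0 ≤ V := le_csSup hbddB h0mem
  have hVcore : CoreBd S.G S.r S.κ d V := by
    intro w hw p hp b hlow
    exact le_csSup hbddB (Or.inr ⟨w, hw, p, hp, hlow⟩)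
  -- boundary bound
  have hbdry : ∀ w, Fam d w → ∀ z ∈ closure S.G, z ∉ d.P →
      Real.exp (w z) * ‖S.F z‖ ^ N ≤ Real.exp (V / 2) * Q1 ^ N := by
    intro w hw
    apply compare S.hG.isOpen S.hG.bdd S.hFc S.hFd hGd hd.polesG
      (fun a ha => S.F_zero (hd.polesE a ha)) hN hw (by positivity)
    intro ζ hζ hFζ
    have hζcl : ζ ∈ closure S.G := frontier_subset_closure hζ
    have hζG : ζ ∉ S.G := by
      rw [S.hG.isOpen.frontier_eq] at hζ; exact hζ.2
    have hζE : ζ ∉ S.E := fun h => hFζ (S.F_zero h)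
    have hζEs : ζ ∉ S.Es := fun h => hζE (mem_E_of_mem_Est S.hE.isClosed S.hEne hζcl h)
    have hds : 0 < S.ds ζ := S.ds_pos hζEs
    have hζfat : ζ ∈ fat S.G ρ := by
      rw [mem_fat, ← infDist_closure, infDist_zero_of_mem hζcl]
      simp only [hρdef]; positivity
    obtain ⟨ν, hν⟩ := S.hG.cone ζ hζ
    set s : ℝ := cS * S.ds ζ with hs
    have hs0 : 0 < s := by positivity
    have hsr : s ≤ S.r / 8 := by
      refine le_trans ?_ hcS2
      rw [hs]
      exact mul_le_mul_of_nonneg_left (S.ds_le ζ) hcS0.le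
    have hsd : s ≤ S.ds ζ / 2 := by
      rw [hs]; nlinarith
    have hsE : s < infDist ζ S.E := by
      have h1 := S.ds_frontier hζ
      rw [← hC2] at h1
      have h2 : 0 < infDist ζ S.E := (S.hE.isClosed.notMem_iff_infDist_pos S.hEne).1 hζE
      calc s ≤ cS * (C2 * infDist ζ S.E) := by rw [hs]; gcongr
        _ = cS * C2 * infDist ζ S.E := by ring
        _ ≤ 1 / 2 * infDist ζ S.E := by gcongr
        _ < infDist ζ S.E := by linarith
    have hfam := boundary_est S.hG S.hne hρ hd.dom hV0 hVcore hν hζG hζfat hs0 hsr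
      (lam := N * Real.log (2 * S.D₀ / S.ds ζ)) ?_ ?_ ?_ hK hn hk₀ ?_ hw
    · have h1 : Real.exp (w ζ) ≤ Real.exp (V / 2) * (2 * S.D₀ / S.ds ζ) ^ N := by
        calc Real.exp (w ζ) ≤ Real.exp (V / 2 + N * Real.log (2 * S.D₀ / S.ds ζ)) := by
              apply Real.exp_le_exp.2; linarith
          _ = _ := by
            rw [Real.exp_add, ← Real.log_pow, Real.exp_log]
            positivity
      have h2 : ‖S.F ζ‖ ^ N ≤ (S.CF * (1 + S.k) * S.ds ζ) ^ N := by
        have := S.F_le hζcl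
        gcongr
      calc Real.exp (w ζ) * ‖S.F ζ‖ ^ N ≤ (Real.exp (V / 2) * (2 * S.D₀ / S.ds ζ) ^ N) *
            (S.CF * (1 + S.k) * S.ds ζ) ^ N := by gcongr
        _ = Real.exp (V / 2) * ((2 * S.D₀ / S.ds ζ) * (S.CF * (1 + S.k) * S.ds ζ)) ^ N := by
            rw [mul_pow (2 * S.D₀ / S.ds ζ)]; ring
        _ = Real.exp (V / 2) * Q1 ^ N := by
            congr 2
            rw [hQ1]; field_simp
    · intro a ha hmem
      rw [mem_closedBall, dist_comm] at hmem
      have := infDist_le_dist_of_mem (x := ζ) (hd.polesE a ha)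
      linarith
    · apply mul_nonneg hN0
      apply Real.log_nonneg
      rw [le_div_iff₀ hds]
      have := S.ds_le ζ
      linarith
    · intro z _ hz
      rw [mem_closedBall, dist_comm] at hz
      have h1 := S.ds_lip ζ z
      have h2 : S.ds ζ / 2 ≤ S.ds z := by linarith
      have h3 : 0 < S.ds z := by linarith
      refine (hd.bd_le z h3).trans ?_
      apply mul_le_mul_of_nonneg_left _ hN0
      apply Real.log_le_log (by positivity)
      rw [div_le_div_iff₀ h3 hds]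
      have h4 := mul_le_mul_of_nonneg_left h2 hD.le
      linarith
    · intro y hy
      rw [mem_closedBall] at hy
      have h1 := S.ds_lip y ζ
      have h2 : S.ds y ≤ 2 * s / cS := by
        have : 2 * s / cS = 2 * S.ds ζ := by rw [hs]; field_simp
        rw [this]; linarith
      have h3 := S.ds_nonneg y
      have hkey : c₁ * (2 * s / cS) ^ M ≤
          S.κ * s / 128 * (s ^ K / (2 * A)) ^ k₀ := by
        calc c₁ * (2 * s / cS) ^ M
            ≤ (S.κ / (128 * (2 * A) ^ k₀) * (cS / 2) ^ M) * (2 * s / cS) ^ M := by gcongr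
          _ = S.κ / (128 * (2 * A) ^ k₀) * ((cS / 2) * (2 * s / cS)) ^ M := by
              rw [mul_pow (cS / 2) (2 * s / cS) M, mul_assoc]
          _ = S.κ / (128 * (2 * A) ^ k₀) * s ^ M := by
              congr 2; field_simp
          _ = S.κ * s / 128 * (s ^ K / (2 * A)) ^ k₀ := by
              rw [hM, div_pow, ← pow_mul, pow_succ]; field_simp
      refine le_trans ?_ hkey
      simp only [hρdef]
      gcongr
  -- absorption
  have hVle : V ≤ V / 2 + N * Λ := by
    apply csSup_le ⟨0, h0mem⟩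
    have hΛ0 : 0 ≤ Λ := le_max_left _ _
    rintro b (rfl | ⟨w, hw, p, hp, hlow⟩)
    · positivity
    · obtain ⟨x, hx, hxG, hxF⟩ := hcF p hp
      have hxP := hnotP x hxF
      have h1 := hlow x hx hxP
      have h2 := hbdry w hw x (subset_closure hxG) hxP
      have h3 : Real.exp b * cF ^ N ≤ Real.exp (V / 2) * Q1 ^ N := by
        refine le_trans ?_ h2
        have := Real.exp_le_exp.2 h1
        gcongr
      have h4 : Real.exp b ≤ Real.exp (V / 2) * (Q1 / cF) ^ N := by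
        rw [div_pow, ← mul_div_assoc, le_div_iff₀ (by positivity)]
        exact h3
      have h5 : Real.exp (V / 2) * (Q1 / cF) ^ N = Real.exp (V / 2 + N * Real.log (Q1 / cF)) := by
        rw [Real.exp_add, ← Real.log_pow, Real.exp_log]
        positivity
      rw [h5, Real.exp_le_exp] at h4
      have h6 : Real.log (Q1 / cF) ≤ Λ := le_max_right _ _
      have h7 : N * Real.log (Q1 / cF) ≤ N * Λ := by gcongr
      linarith
  intro w hw z hz hzP
  refine (hbdry w hw z hz hzP).trans ?_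
  rw [mul_pow (Real.exp Λ) Q1 N, ← Real.exp_nat_mul]
  apply mul_le_mul_of_nonneg_right _ (by positivity)
  apply Real.exp_le_exp.2
  linarith

end Setup

end Pool.Agent.Helper93.LZ
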