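import Pool.Agent.Helper93.LZ.Fam2

/-!
Balayage: harmonic limits of the Perron family with prescribed logarithmic poles.
-/

open Set Metric Filter Topology Complex MeasureTheory Real InnerProductSpace

namespace Pool.Agent.Helper93.LZ

lemma continuous_comp_circle {f : ℂ → ℝ} {c : ℂ} {R : ℝ} (hR : 0 ≤ R)
    (hf : ContinuousOn f (sphere c R)) : Continuous (fun θ : ℝ => f (circleMap c R θ)) := by
  rw [← continuousOn_univ]
  refine hf.comp (continuous_circleMap c R).continuousOn ?_
  intro θ _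
  exact circleMap_mem_sphere c hR θ

/-- convergence of Poisson integrals -/
lemma pois_tendsto {c : ℂ} {R : ℝ} (hR : 0 < R) {w : ℕ → ℂ → ℝ} {S : ℂ → ℝ} {M : ℝ}
    (hw : ∀ n, ContinuousOn (w n) (sphere c R)) (hM : ∀ n, ∀ x ∈ sphere c R, |w n x| ≤ M)
    (hlim : ∀ x ∈ sphere c R, Tendsto (fun n => w n x) atTop (𝓝 (S x))) {z : ℂ}
    (hz : z ∈ ball c R) : Tendsto (fun n => pois c R (w n) z) atTop (𝓝 (pois c R S z)) := by
  have hk := continuousOn_poissonKernel hz
  obtain ⟨L, hL⟩ := (isCompact_sphere c R).exists_bound_of_continuousOn hk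
  simp_rw [pois_of_mem hz]
  simp only [circleAverage_def]
  apply Tendsto.const_smul
  apply intervalIntegral.tendsto_integral_filter_of_dominated_convergence (fun _ => L * M)
  · filter_upwards with n
    exact (continuous_comp_circle hR.le (hk.smul (hw n))).aestronglyMeasurable
  · filter_upwards with n
    filter_upwards with θ _
    have h1 := circleMap_mem_sphere c hR.le θ
    change ‖poissonKernel c z (circleMap c R θ) * w n (circleMap c R θ)‖ ≤ L * M
    rw [norm_mul]
    have h2 := hL _ h1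
    have h3 := hM n _ h1
    rw [← Real.norm_eq_abs] at h3
    exact mul_le_mul h2 h3 (norm_nonneg _) ((norm_nonneg _).trans h2)
  · exact intervalIntegrable_const
  · filter_upwards with θ _
    have h1 := circleMap_mem_sphere c hR.le θ
    change Tendsto (fun n => poissonKernel c z (circleMap c R θ) * w n (circleMap c R θ)) atTop
      (𝓝 (poissonKernel c z (circleMap c R θ) * S (circleMap c R θ)))
    exact (hlim _ h1).const_mul _

lemma circleIntegrable_limit {c : ℂ} {R : ℝ} (hR : 0 < R) {w : ℕ → ℂ → ℝ} {S : ℂ → ℝ} {M : ℝ}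
    (hw : ∀ n, ContinuousOn (w n) (sphere c R)) (hM : ∀ n, ∀ x ∈ sphere c R, |w n x| ≤ M)
    (hlim : ∀ x ∈ sphere c R, Tendsto (fun n => w n x) atTop (𝓝 (S x))) :
    CircleIntegrable S c R := by
  rw [CircleIntegrable, intervalIntegrable_iff]
  have hmeas : AEStronglyMeasurable (fun θ : ℝ => S (circleMap c R θ))
      (volume.restrict (uIoc 0 (2 * π))) := by
    apply aestronglyMeasurable_of_tendsto_ae atTop
      (f := fun n θ => w n (circleMap c R θ))
    · intro n
      exact (continuous_comp_circle hR.le (hw n)).aestronglyMeasurable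
    · filter_upwards with θ
      exact hlim _ (circleMap_mem_sphere c hR.le θ)
  have hfin : IsFiniteMeasure (volume.restrict (uIoc 0 (2 * π))) := by
    rw [uIoc_of_le two_pi_pos.le]; infer_instance
  refine Integrable.of_bound hmeas M ?_
  filter_upwards with θ
  have h1 := circleMap_mem_sphere c hR.le θ
  have h2 := hlim _ h1
  exact le_of_tendsto h2.norm (Eventually.of_forall fun n => hM n _ h1)

/-- the modification attached to a disc -/
noncomputable def modif (d : Data) (c : ℂ) (R : ℝ) (w : ℂ → ℝ) : ℂ → ℝ :=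
  open Classical in
  if c ∈ d.P then glue (ball c R) (fun z => Real.log (R / ‖z - c‖) + pois c R w z) w
  else glue (ball c R) (pois c R w) w

lemma le_modif (d : Data) (c : ℂ) (R : ℝ) (w : ℂ → ℝ) (z : ℂ) : w z ≤ modif d c R w z := by
  rw [modif]; split_ifs
  · exact le_glue _ _ _ _
  · exact le_glue _ _ _ _

/-- good discs -/
structure GoodDisc (d : Data) (c : ℂ) (R : ℝ) : Prop where
  pos : 0 < R
  sub : closedBall c R ⊆ d.Ω
  pole : ∀ b ∈ d.P, b ∈ closedBall c R → b = c

lemma exists_goodDisc (d : Data) {z : ℂ} (hz : z ∈ d.Ω) : ∃ R, GoodDisc d z R := by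
  classical
  have h1 : d.Ω \ (d.P.erase z : Finset ℂ) ∈ 𝓝 z := by
    apply (d.hΩ.sdiff (d.P.erase z).finite_toSet.isClosed).mem_nhds
    exact ⟨hz, by simp⟩
  obtain ⟨R, hR, hb⟩ := Metric.nhds_basis_closedBall.mem_iff.1 h1
  refine ⟨R, hR, hb.trans sdiff_subset, fun b hb' hbR => ?_⟩
  by_contra hne
  exact (hb hbR).2 (by simp only [Finset.coe_erase, Set.mem_sdiff, Finset.mem_coe,
    mem_singleton_iff]; exact ⟨hb', hne⟩)

lemma Fam.modif {d : Data} {w : ℂ → ℝ} (hw : Fam d w) {c : ℂ} {R : ℝ} (h : GoodDisc d c R) :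
    Fam d (LZ.modif d c R w) := by
  classical
  rw [LZ.modif]
  by_cases hc : c ∈ d.P
  · rw [if_pos hc]
    exact (hw.polePoisson hc h.pos h.sub h.pole).1
  · rw [if_neg hc]
    refine (hw.poisson h.pos h.sub fun a ha hmem => ?_).1
    exact hc (h.pole a ha hmem ▸ ha)

lemma Fam.modif_eq {d : Data} {w : ℂ → ℝ} (hw : Fam d w) {c : ℂ} {R : ℝ} (h : GoodDisc d c R)
    {z : ℂ} (hz : z ∈ closedBall c R) (hzP : z ∉ d.P) :
    LZ.modif d c R w z = (open Classical in if c ∈ d.P then Real.log (R / ‖z - c‖) else 0) +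
      pois c R w z := by
  classical
  rw [LZ.modif]
  by_cases hc : c ∈ d.P
  · rw [if_pos hc, if_pos hc]
    have hne : z ≠ c := fun h => hzP (h ▸ hc)
    exact (hw.polePoisson hc h.pos h.sub h.pole).2 z hz hne
  · rw [if_neg hc, if_neg hc, zero_add]
    refine (hw.poisson h.pos h.sub fun a ha hmem => ?_).2 z hz
    exact hc (h.pole a ha hmem ▸ ha)

/-- existence of the limit function -/
theorem exists_limit (d : Data) {w₀ : ℂ → ℝ} (hw₀ : Fam d w₀) {B : ℝ}
    (hB : ∀ z ∈ frontier d.Ω, d.bd z ≤ B) :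
    ∃ S H : ℂ → ℝ, (∀ z ∈ d.Ω, z ∉ d.P → w₀ z ≤ S z) ∧
      (∀ z ∈ d.Ω, z ∉ d.P → ∀ C, (∀ w, Fam d w → w z ≤ C) → S z ≤ C) ∧
      HarmonicOnNhd H d.Ω ∧ (∀ z ∈ d.Ω, z ∉ d.P → S z = Tp d.P d.D z + H z) := by
  classical
  -- trivial case of an empty domain
  rcases eq_empty_or_nonempty d.Ω with hΩe | hΩne
  · refine ⟨w₀, 0, ?_, ?_, ?_, ?_⟩ <;> simp [hΩe, HarmonicOnNhd]
  have hR' : ∀ z : ℂ, ∃ R, z ∈ d.Ω → GoodDisc d z R := by
    intro z
    by_cases hz : z ∈ d.Ω
    · obtain ⟨R, hR⟩ := exists_goodDisc d hz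
      exact ⟨R, fun _ => hR⟩
    · exact ⟨0, fun h => absurd h hz⟩
  choose R hR using hR'
  obtain ⟨T, hTΩ, hTc, hTcov⟩ := TopologicalSpace.countable_cover_nhdsWithin
    (f := fun z => ball z (R z)) (s := d.Ω)
    (fun z hz => mem_nhdsWithin_of_mem_nhds (ball_mem_nhds z (hR z hz).pos))
  have hTne : T.Nonempty := by
    obtain ⟨z, hz⟩ := hΩne
    obtain ⟨t, ht, _⟩ := mem_iUnion₂.1 (hTcov hz)
    exact ⟨t, ht⟩
  obtain ⟨e, he⟩ := hTc.exists_eq_range hTne
  have heT : ∀ n, e n ∈ d.Ω := fun n => hTΩ (by rw [he]; exact mem_range_self n)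
  -- the sequence
  let W : ℕ → ℂ → ℝ := fun n => Nat.rec w₀
    (fun k v => modif d (e (Nat.unpair k).1) (R (e (Nat.unpair k).1)) v) n
  have hW0 : W 0 = w₀ := rfl
  have hWs : ∀ k, W (k + 1) = modif d (e (Nat.unpair k).1) (R (e (Nat.unpair k).1)) (W k) :=
    fun k => rfl
  have hWF : ∀ k, Fam d (W k) := by
    intro k
    induction k with
    | zero => exact hw₀
    | succ k ih => rw [hWs]; exact ih.modif (hR _ (heT _))
  have hmono : ∀ z, Monotone fun k => W k z := by
    intro z
    apply monotone_nat_of_le_succ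
    intro k
    rw [hWs]
    exact le_modif _ _ _ _ _
  have hbound : ∀ k, ∀ z ∈ d.Ω, z ∉ d.P → W k z ≤ 2 * Tp d.P d.D z + B := fun k =>
    (hWF k).bound hB
  set S : ℂ → ℝ := fun z => ⨆ k, W k z with hS
  have hSlim : ∀ z ∈ d.Ω, z ∉ d.P → Tendsto (fun k => W k z) atTop (𝓝 (S z)) := by
    intro z hz hzP
    apply tendsto_atTop_ciSup (hmono z)
    exact ⟨2 * Tp d.P d.D z + B, by rintro _ ⟨k, rfl⟩; exact hbound k z hz hzP⟩
  -- representation on a disc
  have hsph : ∀ c ∈ d.Ω, ∀ x ∈ sphere c (R c), x ∈ d.Ω ∧ x ∉ d.P := by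
    intro c hc x hx
    have hg := hR c hc
    refine ⟨hg.sub (sphere_subset_closedBall hx), fun hxP => ?_⟩
    have := hg.pole x hxP (sphere_subset_closedBall hx)
    rw [this, mem_sphere, dist_self] at hx
    exact hg.pos.ne hx
  have hbd_sph : ∀ c ∈ d.Ω, ∃ M, ∀ k, ∀ x ∈ sphere c (R c), |W k x| ≤ M := by
    intro c hc
    have hTc : ContinuousOn (fun z => 2 * Tp d.P d.D z + B) (sphere c (R c)) := by
      intro z hz
      have h1 := (Tp_harmonicAt d.hD (hsph c hc z hz).2).1.continuousAt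
      exact ((h1.const_mul 2).add continuousAt_const).continuousWithinAt
    obtain ⟨M, hM⟩ := (isCompact_sphere c (R c)).exists_bound_of_continuousOn hTc
    refine ⟨M, fun k x hx => ?_⟩
    obtain ⟨hxΩ, hxP⟩ := hsph c hc x hx
    rw [abs_of_nonneg ((hWF k).nonneg x (subset_closure hxΩ) hxP)]
    exact (hbound k x hxΩ hxP).trans ((le_abs_self _).trans (hM x hx))
  have hcont_sph : ∀ c ∈ d.Ω, ∀ k, ContinuousOn (W k) (sphere c (R c)) := by
    intro c hc k
    apply (hWF k).cont.mono
    intro x hx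
    obtain ⟨h1, h2⟩ := hsph c hc x hx
    exact ⟨subset_closure h1, h2⟩
  have hrep : ∀ n, ∀ z ∈ ball (e n) (R (e n)), z ∉ d.P →
      S z = (if e n ∈ d.P then Real.log (R (e n) / ‖z - e n‖) else 0) +
        pois (e n) (R (e n)) S z := by
    intro n z hz hzP
    set c := e n with hc
    have hcΩ : c ∈ d.Ω := heT n
    have hg := hR c hcΩ
    obtain ⟨M, hM⟩ := hbd_sph c hcΩ
    have hlim := pois_tendsto hg.pos (hcont_sph c hcΩ) hM
      (fun x hx => hSlim x (hsph c hcΩ x hx).1 (hsph c hcΩ x hx).2) hz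
    have hzΩ := hg.sub (ball_subset_closedBall hz)
    -- subsequence of indices
    have hsub : Tendsto (fun j => Nat.pair n j) atTop atTop := by
      apply tendsto_atTop_mono (fun j => Nat.right_le_pair n j) tendsto_id
    have h1 : Tendsto (fun j => W (Nat.pair n j + 1) z) atTop (𝓝 (S z)) :=
      (hSlim z hzΩ hzP).comp ((tendsto_add_atTop_nat 1).comp hsub)
    have h2 : ∀ j, W (Nat.pair n j + 1) z =
        (if c ∈ d.P then Real.log (R c / ‖z - c‖) else 0) + pois c (R c) (W (Nat.pair n j)) z := by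
      intro j
      rw [hWs, Nat.unpair_pair]
      exact (hWF _).modif_eq hg (ball_subset_closedBall hz) hzP
    simp_rw [h2] at h1
    have h3 := (hlim.comp hsub).const_add (if c ∈ d.P then Real.log (R c / ‖z - c‖) else 0)
    exact tendsto_nhds_unique h1 h3
  have hSint : ∀ c ∈ d.Ω, CircleIntegrable S c (R c) := by
    intro c hc
    obtain ⟨M, hM⟩ := hbd_sph c hc
    exact circleIntegrable_limit (hR c hc).pos (hcont_sph c hc) hM
      (fun x hx => hSlim x (hsph c hc x hx).1 (hsph c hc x hx).2)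
  set H : ℂ → ℝ := fun z => if z ∈ d.P then
    pois z (R z) S z + Real.log (R z / d.D) - Tp (d.P.erase z) d.D z else S z - Tp d.P d.D z
    with hH
  refine ⟨S, H, ?_, ?_, ?_, ?_⟩
  · intro z hz hzP
    exact ge_of_tendsto' (hSlim z hz hzP) (fun k => by
      have := hmono z (Nat.zero_le k)
      exact this)
  · intro z hz hzP C hC
    exact le_of_tendsto' (hSlim z hz hzP) (fun k => hC _ (hWF k))
  · intro z hz
    obtain ⟨c, hcT, hzc⟩ := mem_iUnion₂.1 (hTcov hz)
    rw [he] at hcT
    obtain ⟨n, rfl⟩ := hcT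
    set c := e n with hc
    have hcΩ : c ∈ d.Ω := heT n
    have hg := hR c hcΩ
    have hph := pois_harmonic (hSint c hcΩ)
    by_cases hcP : c ∈ d.P
    · -- pole disc
      have h1 : HarmonicAt (fun x => pois c (R c) S x + Real.log (R c / d.D) -
          Tp (d.P.erase c) d.D x) z := by
        apply HarmonicAt.sub
        · exact (hph z hzc).add (harmonicAt_const _)
        · apply Tp_harmonicAt d.hD
          intro h
          have h2 := hg.pole z (Finset.mem_of_mem_erase h) (ball_subset_closedBall hzc)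
          exact (Finset.ne_of_mem_erase h) h2
      refine (harmonicAt_congr_nhds ?_).1 h1
      filter_upwards [isOpen_ball.mem_nhds hzc] with x hx
      by_cases hxc : x = c
      · rw [hxc]
        simp only [hH, if_pos hcP]
      · have hxP : x ∉ d.P := fun h => hxc (hg.pole x h (ball_subset_closedBall hx))
        simp only [hH, if_neg hxP]
        rw [hrep n x hx hxP, if_pos hcP]
        have h3 : Tp d.P d.D x = Real.log (d.D / ‖x - c‖) + Tp (d.P.erase c) d.D x := by
          rw [Tp, ← Finset.add_sum_erase _ _ hcP]; rfl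
        have hpos : 0 < ‖x - c‖ := norm_pos_iff.2 (sub_ne_zero.2 hxc)
        rw [h3, Real.log_div hg.pos.ne' d.hD.ne', Real.log_div hg.pos.ne' hpos.ne',
          Real.log_div d.hD.ne' hpos.ne']
        ring
    · have hnoP : ∀ x ∈ ball c (R c), x ∉ d.P := fun x hx hxP =>
        hcP (hg.pole x hxP (ball_subset_closedBall hx) ▸ hxP)
      have h1 : HarmonicAt (fun x => pois c (R c) S x - Tp d.P d.D x) z :=
        (hph z hzc).sub (Tp_harmonicAt d.hD (hnoP z hzc))
      refine (harmonicAt_congr_nhds ?_).1 h1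
      filter_upwards [isOpen_ball.mem_nhds hzc] with x hx
      simp only [hH, if_neg (hnoP x hx)]
      rw [hrep n x hx (hnoP x hx), if_neg hcP, zero_add]
  · intro z hz hzP
    simp only [hH, if_neg hzP]
    ring

end Pool.Agent.Helper93.LZ
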