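import Pool.Agent.Helper93.LZ.Chain

/-!
Carleson type estimate and the boundary estimate for the Perron family on a fattened domain.
-/

open Set Metric Filter Topology Complex MeasureTheory Real InnerProductSpace

namespace Pool.Agent.Helper93.LZ

/-- `V` bounds the lower bounds of family members on balls of the core -/
def CoreBd (G : Set ℂ) (r κ : ℝ) (d : Data) (V : ℝ) : Prop :=
  ∀ w, Fam d w → ∀ p ∈ core G (κ * r / 128), ∀ b : ℝ,
    (∀ x ∈ closedBall p (κ * r / 128), x ∉ d.P → b ≤ w x) → b ≤ V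

/-- truncated function extended by zero -/
noncomputable def trunc (Ω : Set ℂ) (w : ℂ → ℝ) (lam : ℝ) (z : ℂ) : ℝ :=
  open Classical in if z ∈ Ω then max (w z - lam) 0 else 0

lemma trunc_nonneg (Ω : Set ℂ) (w : ℂ → ℝ) (lam : ℝ) (z : ℂ) : 0 ≤ trunc Ω w lam z := by
  rw [trunc]; split_ifs
  · exact le_max_right _ _
  · exact le_rfl

lemma trunc_of_mem {Ω : Set ℂ} {w : ℂ → ℝ} {lam : ℝ} {z : ℂ} (h : z ∈ Ω) :
    trunc Ω w lam z = max (w z - lam) 0 := by rw [trunc, if_pos h]

lemma trunc_of_notMem {Ω : Set ℂ} {w : ℂ → ℝ} {lam : ℝ} {z : ℂ} (h : z ∉ Ω) :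
    trunc Ω w lam z = 0 := by rw [trunc, if_neg h]

lemma le_of_trunc {Ω : Set ℂ} {w : ℂ → ℝ} {lam C : ℝ} {z : ℂ} (hz : z ∈ Ω)
    (h : trunc Ω w lam z ≤ C) : w z ≤ lam + C := by
  rw [trunc_of_mem hz] at h
  have := le_max_left (w z - lam) 0
  linarith

lemma trunc_continuousOn {d : Data} {w : ℂ → ℝ} (hw : Fam d w) {c : ℂ} {S lam : ℝ}
    (hP : ∀ a ∈ d.P, a ∉ closedBall c S)
    (hlam : ∀ z ∈ frontier d.Ω, z ∈ closedBall c S → d.bd z ≤ lam) :
    ContinuousOn (trunc d.Ω w lam) (closedBall c S) := by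
  classical
  have : ContinuousOn (fun z => if z ∈ d.Ω then max (w z - lam) 0 else 0) (closedBall c S) := by
    apply ContinuousOn.if
    · rintro a ⟨ha, hfa⟩
      have h1 := hw.bd a hfa
      have h2 := hlam a hfa ha
      exact max_eq_right (by linarith)
    · apply ContinuousOn.sup _ continuousOn_const
      apply ContinuousOn.sub _ continuousOn_const
      apply hw.cont.mono
      rintro x ⟨hx, hx2⟩
      exact ⟨hx2, fun h => hP x h hx⟩
    · exact continuousOn_const
  refine this.congr fun z _ => ?_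
  rw [trunc]

lemma trunc_sub {d : Data} {w : ℂ → ℝ} (hw : Fam d w) {lam : ℝ} {z : ℂ} (hzP : z ∉ d.P)
    (h : 0 < trunc d.Ω w lam z) : SubMeanAt (trunc d.Ω w lam) z := by
  have hz : z ∈ d.Ω := by
    by_contra hcon
    rw [trunc_of_notMem hcon] at h
    exact lt_irrefl _ h
  have hpos : 0 < w z - lam := by
    rw [trunc_of_mem hz] at h
    by_contra hcon
    rw [max_eq_right (by linarith)] at h
    exact lt_irrefl _ h
  have h1 : SubMeanAt (fun x => w x + (-lam)) z := (hw.sub z hz hzP).add (subMeanAt_const _ z)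
  have hopen := d.isOpen_diff.mem_nhds ⟨hz, hzP⟩
  refine h1.of_le (by rw [trunc_of_mem hz, max_eq_left hpos.le]; ring) ?_ hopen ?_
  · filter_upwards [hopen] with x hx
    rw [trunc_of_mem hx.1]
    exact le_trans (by linarith) (le_max_left _ _)
  · have : ContinuousOn (fun x => max (w x - lam) 0) (d.Ω \ d.P) := by
      apply ContinuousOn.sup _ continuousOn_const
      apply ContinuousOn.sub _ continuousOn_const
      exact hw.cont.mono (sdiff_subset_sdiff_left subset_closure)
    exact this.congr fun x hx => trunc_of_mem hx.1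

theorem carleson {G : Set ℂ} {r κ : ℝ} {ρ : ℂ → ℝ} {ζ ν : ℂ} (hG : ConeDom G r κ)
    (hne : G.Nonempty) (hρ : Fatt G r κ ρ) {d : Data} (hdΩ : d.Ω = fat G ρ) {V : ℝ} (hV0 : 0 ≤ V)
    (hV : CoreBd G r κ d V) (hν : IsDir G r κ ζ ν)
    {S : ℝ} (hS : 0 < S) (hSr : S ≤ r / 8) (hP : ∀ a ∈ d.P, a ∉ closedBall ζ S)
    {lam : ℝ} (hlam0 : 0 ≤ lam) (hlam : ∀ z ∈ frontier d.Ω, z ∈ closedBall ζ S → d.bd z ≤ lam)
    {K n : ℕ} (hK : 3 ≤ (1 + κ / 32) ^ K) (hn : (qf (κ / 32)) ^ n * 4 ^ K < 1)
    {w : ℂ → ℝ} (hw : Fam d w) :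
    ∀ x ∈ closedBall ζ (S / 2), trunc d.Ω w lam x ≤ 9 * (4 * 8 ^ n * r / S) ^ K * V := by
  have hκ := hG.κ_pos
  have hκ1 := hG.κ_le
  have hr := hG.r_pos
  set W := trunc d.Ω w lam with hW
  have hWc : ContinuousOn W (closedBall ζ S) := trunc_continuousOn hw hP hlam
  have hW0 : ∀ z, 0 ≤ W z := trunc_nonneg _ _ _
  have hWs : ∀ z ∈ closedBall ζ S, 0 < W z → SubMeanAt W z := fun z hz h =>
    trunc_sub hw (fun h' => hP z h' hz) h
  -- weighted maximum
  set Φ : ℂ → ℝ := fun z => W z * (S - dist z ζ) ^ K with hΦ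
  have hΦc : ContinuousOn Φ (closedBall ζ S) := by
    apply hWc.mul
    fun_prop
  obtain ⟨z₀, hz₀, hmax⟩ := (isCompact_closedBall ζ S).exists_isMaxOn
    ⟨ζ, mem_closedBall_self hS.le⟩ hΦc
  have key : Φ z₀ ≤ 9 * (4 * 8 ^ n * r / 2) ^ K * V := by
    by_cases hpos : Φ z₀ ≤ 0
    · exact hpos.trans (by positivity)
    rw [not_le] at hpos
    rw [mem_closedBall] at hz₀
    set s : ℝ := S - dist z₀ ζ with hs
    have hs0 : 0 ≤ s := by rw [hs]; linarith
    have hWz : 0 < W z₀ := by
      rcases (hW0 z₀).lt_or_eq with h | h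
      · exact h
      · simp only [hΦ] at hpos
        rw [← h, zero_mul] at hpos
        exact absurd hpos (lt_irrefl _)
    have hK0 : K ≠ 0 := by
      rintro rfl
      norm_num at hK
    have hspos : 0 < s := by
      rcases hs0.lt_or_eq with h | h
      · exact h
      · simp only [hΦ] at hpos
        rw [← hs, ← h, zero_pow hK0, mul_zero] at hpos
        exact absurd hpos (lt_irrefl _)
    have hz₀Ω : z₀ ∈ d.Ω := by
      by_contra hcon
      rw [hW, trunc_of_notMem hcon] at hWz
      exact lt_irrefl _ hWz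
    have hzζ : dist z₀ ζ < r / 4 := by linarith
    have h8 : (1:ℝ) ≤ 8 ^ n := one_le_pow₀ (by norm_num)
    set ε : ℝ := 1 / (4 * 8 ^ n) with hε
    have hε0 : 0 < ε := by positivity
    have hε1 : ε ≤ 1 / 4 := by
      rw [hε, div_le_div_iff₀ (by positivity) (by norm_num)]; linarith
    by_cases hcase : closedBall z₀ (ε * s) ⊆ d.Ω
    · -- interior case
      have hsS : s ≤ S := by rw [hs]; linarith [dist_nonneg (x := z₀) (y := ζ)]
      have hεs : ε * s ≤ s / 4 := by nlinarith
      obtain ⟨w', hw', p, hp, hlow⟩ := chain hG hne hρ hdΩ hw hν hzζ (R := ε * s) (by positivity)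
        (by linarith) hcase (fun a ha hmem => hP a ha (by
          rw [mem_closedBall] at hmem ⊢
          have := dist_triangle a z₀ ζ
          linarith)) hK
      have h1 := hV w' hw' p hp _ hlow
      have h2 : W z₀ ≤ w z₀ := by
        rw [hW, trunc_of_mem hz₀Ω]
        apply max_le
        · linarith
        · rw [hW, trunc_of_mem hz₀Ω] at hWz
          by_contra hcon
          rw [not_le] at hcon
          rw [max_eq_right (by linarith)] at hWz
          exact lt_irrefl _ hWz
      have h3 : (2 * (ε * s) / r) ^ K * (r / (2 * ε)) ^ K = s ^ K := by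
        rw [← mul_pow]; congr 1; field_simp
      have h4 : 4 * 8 ^ n * r / 2 = r / (2 * ε) := by
        rw [hε]; field_simp
      simp only [hΦ]
      rw [← hs, h4, ← h3]
      have h5 : 0 < (r / (2 * ε)) ^ K := by positivity
      have h6 : 0 < (2 * (ε * s) / r) ^ K := by positivity
      calc W z₀ * ((2 * (ε * s) / r) ^ K * (r / (2 * ε)) ^ K)
          ≤ w z₀ * ((2 * (ε * s) / r) ^ K * (r / (2 * ε)) ^ K) := by gcongr
        _ = 9 * (r / (2 * ε)) ^ K * ((2 * (ε * s) / r) ^ K / 9 * w z₀) := by ring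
        _ ≤ 9 * (r / (2 * ε)) ^ K * V := by gcongr
    · -- near the boundary
      exfalso
      rw [not_subset] at hcase
      obtain ⟨p, hp, hpΩ⟩ := hcase
      rw [mem_closedBall] at hp
      have hpζ : dist p ζ < r / 4 := by
        have := dist_triangle p z₀ ζ
        nlinarith
      have hin : ∀ z ∈ closedBall p (s / 2), dist z ζ ≤ S - s / 4 := by
        intro z hz
        rw [mem_closedBall] at hz
        have := dist_triangle4 z p z₀ ζ
        nlinarith
      have hinS : closedBall p (s / 2) ⊆ closedBall ζ S := by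
        intro z hz
        rw [mem_closedBall]
        have := hin z hz
        linarith
      have hM : ∀ z ∈ closedBall p (s / 2), W z ≤ 4 ^ K * W z₀ := by
        intro z hz
        have h1 : Φ z ≤ Φ z₀ := hmax (hinS hz)
        simp only [hΦ] at h1
        rw [← hs] at h1
        have h2 := hin z hz
        have h3 : s / 4 ≤ S - dist z ζ := by linarith
        have h4 : W z * (s / 4) ^ K ≤ W z₀ * s ^ K := by
          refine le_trans ?_ h1
          have := hW0 z
          gcongr
        have h5 : s ^ K = 4 ^ K * (s / 4) ^ K := by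
          rw [← mul_pow]; congr 1; ring
        have h6 : 0 < (s / 4) ^ K := by positivity
        rw [h5] at h4
        have h7 : W z * (s / 4) ^ K ≤ (4 ^ K * W z₀) * (s / 4) ^ K := by linarith
        exact le_of_mul_le_mul_right h7 h6
      have hκc : κ / 32 ≤ 1 / 4 := by linarith
      have hdec := decay_iter (W := W) (p := p) (s := s / 2) (by positivity)
        (hWc.mono hinS) (fun z hz h => hWs z (hinS (ball_subset_closedBall hz)) h)
        (c := κ / 32) (by positivity) hκc (M := 4 ^ K * W z₀) (by positivity) hM n ?_ z₀ ?_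
      · have : qf (κ / 32) ^ n * (4 ^ K * W z₀) < 1 * W z₀ := by
          rw [← mul_assoc]; gcongr
        linarith
      · intro k _
        set t : ℝ := s / 2 / 8 ^ k with ht
        have ht0 : 0 < t := by positivity
        have hts : t ≤ s / 2 := by
          apply div_le_self (by positivity)
          exact one_le_pow₀ (by norm_num)
        have hsS : s ≤ S := by rw [hs]; linarith [dist_nonneg (x := z₀) (y := ζ)]
        refine ⟨p - ((t / 4 : ℝ) : ℂ) * ν, ?_, ?_⟩
        · rw [dist_eq_norm, sub_sub_cancel_left, norm_neg, norm_mul, hν.1, Complex.norm_real,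
            Real.norm_eq_abs, abs_of_pos (by positivity), mul_one]
        · intro z hz
          apply trunc_of_notMem
          rw [hdΩ]
          rw [hdΩ] at hpΩ
          apply fat_ext hG hne hρ hν hpΩ hpζ (t := t / 4) (by positivity) (by linarith)
          rw [mem_closedBall] at hz
          rw [mem_ball]
          nlinarith
      · rw [mem_closedBall, dist_comm]
        refine hp.trans ?_
        rw [hε, div_mul_eq_mul_div, one_mul, div_div]
        gcongr
        norm_num
  intro x hx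
  have hxS : x ∈ closedBall ζ S := closedBall_subset_closedBall (by linarith) hx
  have h1 : Φ x ≤ Φ z₀ := hmax hxS
  rw [mem_closedBall] at hx
  have h2 : W x * (S / 2) ^ K ≤ Φ x := by
    simp only [hΦ]
    have := hW0 x
    gcongr
    linarith
  have h3 : 9 * (4 * 8 ^ n * r / S) ^ K * V * (S / 2) ^ K = 9 * (4 * 8 ^ n * r / 2) ^ K * V := by
    have : (4 * 8 ^ n * r / S) ^ K * (S / 2) ^ K = (4 * 8 ^ n * r / 2) ^ K := by
      rw [← mul_pow]; congr 1; field_simp
    calc _ = 9 * ((4 * 8 ^ n * r / S) ^ K * (S / 2) ^ K) * V := by ring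
      _ = _ := by rw [this]
  have h4 : 0 < (S / 2) ^ K := by positivity
  apply le_of_mul_le_mul_right _ h4
  rw [h3]
  linarith

/-- the boundary estimate -/
theorem boundary_est {G : Set ℂ} {r κ : ℝ} {ρ : ℂ → ℝ} {ζ ν : ℂ} (hG : ConeDom G r κ)
    (hne : G.Nonempty) (hρ : Fatt G r κ ρ) {d : Data} (hdΩ : d.Ω = fat G ρ) {V : ℝ} (hV0 : 0 ≤ V)
    (hV : CoreBd G r κ d V) (hν : IsDir G r κ ζ ν) (hζG : ζ ∉ G) (hζΩ : ζ ∈ fat G ρ)
    {S : ℝ} (hS : 0 < S) (hSr : S ≤ r / 8) (hP : ∀ a ∈ d.P, a ∉ closedBall ζ S)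
    {lam : ℝ} (hlam0 : 0 ≤ lam) (hlam : ∀ z ∈ frontier d.Ω, z ∈ closedBall ζ S → d.bd z ≤ lam)
    {K n k₀ : ℕ} (hK : 3 ≤ (1 + κ / 32) ^ K) (hn : (qf (κ / 32)) ^ n * 4 ^ K < 1)
    (hk₀ : 8 * (qf (κ / 32)) ^ k₀ ≤ 1)
    (hsmall : ∀ y ∈ closedBall ζ S, ρ y ≤
      κ * S / 128 * (S ^ K / (2 * (9 * (4 * 8 ^ n * r) ^ K))) ^ k₀)
    {w : ℂ → ℝ} (hw : Fam d w) : w ζ ≤ lam + V / 2 := by
  have hκ := hG.κ_pos
  have hκ1 := hG.κ_le
  have hr := hG.r_pos
  have hκc : κ / 32 ≤ 1 / 4 := by linarith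
  have hq0 := qf_pos (c := κ / 32) (by positivity) hκc
  have hq1 := qf_lt_one (c := κ / 32) (by positivity) hκc
  set q := qf (κ / 32) with hq
  set A : ℝ := 9 * (4 * 8 ^ n * r) ^ K with hA
  have hA0 : 0 < A := by positivity
  have h8 : (1:ℝ) ≤ 8 ^ n := one_le_pow₀ (by norm_num)
  have hSA : S ^ K ≤ A := by
    have h1 : S ^ K ≤ (4 * 8 ^ n * r) ^ K := by
      gcongr
      nlinarith
    have h2 : 0 < (4 * 8 ^ n * r) ^ K := by positivity
    linarith
  have hcar := carleson hG hne hρ hdΩ hV0 hV hν hS hSr hP hlam0 hlam hK hn hw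
  set W := trunc d.Ω w lam with hW
  have hcar' : ∀ x ∈ closedBall ζ (S / 2), W x ≤ A / S ^ K * V := by
    intro x hx
    have := hcar x hx
    rwa [div_pow, show 9 * ((4 * 8 ^ n * r) ^ K / S ^ K) = A / S ^ K by rw [hA]; ring] at this
  have hWc : ContinuousOn W (closedBall ζ S) := trunc_continuousOn hw hP hlam
  have hinS : closedBall ζ (S / 2) ⊆ closedBall ζ S := closedBall_subset_closedBall (by linarith)
  have hex : ∃ m : ℕ, q ^ m * A ≤ S ^ K / 2 := by
    have h1 := tendsto_pow_atTop_nhds_zero_of_lt_one hq0.le hq1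
    have h2 := h1.mul_const A
    rw [zero_mul] at h2
    obtain ⟨m, hm⟩ := (h2.eventually (gt_mem_nhds (show (0:ℝ) < S ^ K / 2 by positivity))).exists
    exact ⟨m, hm.le⟩
  classical
  set m := Nat.find hex with hm
  have hm1 : q ^ m * A ≤ S ^ K / 2 := Nat.find_spec hex
  have hdec := decay_iter (W := W) (p := ζ) (s := S / 2) (by positivity)
    (hWc.mono hinS) (fun z hz h => trunc_sub hw
      (fun h' => hP z h' (hinS (ball_subset_closedBall hz))) h)
    (c := κ / 32) (by positivity) hκc (M := A / S ^ K * V) (by positivity) hcar' m ?_ ζ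
    (mem_closedBall_self (by positivity))
  · have hζ' : ζ ∈ d.Ω := by rw [hdΩ]; exact hζΩ
    apply le_of_trunc hζ'
    refine hdec.trans ?_
    rw [← hq]
    have hSK : 0 < S ^ K := by positivity
    calc q ^ m * (A / S ^ K * V) = (q ^ m * A) / S ^ K * V := by ring
      _ ≤ (S ^ K / 2) / S ^ K * V := by gcongr
      _ = V / 2 := by field_simp
  · intro k hk
    obtain ⟨m', hm'⟩ : ∃ m', m = m' + 1 := Nat.exists_eq_succ_of_ne_zero (by omega)
    have hm2 : S ^ K / 2 < q ^ m' * A := by
      have := Nat.find_min hex (m := m') (by rw [← hm, hm']; exact Nat.lt_succ_self _)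
      rwa [not_le] at this
    have hkm : k ≤ m' := by omega
    -- 8 ^ m' ≤ (2 A / S ^ K) ^ k₀
    have h9 : (S ^ K / (2 * A)) ^ k₀ * 8 ^ k ≤ 1 := by
      have h10 : S ^ K / (2 * A) ≤ q ^ m' := by
        rw [div_le_iff₀ (by positivity)]; linarith
      calc (S ^ K / (2 * A)) ^ k₀ * 8 ^ k ≤ (q ^ m') ^ k₀ * 8 ^ m' := by
            gcongr
            norm_num
        _ = (8 * q ^ k₀) ^ m' := by rw [mul_pow, ← pow_mul, ← pow_mul, mul_comm m' k₀]; ring
        _ ≤ 1 := pow_le_one₀ (by positivity) hk₀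
    set t : ℝ := S / 2 / 8 ^ k with ht
    have ht0 : 0 < t := by positivity
    have hts : t ≤ S / 2 := by
      apply div_le_self (by positivity)
      exact one_le_pow₀ (by norm_num)
    refine ⟨ζ - ((t / 4 : ℝ) : ℂ) * ν, ?_, ?_⟩
    · rw [dist_eq_norm, sub_sub_cancel_left, norm_neg, norm_mul, hν.1, Complex.norm_real,
        Real.norm_eq_abs, abs_of_pos (by positivity), mul_one]
    · intro z hz
      apply trunc_of_notMem
      rw [hdΩ, mem_fat, not_lt]
      rw [mem_closedBall] at hz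
      have h11 := ext_infDist hG hne hν hζG (by rw [dist_self]; linarith) (t := t / 4)
        (by positivity) (by linarith) z
      have h12 : z ∈ closedBall ζ S := by
        rw [mem_closedBall]
        have h13 := dist_triangle z (ζ - ((t / 4 : ℝ) : ℂ) * ν) ζ
        have h14 : dist (ζ - ((t / 4 : ℝ) : ℂ) * ν) ζ = t / 4 := by
          rw [dist_eq_norm, sub_sub_cancel_left, norm_neg, norm_mul, hν.1, Complex.norm_real,
            Real.norm_eq_abs, abs_of_pos (by positivity), mul_one]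
        nlinarith
      refine (hsmall z h12).trans (le_trans ?_ h11)
      have h15 : (S ^ K / (2 * A)) ^ k₀ ≤ 1 / 8 ^ k := by
        rw [le_div_iff₀ (by positivity)]; exact h9
      have h16 : κ * S / 128 * (S ^ K / (2 * A)) ^ k₀ ≤ κ * S / 128 * (1 / 8 ^ k) := by gcongr
      have h17 : κ * S / 128 * (1 / 8 ^ k) = κ / 64 * t := by
        rw [ht]; field_simp; norm_num
      nlinarith [mul_pos hκ ht0]

end Pool.Agent.Helper93.LZ
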