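import Pool.Agent.Helper93.LZ.Geo

/-!
Chains of discs towards the core of the domain.
-/

open Set Metric Filter Topology Complex MeasureTheory Real InnerProductSpace

namespace Pool.Agent.Helper93.LZ

/-- the core of the domain -/
def core (G : Set ℂ) (s : ℝ) : Set ℂ := {p | closedBall p (2 * s) ⊆ G}

lemma exists_chK {κ : ℝ} (hκ : 0 < κ) : ∃ K : ℕ, 3 ≤ (1 + κ / 32) ^ K := by
  have h := one_add_mul_le_pow (a := κ / 32) (by linarith)
  obtain ⟨n, hn⟩ := exists_nat_gt (2 / (κ / 32))
  refine ⟨n, ?_⟩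
  have h1 := h n
  have h2 : 2 < n * (κ / 32) := by
    rwa [div_lt_iff₀ (by positivity)] at hn
  linarith

lemma chain {G : Set ℂ} {r κ : ℝ} {ρ : ℂ → ℝ} {ζ ν : ℂ} (hG : ConeDom G r κ) (hne : G.Nonempty)
    (hρ : Fatt G r κ ρ) {d : Data} (hdΩ : d.Ω = fat G ρ) {w : ℂ → ℝ} (hw : Fam d w)
    (hν : IsDir G r κ ζ ν) {z : ℂ} (hzζ : dist z ζ < r / 4) {R : ℝ} (hR : 0 < R)
    (hRr : R ≤ r / 4) (hcl : closedBall z R ⊆ d.Ω) (hP : ∀ a ∈ d.P, a ∉ closedBall z R)
    {K : ℕ} (hK : 3 ≤ (1 + κ / 32) ^ K) :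
    ∃ w', Fam d w' ∧ ∃ p ∈ core G (κ * r / 128), ∀ x ∈ closedBall p (κ * r / 128), x ∉ d.P →
      (2 * R / r) ^ K / 9 * w z ≤ w' x := by
  have hκ := hG.κ_pos
  have hκ1 := hG.κ_le
  have hr := hG.r_pos
  have hzΩ : z ∈ d.Ω := hcl (mem_closedBall_self hR.le)
  have hzP : z ∉ d.P := fun h => hP z h (mem_closedBall_self hR.le)
  have hwz : 0 ≤ w z := hw.nonneg z (subset_closure hzΩ) hzP
  set q : ℝ := 1 + κ / 32 with hq
  have hq1 : 1 < q := by rw [hq]; linarith
  have hq2 : q ≤ 2 := by rw [hq]; linarith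
  have hcone : ∀ t, 0 < t → t < r / 2 → closedBall (z + t * ν) (κ / 8 * t) ⊆ d.Ω := by
    intro t ht htr
    rw [hdΩ]
    rw [hdΩ] at hzΩ
    refine (closedBall_subset_ball ?_).trans
      (fat_cone hG hne hρ hν hzΩ (by linarith) ht htr)
    nlinarith
  have claim : ∀ j : ℕ, q ^ j * (R / 4) < r / 2 → ∃ w', Fam d w' ∧
      ∀ x ∈ closedBall (z + ((q ^ j * (R / 4) : ℝ) : ℂ) * ν) (κ / 16 * (q ^ j * (R / 4))),
        x ∉ d.P → w z / 3 ^ (j + 1) ≤ w' x := by
    intro j
    induction j with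
    | zero =>
      intro _
      obtain ⟨w', hw', h⟩ := hw.start hR hcl hP
      refine ⟨w', hw', fun x hx _ => ?_⟩
      rw [zero_add, pow_one]
      apply h
      rw [mem_closedBall] at hx ⊢
      have h1 := dist_triangle x (z + ((q ^ 0 * (R / 4) : ℝ) : ℂ) * ν) z
      rw [dist_add_dir hν.1 z (by positivity)] at h1
      simp only [pow_zero, one_mul] at h1 hx
      nlinarith
    | succ j ih =>
      intro hj
      set t : ℝ := q ^ j * (R / 4) with ht
      have ht0 : 0 < t := by positivity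
      have htt : q ^ (j + 1) * (R / 4) = q * t := by rw [pow_succ, ht]; ring
      rw [htt] at hj ⊢
      have htlt : t < r / 2 := by nlinarith
      obtain ⟨w', hw', h⟩ := ih htlt
      have hlow : ∀ x ∈ closedBall (z + ((q * t : ℝ) : ℂ) * ν) (κ / 32 * t), x ∉ d.P →
          w z / 3 ^ (j + 1) ≤ w' x := by
        intro x hx hxP
        apply h x _ hxP
        rw [mem_closedBall] at hx ⊢
        have h1 := dist_triangle x (z + ((q * t : ℝ) : ℂ) * ν) (z + ((t : ℝ) : ℂ) * ν)
        have h2 : dist (z + ((q * t : ℝ) : ℂ) * ν) (z + ((t : ℝ) : ℂ) * ν) = κ / 32 * t := by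
          rw [dist_eq_norm]
          have : z + ((q * t : ℝ) : ℂ) * ν - (z + ((t : ℝ) : ℂ) * ν) =
              ((κ / 32 * t : ℝ) : ℂ) * ν := by
            rw [hq]; push_cast; ring
          rw [this, norm_mul, hν.1, mul_one, Complex.norm_real, Real.norm_eq_abs,
            abs_of_pos (by positivity)]
        rw [h2] at h1
        linarith
      obtain ⟨w'', hw'', h''⟩ := hw'.step (x := z + ((q * t : ℝ) : ℂ) * ν) (σ := κ / 32 * t)
        (ρ := κ / 8 * (q * t)) (b := w z / 3 ^ (j + 1)) (by positivity)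
        (by nlinarith [mul_pos hκ ht0]) (by positivity)
        (hcone (q * t) (by positivity) hj) hlow
      refine ⟨w'', hw'', fun x hx hxP => ?_⟩
      refine le_trans ?_ (h'' x ?_ hxP)
      · have hratio : κ / 8 * (q * t) / (κ / 32 * t) = 4 * q := by
          field_simp
          norm_num
        rw [hratio]
        have hlog2 : 0 < Real.log 2 := Real.log_pos (by norm_num)
        have h8 : Real.log (4 * q) ≤ 3 * Real.log 2 := by
          have : (3:ℝ) * Real.log 2 = Real.log 8 := by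
            rw [show (8:ℝ) = 2 ^ 3 by norm_num, Real.log_pow]; norm_num
          rw [this]
          apply Real.log_le_log (by positivity)
          linarith
        have hlog4 : 0 < Real.log (4 * q) := Real.log_pos (by linarith)
        have h13 : 1 / 3 ≤ Real.log 2 / Real.log (4 * q) := by
          rw [div_le_div_iff₀ (by norm_num) hlog4]
          linarith
        have hb : 0 ≤ w z / 3 ^ (j + 1) := by positivity
        calc w z / 3 ^ (j + 1 + 1) = w z / 3 ^ (j + 1) * (1 / 3) := by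
              rw [pow_succ 3 (j + 1)]; field_simp
          _ ≤ _ := mul_le_mul_of_nonneg_left h13 hb
      · rw [mem_closedBall] at hx ⊢
        linarith
  -- choose the number of steps
  have hex : ∃ j : ℕ, r / 8 ≤ q ^ j * (R / 4) := by
    obtain ⟨n, hn⟩ := pow_unbounded_of_one_lt (r / 8 / (R / 4)) hq1
    refine ⟨n, ?_⟩
    rw [div_lt_iff₀ (by positivity)] at hn
    exact hn.le
  classical
  set J := Nat.find hex with hJ
  have hJ1 : r / 8 ≤ q ^ J * (R / 4) := Nat.find_spec hex
  have hJ0 : J ≠ 0 := by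
    intro h0
    rw [h0, pow_zero, one_mul] at hJ1
    linarith
  obtain ⟨J', hJ'⟩ := Nat.exists_eq_succ_of_ne_zero hJ0
  have hJ2 : q ^ J' * (R / 4) < r / 8 := by
    have := Nat.find_min hex (m := J') (by rw [← hJ, hJ']; exact Nat.lt_succ_self _)
    rwa [not_le] at this
  set T : ℝ := q ^ J * (R / 4) with hT
  have hTlt : T < r / 2 := by
    have : T = q * (q ^ J' * (R / 4)) := by rw [hT, hJ', pow_succ]; ring
    rw [this]
    have h0 : 0 < q ^ J' * (R / 4) := by positivity
    nlinarith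
  obtain ⟨w', hw', h⟩ := claim J hTlt
  have hT0 : 0 < T := by linarith
  refine ⟨w', hw', z + (T : ℂ) * ν, ?_, ?_⟩
  · -- core
    rw [hdΩ] at hzΩ
    obtain ⟨q₀, hq₀G, hq₀⟩ := exists_near hne hzΩ
    have hsm := hρ.small' hG z
    have hqζ : dist q₀ ζ < r := by
      have h1 := dist_triangle_left q₀ ζ z
      nlinarith
    have hball := hν.2 q₀ (subset_closure hq₀G) hqζ T hT0 (by linarith)
    refine Subset.trans ?_ hball
    intro x hx
    rw [mem_closedBall] at hx
    rw [mem_ball]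
    have h1 := dist_triangle x (z + (T : ℂ) * ν) (q₀ + (T : ℂ) * ν)
    rw [dist_add_right] at h1
    nlinarith
  · intro x hx hxP
    refine le_trans ?_ (h x ?_ hxP)
    · have h3 : (3:ℝ) ^ J' ≤ (r / (2 * R)) ^ K := by
        calc (3:ℝ) ^ J' ≤ (q ^ K) ^ J' := by gcongr
          _ = (q ^ J') ^ K := by rw [← pow_mul, ← pow_mul, mul_comm]
          _ ≤ (r / (2 * R)) ^ K := by
            gcongr
            rw [le_div_iff₀ (by positivity)]
            linarith
      have h4 : (2 * R / r) ^ K * (r / (2 * R)) ^ K = 1 := by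
        rw [← mul_pow]
        have : 2 * R / r * (r / (2 * R)) = 1 := by field_simp
        rw [this, one_pow]
      have h5 : 0 < (2 * R / r) ^ K := by positivity
      have h6 : (2 * R / r) ^ K * 3 ^ J' ≤ 1 := by
        rw [← h4]; gcongr
      rw [hJ', Nat.succ_eq_add_one]
      rw [le_div_iff₀ (by positivity)]
      have h7 : (3:ℝ) ^ (J' + 1 + 1) = 9 * 3 ^ J' := by ring
      rw [h7]
      calc (2 * R / r) ^ K / 9 * w z * (9 * 3 ^ J') = ((2 * R / r) ^ K * 3 ^ J') * w z := by ring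
        _ ≤ 1 * w z := by gcongr
        _ = w z := one_mul _
    · rw [mem_closedBall] at hx ⊢
      nlinarith

end Pool.Agent.Helper93.LZ
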