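import Pool.Agent.Helper93.LZ.Geo

/-!
The exterior reference set and its distance function.
-/

open Set Metric Filter Topology Complex MeasureTheory Real InnerProductSpace

namespace Pool.Agent.Helper93.LZ

/-- exterior reference set attached to a set `E` of zeros -/
def Est (G E : Set ℂ) (k : ℝ) : Set ℂ := {z | z ∉ G ∧ infDist z E ≤ k * infDist z G}

variable {G E : Set ℂ} {k r κ : ℝ}

lemma isClosed_Est (hG : IsOpen G) : IsClosed (Est G E k) := by
  have h1 : Est G E k = Gᶜ ∩ {z | infDist z E ≤ k * infDist z G} := rfl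
  rw [h1]
  exact hG.isClosed_compl.inter (isClosed_le (continuous_infDist_pt E)
    (continuous_const.mul (continuous_infDist_pt G)))

lemma exists_D0 (hbdd : Bornology.IsBounded G) (hne : G.Nonempty) (hE : E ⊆ closure G)
    (hEne : E.Nonempty) (hk : 2 ≤ k) :
    ∃ D₀ > 0, ∀ z, ∃ e ∈ Est G E k, dist z e ≤ D₀ := by
  obtain ⟨R, hR⟩ := hbdd.closure.subset_closedBall 0
  set R₀ : ℝ := max R 1 with hR₀
  have hR₀pos : 0 < R₀ := lt_of_lt_of_le one_pos (le_max_right _ _)
  have hclos : ∀ x ∈ closure G, ‖x‖ ≤ R₀ := by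
    intro x hx
    have := hR hx
    rw [mem_closedBall_zero_iff] at this
    exact this.trans (le_max_left _ _)
  have hfar : ∀ z : ℂ, 3 * R₀ ≤ ‖z‖ → z ∈ Est G E k := by
    intro z hz
    refine ⟨fun h => ?_, ?_⟩
    · have := hclos z (subset_closure h)
      linarith
    · obtain ⟨e, he⟩ := hEne
      have h1 : infDist z E ≤ ‖z‖ + R₀ := by
        refine (infDist_le_dist_of_mem he).trans ?_
        rw [dist_eq_norm]
        refine (norm_sub_le _ _).trans ?_
        have := hclos e (hE he)
        linarith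
      have h2 : ‖z‖ - R₀ ≤ infDist z G := by
        rw [le_infDist hne]
        intro g hg
        have h3 := hclos g (subset_closure hg)
        have h4 := norm_sub_norm_le z g
        rw [dist_eq_norm]
        linarith
      nlinarith
  refine ⟨3 * R₀, by positivity, fun z => ?_⟩
  by_cases hz : z = 0
  · refine ⟨((3 * R₀ : ℝ) : ℂ), hfar _ ?_, ?_⟩
    · rw [Complex.norm_real, Real.norm_eq_abs, abs_of_pos (by positivity)]
    · rw [hz, dist_zero_left, Complex.norm_real, Real.norm_eq_abs, abs_of_pos (by positivity)]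
  · have hzn : 0 < ‖z‖ := norm_pos_iff.2 hz
    refine ⟨((1 + 3 * R₀ / ‖z‖ : ℝ) : ℂ) * z, hfar _ ?_, ?_⟩
    · rw [norm_mul, Complex.norm_real, Real.norm_eq_abs, abs_of_pos (by positivity)]
      have : (1 + 3 * R₀ / ‖z‖) * ‖z‖ = ‖z‖ + 3 * R₀ := by field_simp
      linarith
    · rw [dist_eq_norm]
      have : z - ((1 + 3 * R₀ / ‖z‖ : ℝ) : ℂ) * z = -(((3 * R₀ / ‖z‖ : ℝ) : ℂ) * z) := by
        push_cast; ring
      rw [this, norm_neg, norm_mul, Complex.norm_real, Real.norm_eq_abs,
        abs_of_pos (by positivity)]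
      have : (3 * R₀ / ‖z‖) * ‖z‖ = 3 * R₀ := by field_simp
      linarith

/-- comparison on the closure of `G` -/
lemma infDist_E_le (hEst : (Est G E k).Nonempty) (hk : 0 ≤ k) {z : ℂ}
    (hz : z ∈ closure G) : infDist z E ≤ (1 + k) * infDist z (Est G E k) := by
  have h1 : (1 + k)⁻¹ * infDist z E ≤ infDist z (Est G E k) := by
    rw [le_infDist hEst]
    intro e he
    have h2 : infDist z E ≤ infDist e E + dist z e := infDist_le_infDist_add_dist
    have h3 : infDist e G ≤ dist z e := by
      rw [← infDist_closure, dist_comm]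
      exact infDist_le_dist_of_mem hz
    rw [inv_mul_le_iff₀ (by linarith)]
    have h4 := he.2
    nlinarith
  rwa [inv_mul_le_iff₀ (by linarith)] at h1

lemma mem_Est_of_frontier (hG : IsOpen G) {z : ℂ} (hz : z ∈ frontier G) (hzE : z ∈ E) :
    z ∈ Est G E k := by
  rw [hG.frontier_eq] at hz
  refine ⟨hz.2, ?_⟩
  rw [infDist_zero_of_mem hzE, ← infDist_closure, infDist_zero_of_mem hz.1, mul_zero]

lemma mem_E_of_mem_Est (hE : IsClosed E) (hEne : E.Nonempty) {z : ℂ} (hz : z ∈ closure G)
    (hzE : z ∈ Est G E k) : z ∈ E := by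
  have h1 := hzE.2
  rw [← infDist_closure (s := G), infDist_zero_of_mem hz, mul_zero] at h1
  rw [hE.mem_iff_infDist_zero hEne]
  exact le_antisymm h1 infDist_nonneg

lemma infDist_Est_pos (hG : IsOpen G) (hEst : (Est G E k).Nonempty) {z : ℂ}
    (hz : z ∉ Est G E k) : 0 < infDist z (Est G E k) :=
  ((isClosed_Est hG).notMem_iff_infDist_pos hEst).1 hz

/-- comparison on the boundary of `G` -/
lemma infDist_Est_le (hG : ConeDom G r κ) (hne : G.Nonempty) (hE : IsCompact E)
    (hEG : E ⊆ closure G) (hEne : E.Nonempty) (hk : 2 / κ ≤ k) {D₀ : ℝ}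
    (hD₀ : ∀ z, ∃ e ∈ Est G E k, dist z e ≤ D₀) {ζ : ℂ} (hζ : ζ ∈ frontier G) :
    infDist ζ (Est G E k) ≤ max 3 (8 * D₀ / r) * infDist ζ E := by
  have hκ := hG.κ_pos
  have hκ1 := hG.κ_le
  have hr := hG.r_pos
  obtain ⟨ν, hν⟩ := hG.cone ζ hζ
  have hζG : ζ ∉ G := by
    rw [hG.isOpen.frontier_eq] at hζ; exact hζ.2
  obtain ⟨a, haE, ha⟩ := hE.exists_infDist_eq_dist hEne ζ
  set s := infDist ζ E with hs
  have hs0 : 0 ≤ s := infDist_nonneg
  have hC : 3 ≤ max 3 (8 * D₀ / r) := le_max_left _ _
  rcases le_or_gt (r / 8) s with hcase | hcase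
  · obtain ⟨e, he, hed⟩ := hD₀ ζ
    have h1 : infDist ζ (Est G E k) ≤ D₀ := (infDist_le_dist_of_mem he).trans hed
    have hD : 0 ≤ D₀ := dist_nonneg.trans hed
    calc infDist ζ (Est G E k) ≤ D₀ := h1
      _ = 8 * D₀ / r * (r / 8) := by field_simp
      _ ≤ max 3 (8 * D₀ / r) * s := by
        gcongr
        exact le_max_right _ _
  · by_cases haG : a ∈ G
    · -- nearest exterior point
      obtain ⟨b, hbG, hb⟩ := hG.isOpen.isClosed_compl.exists_infDist_eq_dist ⟨ζ, hζG⟩ a
      set δ := infDist a Gᶜ with hδ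
      have hδpos : 0 < δ := by
        rw [hδ, ← hG.isOpen.isClosed_compl.notMem_iff_infDist_pos ⟨ζ, hζG⟩]
        simpa using haG
      have hδs : δ ≤ s := by
        rw [hδ, ha, dist_comm]
        exact infDist_le_dist_of_mem hζG
      have hζb : dist ζ b ≤ 2 * s := by
        have := dist_triangle ζ a b
        linarith
      have hbζ : dist b ζ < r / 4 := by rw [dist_comm]; linarith
      set e := b - (δ : ℂ) * ν with he
      have heb : dist e b = δ := by
        rw [he, dist_eq_norm, sub_sub_cancel_left, norm_neg, norm_mul, hν.1, Complex.norm_real,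
          Real.norm_eq_abs, abs_of_pos hδpos, mul_one]
      have h1 := ext_infDist hG hne hν hbG hbζ hδpos (by linarith) e
      rw [← he, dist_self, sub_zero] at h1
      have heG : e ∉ G := by
        intro h
        rw [infDist_zero_of_mem h] at h1
        have : 0 < κ * δ := by positivity
        linarith
      have heE : infDist e E ≤ k * infDist e G := by
        have h2 : infDist e E ≤ 2 * δ := by
          refine (infDist_le_dist_of_mem haE).trans ?_
          have := dist_triangle e b a
          rw [heb, dist_comm b a, ← hb] at this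
          linarith
        have h3 : 2 * δ = 2 / κ * (κ * δ) := by field_simp
        have h4 : (0:ℝ) < 2 / κ := by positivity
        calc infDist e E ≤ 2 / κ * (κ * δ) := by rw [← h3]; exact h2
          _ ≤ k * infDist e G := mul_le_mul hk h1 (by positivity) (h4.le.trans hk)
      have h5 : infDist ζ (Est G E k) ≤ dist ζ e := infDist_le_dist_of_mem ⟨heG, heE⟩
      have h6 : dist ζ e ≤ 3 * s := by
        have := dist_triangle ζ b e
        rw [dist_comm b e, heb] at this
        linarith
      nlinarith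
    · have haf : a ∈ frontier G := by
        rw [hG.isOpen.frontier_eq]; exact ⟨hEG haE, haG⟩
      have h1 : infDist ζ (Est G E k) ≤ dist ζ a :=
        infDist_le_dist_of_mem (mem_Est_of_frontier hG.isOpen haf haE)
      rw [← ha] at h1
      nlinarith

end Pool.Agent.Helper93.LZ
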