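import Pool.Agent.Helper93.LZ.Carleson
import Pool.Agent.Helper93.LZ.Est

/-!
Comparison of the family with powers of a given function.
-/

open Set Metric Filter Topology Complex MeasureTheory Real InnerProductSpace

namespace Pool.Agent.Helper93.LZ

lemma MaxProp.of_exp {X v : ℂ → ℝ} {z : ℂ} (hv : SubMeanAt v z)
    (he : X =ᶠ[𝓝 z] fun x => Real.exp (v x)) : MaxProp X z := by
  have h1 := hv.maxProp
  have hU : {x | X x = Real.exp (v x)} ∈ 𝓝 z := he
  filter_upwards [h1, eventually_small hU, self_mem_nhdsWithin] with r hr hs hr0 hle ξ hξ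
  have hr0' : (0:ℝ) < r := hr0
  have hz : X z = Real.exp (v z) := hs (mem_closedBall_self hr0'.le)
  have hsp : ∀ x ∈ sphere z r, X x = Real.exp (v x) := fun x hx => hs (sphere_subset_closedBall hx)
  have h2 := hr (fun x hx => by
    have := hle x hx
    rw [hz, hsp x hx] at this
    exact Real.exp_le_exp.1 this) ξ hξ
  rw [hsp ξ hξ, hz, h2]

/-- comparison with a power of an analytic function -/
theorem compare {G : Set ℂ} (hGo : IsOpen G) (hbdd : Bornology.IsBounded G) {F : ℂ → ℂ}
    (hFc : ContinuousOn F (closure G)) (hFd : DifferentiableOn ℂ F G) {d : Data}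
    (hGd : G ⊆ d.Ω) (hPG : ∀ a ∈ d.P, a ∈ G) (hPF : ∀ a ∈ d.P, F a = 0) {N : ℕ} (hN : 2 ≤ N)
    {w : ℂ → ℝ} (hw : Fam d w) {B : ℝ} (hB : 0 ≤ B)
    (hbd : ∀ ζ ∈ frontier G, F ζ ≠ 0 → Real.exp (w ζ) * ‖F ζ‖ ^ N ≤ B) :
    ∀ z ∈ closure G, z ∉ d.P → Real.exp (w z) * ‖F z‖ ^ N ≤ B := by
  classical
  set X : ℂ → ℝ := fun z => if z ∈ d.P then 0 else Real.exp (w z) * ‖F z‖ ^ N with hX
  have hXn : ∀ z, z ∉ d.P → X z = Real.exp (w z) * ‖F z‖ ^ N := fun z hz => by
    simp only [hX, if_neg hz]
  have hX0 : ∀ z, z ∈ d.P → X z = 0 := fun z hz => by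
    simp only [hX, if_pos hz]
  have hcl : closure G ⊆ closure d.Ω := closure_mono hGd
  have hPclosed : IsClosed (d.P : Set ℂ) := d.P.finite_toSet.isClosed
  have hcont : ContinuousOn X (closure G) := by
    intro z hz
    by_cases hzP : z ∈ d.P
    · -- a pole
      have hzG := hPG z hzP
      rw [ContinuousWithinAt, hX0 z hzP]
      suffices h : Tendsto X (𝓝 z) (𝓝 0) from h.mono_left nhdsWithin_le_nhds
      have hFz := hPF z hzP
      have hO : (fun x => F x - F z) =O[𝓝 z] fun x => x - z :=
        (hFd.differentiableAt (hGo.mem_nhds hzG)).isBigO_sub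
      obtain ⟨L, hL⟩ := hO.bound
      obtain ⟨C, hC⟩ := hw.growth
      have h3 : ContinuousAt (Tp (d.P.erase z) d.D) z :=
        (Tp_harmonicAt d.hD (by simp)).1.continuousAt
      have h4 : ∀ᶠ x in 𝓝 z, Tp (d.P.erase z) d.D x < Tp (d.P.erase z) d.D z + 1 :=
        h3.eventually (gt_mem_nhds (by linarith))
      have h5 : d.Ω \ (d.P.erase z : Finset ℂ) ∈ 𝓝 z := by
        apply (d.hΩ.sdiff (d.P.erase z).finite_toSet.isClosed).mem_nhds
        exact ⟨hGd hzG, by simp⟩
      set C2 := Real.exp (C + (Tp (d.P.erase z) d.D z + 1)) * d.D * (max L 1) ^ N with hC2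
      have hbound : ∀ᶠ x in 𝓝 z, X x ≤ C2 * ‖x - z‖ := by
        have h6 : ball z 1 ∈ 𝓝 z := isOpen_ball.mem_nhds (mem_ball_self one_pos)
        filter_upwards [hL, h4, h5, h6] with x hx1 hx2 hx3 hx4
        by_cases hxz : x = z
        · rw [hxz, hX0 z hzP]; simp
        have hxP : x ∉ d.P := by
          intro h
          exact hx3.2 (by simp only [Finset.coe_erase, Set.mem_sdiff, Finset.mem_coe,
            mem_singleton_iff]; exact ⟨h, hxz⟩)
        rw [hXn x hxP]
        have hpos : 0 < ‖x - z‖ := norm_pos_iff.2 (sub_ne_zero.2 hxz)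
        have hle1 : ‖x - z‖ ≤ 1 := by
          rw [mem_ball, dist_eq_norm] at hx4; exact hx4.le
        have h7 := hC x hx3.1 hxP
        have h8 : Tp d.P d.D x = Real.log (d.D / ‖x - z‖) + Tp (d.P.erase z) d.D x := by
          rw [Tp, ← Finset.add_sum_erase _ _ hzP]; rfl
        have h9 : Real.exp (w x) ≤ Real.exp (C + (Tp (d.P.erase z) d.D z + 1)) * (d.D / ‖x - z‖) := by
          calc Real.exp (w x) ≤ Real.exp ((C + (Tp (d.P.erase z) d.D z + 1)) +
                Real.log (d.D / ‖x - z‖)) := by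
                apply Real.exp_le_exp.2; linarith
            _ = _ := by
              rw [Real.exp_add, Real.exp_log]
              exact div_pos d.hD hpos
        have h10 : ‖F x‖ ≤ max L 1 * ‖x - z‖ := by
          rw [hFz, sub_zero] at hx1
          refine hx1.trans ?_
          gcongr
          exact le_max_left _ _
        have h11 : ‖F x‖ ^ N ≤ (max L 1) ^ N * ‖x - z‖ ^ 2 := by
          calc ‖F x‖ ^ N ≤ (max L 1 * ‖x - z‖) ^ N := by gcongr
            _ = (max L 1) ^ N * ‖x - z‖ ^ N := mul_pow _ _ _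
            _ ≤ (max L 1) ^ N * ‖x - z‖ ^ 2 := by
              have : ‖x - z‖ ^ N ≤ ‖x - z‖ ^ 2 := pow_le_pow_of_le_one hpos.le hle1 hN
              gcongr
        calc Real.exp (w x) * ‖F x‖ ^ N
            ≤ (Real.exp (C + (Tp (d.P.erase z) d.D z + 1)) * (d.D / ‖x - z‖)) *
              ((max L 1) ^ N * ‖x - z‖ ^ 2) := by
              have := d.hD
              gcongr
          _ = C2 * ‖x - z‖ := by
            rw [hC2]; field_simp
      have hlim : Tendsto (fun x => C2 * ‖x - z‖) (𝓝 z) (𝓝 0) := by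
        have : Continuous (fun x => C2 * ‖x - z‖) := by fun_prop
        have h := this.tendsto z
        simpa using h
      refine tendsto_of_tendsto_of_tendsto_of_le_of_le' tendsto_const_nhds hlim ?_ hbound
      filter_upwards with x
      by_cases hxP : x ∈ d.P
      · rw [hX0 x hxP]
      · rw [hXn x hxP]; positivity
    · have hev : {x | x ∉ d.P} ∈ 𝓝 z := hPclosed.isOpen_compl.mem_nhds hzP
      have h1 : ContinuousWithinAt (fun z => Real.exp (w z) * ‖F z‖ ^ N) (closure G) z := by
        apply ContinuousWithinAt.mul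
        · apply ContinuousWithinAt.rexp
          have h2 := hw.cont z ⟨hcl hz, hzP⟩
          have h3 : closure d.Ω \ d.P ∈ 𝓝[closure G] z := by
            filter_upwards [self_mem_nhdsWithin, mem_nhdsWithin_of_mem_nhds hev] with x hx hx2
            exact ⟨hcl hx, hx2⟩
          exact h2.mono_of_mem_nhdsWithin h3
        · exact ((hFc z hz).norm).pow N
      refine h1.congr_of_eventuallyEq ?_ (hXn z hzP)
      filter_upwards [mem_nhdsWithin_of_mem_nhds hev] with x hx
      exact hXn x hx
  have key := max_principle (K := closure G) (Ω := G) hbdd.isCompact_closure hGo hcont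
    (B := B) subset_closure ?_ ?_
  · intro z hz hzP
    have := key z hz
    rwa [hXn z hzP] at this
  · intro z hz
    by_cases hzP : z ∈ d.P
    · rw [hX0 z hzP]; exact hB
    · rw [hXn z hzP]
      by_cases hF0 : F z = 0
      · rw [hF0, norm_zero, zero_pow (by omega), mul_zero]; exact hB
      · exact hbd z (by rw [hGo.frontier_eq]; exact hz) hF0
  · intro z hz hBz
    have hzP : z ∉ d.P := by
      intro h
      rw [hX0 z h] at hBz
      linarith
    have hF0 : F z ≠ 0 := by
      intro h
      rw [hXn z hzP, h, norm_zero, zero_pow (by omega), mul_zero] at hBz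
      linarith
    have hFan : AnalyticAt ℂ F z := hFd.analyticAt (hGo.mem_nhds hz)
    have hharm : HarmonicAt (fun x => Real.log ‖F x‖) z := hFan.harmonicAt_log_norm hF0
    have hsub : SubMeanAt (fun x => w x + N * Real.log ‖F x‖) z :=
      (hw.sub z (hGd hz) hzP).add ((subMeanAt_of_harmonicAt hharm).const_mul (Nat.cast_nonneg N))
    apply MaxProp.of_exp hsub
    have hev1 : {x | x ∉ d.P} ∈ 𝓝 z := hPclosed.isOpen_compl.mem_nhds hzP
    have hev2 : ∀ᶠ x in 𝓝 z, F x ≠ 0 := hFan.continuousAt.eventually_ne hF0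
    filter_upwards [hev1, hev2] with x hx1 hx2
    rw [hXn x hx1, Real.exp_add]
    congr 1
    rw [← Real.log_pow, Real.exp_log]
    have : 0 < ‖F x‖ := norm_pos_iff.2 hx2
    positivity

end Pool.Agent.Helper93.LZ
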