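import Pool.Agent.Helper93.LZ.Geo

/-!
Local harmonic conjugates.
-/

open Set Metric Filter Topology Complex MeasureTheory Real InnerProductSpace

namespace Pool.Agent.Helper93.LZ

/-- complex gradient -/
noncomputable def F1 (H : ℂ → ℝ) (z : ℂ) : ℂ := fderiv ℝ H z 1 - I * fderiv ℝ H z I

lemma fderiv_apply_eq (H : ℂ → ℝ) (z v : ℂ) : fderiv ℝ H z v = (F1 H z * v).re := by
  have hv : v = v.re • (1:ℂ) + v.im • I := by
    apply Complex.ext <;> simp
  conv_lhs => rw [hv, map_add, map_smul, map_smul]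
  simp [F1]
  ring

lemma F1_differentiableOn {Ω : Set ℂ} {H : ℂ → ℝ} (hH : HarmonicOnNhd H Ω) :
    DifferentiableOn ℂ (F1 H) Ω := fun z hz =>
  (HarmonicAt.differentiableAt_complex_partial (hH z hz)).differentiableWithinAt

lemma diff_param {Ω : Set ℂ} (hΩ : IsOpen Ω) {f : ℂ → ℂ} (hf : DifferentiableOn ℂ f Ω) {z ν : ℂ}
    {T : ℝ} (hT : 0 ≤ T) (hseg : ∀ t ∈ Icc (0:ℝ) T, z + t * ν ∈ Ω) :
    DifferentiableAt ℂ (fun x => ∫ t in (0:ℝ)..T, f (x + t * ν)) z := by
  set K : Set ℂ := (fun t : ℝ => z + t * ν) '' Icc (0:ℝ) T with hK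
  have hKc : IsCompact K := isCompact_Icc.image (by fun_prop)
  have hKΩ : K ⊆ Ω := by
    rintro _ ⟨t, ht, rfl⟩
    exact hseg t ht
  obtain ⟨δ, hδ, hδΩ⟩ := hKc.exists_cthickening_subset_open hΩ hKΩ
  have hK' : IsCompact (cthickening δ K) := hKc.cthickening
  have hdc : ContinuousOn (deriv f) Ω := (hf.deriv hΩ).continuousOn
  obtain ⟨C, hC⟩ := hK'.exists_bound_of_continuousOn (hdc.mono hδΩ)
  have hmem : ∀ x ∈ ball z δ, ∀ t ∈ Icc (0:ℝ) T, x + t * ν ∈ cthickening δ K := by
    intro x hx t ht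
    apply mem_cthickening_of_dist_le _ (z + t * ν) δ K ⟨t, ht, rfl⟩
    rw [dist_add_right]
    exact (mem_ball.1 hx).le
  have hcont : ∀ x ∈ ball z δ, ContinuousOn (fun t : ℝ => f (x + t * ν)) (Icc 0 T) := by
    intro x hx
    apply hf.continuousOn.comp (by fun_prop)
    intro t ht
    exact hδΩ (hmem x hx t ht)
  have hcont' : ∀ x ∈ ball z δ, ContinuousOn (fun t : ℝ => deriv f (x + t * ν)) (Icc 0 T) := by
    intro x hx
    apply hdc.comp (by fun_prop)
    intro t ht
    exact hδΩ (hmem x hx t ht)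
  have hz : z ∈ ball z δ := mem_ball_self hδ
  refine (intervalIntegral.hasDerivAt_integral_of_dominated_loc_of_deriv_le
    (F' := fun x t => deriv f (x + t * ν)) (bound := fun _ => C) (ball_mem_nhds z hδ)
    ?_ ?_ ?_ ?_ ?_ ?_).2.differentiableAt
  · filter_upwards [ball_mem_nhds z hδ] with x hx
    have h1 := (hcont x hx).mono (Ioc_subset_Icc_self)
    rw [uIoc_of_le hT]
    exact h1.aestronglyMeasurable measurableSet_Ioc
  · apply ContinuousOn.intervalIntegrable
    rw [uIcc_of_le hT]
    exact hcont z hz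
  · have h1 := (hcont' z hz).mono (Ioc_subset_Icc_self)
    rw [uIoc_of_le hT]
    exact h1.aestronglyMeasurable measurableSet_Ioc
  · filter_upwards with t ht x hx
    rw [uIoc_of_le hT] at ht
    exact hC _ (hmem x hx t (Ioc_subset_Icc_self ht))
  · exact intervalIntegrable_const
  · filter_upwards with t ht x hx
    rw [uIoc_of_le hT] at ht
    have h1 : x + t * ν ∈ Ω := hδΩ (hmem x hx t (Ioc_subset_Icc_self ht))
    have h2 := (hf.differentiableAt (hΩ.mem_nhds h1)).hasDerivAt
    have h3 : HasDerivAt (fun x : ℂ => x + t * ν) 1 x := (hasDerivAt_id x).add_const _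
    have h4 := h2.comp x h3
    rw [mul_one] at h4
    exact h4

theorem conj_local {Ω : Set ℂ} (hΩ : IsOpen Ω) {H : ℂ → ℝ} (hH : HarmonicOnNhd H Ω) {c ν : ℂ}
    {s T : ℝ} (hT : 0 ≤ T) (h1 : ∀ z ∈ ball c s, z ∈ Ω → ∀ t ∈ Icc (0:ℝ) T, z + t * ν ∈ Ω)
    (h2 : ball (c + T * ν) s ⊆ Ω) :
    ∃ h : ℂ → ℂ, ∀ z ∈ ball c s, z ∈ Ω → DifferentiableAt ℂ h z ∧ (h z).re = H z := by
  obtain ⟨F, hF, hFre⟩ := HarmonicOnNhd.exists_analyticOnNhd_ball_re_eq
    (show HarmonicOnNhd H (ball (c + T * ν) s) from fun z hz => hH z (h2 hz))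
  refine ⟨fun z => F (z + T * ν) - ν * ∫ t in (0:ℝ)..T, F1 H (z + t * ν), fun z hz hzΩ => ?_⟩
  have hzT : z + T * ν ∈ ball (c + T * ν) s := by
    rw [mem_ball, dist_add_right]; exact hz
  have hseg := h1 z hz hzΩ
  constructor
  · apply DifferentiableAt.sub
    · have h3 := (hF _ hzT).differentiableAt
      have h4 : DifferentiableAt ℂ (fun x : ℂ => x + T * ν) z := by fun_prop
      exact DifferentiableAt.comp z h3 h4
    · exact (diff_param hΩ (F1_differentiableOn hH) hT hseg).const_mul ν
  · have hder : ∀ t ∈ Icc (0:ℝ) T, HasDerivAt (fun t : ℝ => H (z + t * ν))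
        ((F1 H (z + t * ν) * ν).re) t := by
      intro t ht
      have h3 : HasDerivAt (fun t : ℝ => z + t * ν) ν t := by
        simpa using ((Complex.ofRealCLM.hasDerivAt (x := t)).mul_const ν).const_add z
      have h4 : DifferentiableAt ℝ H (z + t * ν) :=
        (hH _ (hseg t ht)).1.differentiableAt (by norm_num)
      have h5 := h4.hasFDerivAt.comp_hasDerivAt t h3
      rw [← fderiv_apply_eq]
      exact h5
    have hc1 : ContinuousOn (fun t : ℝ => F1 H (z + t * ν)) (Icc 0 T) := by
      apply (F1_differentiableOn hH).continuousOn.comp (by fun_prop)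
      intro t ht
      exact hseg t ht
    have hc2 : ContinuousOn (fun t : ℝ => (F1 H (z + t * ν) * ν).re) (Icc 0 T) :=
      Complex.continuous_re.comp_continuousOn (hc1.mul continuousOn_const)
    have hftc : ∫ t in (0:ℝ)..T, (F1 H (z + t * ν) * ν).re = H (z + T * ν) - H z := by
      have h3 := intervalIntegral.integral_eq_sub_of_hasDerivAt
        (f := fun t : ℝ => H (z + t * ν)) (f' := fun t : ℝ => (F1 H (z + t * ν) * ν).re)
        (a := 0) (b := T) (by
          intro t ht
          rw [uIcc_of_le hT] at ht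
          exact hder t ht) (by
          apply ContinuousOn.intervalIntegrable
          rw [uIcc_of_le hT]
          exact hc2)
      rw [h3]
      simp
    have hre : (ν * ∫ t in (0:ℝ)..T, F1 H (z + t * ν)).re =
        ∫ t in (0:ℝ)..T, (F1 H (z + t * ν) * ν).re := by
      rw [mul_comm, ← intervalIntegral.integral_mul_const]
      have hint : IntervalIntegrable (fun t : ℝ => F1 H (z + t * ν) * ν) volume 0 T := by
        apply ContinuousOn.intervalIntegrable
        rw [uIcc_of_le hT]
        exact hc1.mul continuousOn_const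
      exact (Complex.reCLM.intervalIntegral_comp_comm hint).symm
    rw [Complex.sub_re, hre, hftc]
    have h6 : (F (z + T * ν)).re = H (z + T * ν) := hFre hzT
    rw [h6]
    ring

/-- two local conjugates differ by a constant along segments -/
lemma conj_const {U : Set ℂ} (hU : IsOpen U) {H : ℂ → ℝ} {h h' : ℂ → ℂ}
    (hh : ∀ z ∈ U, DifferentiableAt ℂ h z ∧ (h z).re = H z)
    (hh' : ∀ z ∈ U, DifferentiableAt ℂ h' z ∧ (h' z).re = H z) {x y : ℂ}
    (hseg : segment ℝ x y ⊆ U) : h x - h' x = h y - h' y := by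
  set f : ℂ → ℂ := fun z => h z - h' z with hf
  have hfd : DifferentiableOn ℂ f U := fun z hz =>
    ((hh z hz).1.sub (hh' z hz).1).differentiableWithinAt
  have hfre : ∀ z ∈ U, (f z).re = 0 := by
    intro z hz
    rw [hf, Complex.sub_re, (hh z hz).2, (hh' z hz).2, sub_self]
  have hderiv : ∀ z ∈ U, HasDerivAt f 0 z := by
    intro z hz
    have h1 := (hfd.differentiableAt (hU.mem_nhds hz)).hasDerivAt
    have h0 : deriv f z = 0 := by
      -- the real part is locally constant
      have h2 : HasFDerivAt (fun x => (f x).re)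
          (Complex.reCLM.comp ((ContinuousLinearMap.toSpanSingleton ℂ (deriv f z)).restrictScalars ℝ)) z := by
        exact Complex.reCLM.hasFDerivAt.comp z (h1.hasFDerivAt.restrictScalars ℝ)
      have h3 : HasFDerivAt (fun x => (f x).re) (0 : ℂ →L[ℝ] ℝ) z := by
        apply (hasFDerivAt_const (0:ℝ) z).congr_of_eventuallyEq
        filter_upwards [hU.mem_nhds hz] with x hx using hfre x hx
      have h4 := h2.unique h3
      have h5 : (deriv f z).re = 0 := by
        have := congrArg (fun L : ℂ →L[ℝ] ℝ => L 1) h4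
        simpa using this
      have h6 : (deriv f z).im = 0 := by
        have := congrArg (fun L : ℂ →L[ℝ] ℝ => L I) h4
        simpa using this
      exact Complex.ext h5 h6
    rw [h0] at h1
    exact h1
  have := (convex_segment x y).norm_image_sub_le_of_norm_hasDerivWithin_le (𝕜 := ℂ) (f := f)
    (f' := fun _ => 0) (C := 0) (fun z hz => (hderiv z (hseg hz)).hasDerivWithinAt)
    (fun z _ => by simp) (left_mem_segment ℝ x y) (right_mem_segment ℝ x y)
  rw [zero_mul, norm_le_zero_iff, sub_eq_zero] at this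
  exact this.symm

end Pool.Agent.Helper93.LZ
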