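import Pool.Agent.Helper93.LZ.Dbar

/-!
The Cousin problem with bounds for constant cocycles on a finite cover.
-/

open Set Metric Filter Topology Complex MeasureTheory Real
open scoped ContDiff Manifold

namespace Pool.Agent.Helper93.LZ

/-- real cocycles of a cover of `Ω` by sets `U i` -/
def IsCoc {ι : Type} (Ω : Set ℂ) (U : ι → Set ℂ) (τ : ι → ι → ℝ) : Prop :=
  ∀ i j l, (∃ z ∈ Ω, z ∈ U i ∧ z ∈ U j ∧ z ∈ U l) → τ i j + τ j l = τ i l

lemma exists_pu {ι : Type} [Fintype ι] {Ω : Set ℂ} (U : ι → Set ℂ)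
    (hU : ∀ i, IsOpen (U i)) (hcov : closure Ω ⊆ ⋃ i, U i) :
    ∃ χ : ι → ℂ → ℝ, (∀ i, ContDiff ℝ ∞ (χ i)) ∧ (∀ i, tsupport (χ i) ⊆ U i) ∧
      (∀ i z, 0 ≤ χ i z ∧ χ i z ≤ 1) ∧ (∀ z ∈ closure Ω, ∑ i, χ i z = 1) := by
  obtain ⟨f, hf⟩ := SmoothPartitionOfUnity.exists_isSubordinate 𝓘(ℝ, ℂ) isClosed_closure U hU hcov
  refine ⟨fun i => f i, fun i => ?_, fun i => hf i, fun i z => ⟨f.nonneg i z, f.le_one i z⟩, ?_⟩
  · exact contMDiff_iff_contDiff.1 (f i).contMDiff
  · intro z hz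
    have := f.sum_eq_one hz
    rwa [finsum_eq_sum_of_fintype] at this

section

variable {ι : Type} [Fintype ι] {Ω : Set ℂ} {U : ι → Set ℂ}

omit [Fintype ι] in
lemma db_sum {s : Finset ι} {f : ι → ℂ → ℂ} {a : ι → ℂ} {z : ℂ}
    (hf : ∀ i, DifferentiableAt ℝ (f i) z) :
    db (fun x => ∑ i ∈ s, a i * f i x) z = ∑ i ∈ s, a i * db (f i) z := by
  have h1 : HasFDerivAt (fun x => ∑ i ∈ s, a i * f i x) (∑ i ∈ s, a i • fderiv ℝ (f i) z) z := by
    apply HasFDerivAt.fun_sum
    intro i _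
    exact (hf i).hasFDerivAt.const_mul (a i)
  rw [db, h1.fderiv]
  simp only [db, sum_apply, smul_apply, smul_eq_mul]
  rw [Finset.mul_sum, ← Finset.sum_add_distrib]
  apply Finset.sum_congr rfl
  intro i _
  ring

theorem cousin_additive (hΩo : IsOpen Ω) (hU : ∀ i, IsOpen (U i))
    (hUb : ∀ i, Bornology.IsBounded (U i)) (hcov : closure Ω ⊆ ⋃ i, U i) :
    ∃ C > 0, ∀ τ : ι → ι → ℝ, IsCoc Ω U τ → ∀ A, (∀ i j, |τ i j| ≤ A) →
      ∃ q : ι → ℂ → ℂ, (∀ i, ∀ z ∈ Ω, z ∈ U i → DifferentiableAt ℂ (q i) z) ∧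
        (∀ i, ∀ z ∈ Ω, z ∈ U i → ‖q i z‖ ≤ C * A) ∧
        (∀ i j, ∀ z ∈ Ω, z ∈ U i → z ∈ U j → q i z - q j z = I * τ i j) := by
  classical
  obtain ⟨χ, hχs, hχt, hχb, hχ1⟩ := exists_pu U hU hcov
  -- complex valued versions
  set χc : ι → ℂ → ℂ := fun i z => (χ i z : ℂ) with hχc
  have hχcs : ∀ i, ContDiff ℝ ∞ (χc i) := fun i => Complex.ofRealCLM.contDiff.comp (hχs i)
  have hχcd : ∀ i z, DifferentiableAt ℝ (χc i) z := fun i z =>
    ((hχcs i).differentiable (by simp)) z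
  have hdbs : ∀ i, ContDiff ℝ 1 (db (χc i)) := by
    intro i
    have h1 : ContDiff ℝ 1 (fderiv ℝ (χc i)) := (hχcs i).fderiv_right (by norm_cast)
    exact (h1.clm_apply contDiff_const).add (contDiff_const.mul (h1.clm_apply contDiff_const))
  have hsupp : ∀ i z, z ∉ U i → χc i z = 0 ∧ db (χc i) z = 0 := by
    intro i z hz
    have h1 : z ∉ tsupport (χ i) := fun h => hz (hχt i h)
    have h2 : χc i =ᶠ[𝓝 z] 0 := by
      filter_upwards [(isClosed_tsupport (χ i)).isOpen_compl.mem_nhds h1] with x hx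
      simp only [hχc, image_eq_zero_of_notMem_tsupport hx]
      simp
    refine ⟨h2.eq_of_nhds, ?_⟩
    rw [db, h2.fderiv_eq]
    simp
  -- a big ball
  obtain ⟨R, hR⟩ : ∃ R, ∀ i, U i ⊆ ball (0:ℂ) R := by
    have : Bornology.IsBounded (⋃ i, U i) := Bornology.isBounded_iUnion.2 hUb
    obtain ⟨R, hR⟩ := this.subset_ball 0
    exact ⟨R, fun i => (subset_iUnion U i).trans hR⟩
  -- bounds of the derivatives
  have hDb : ∀ i, ∃ D, ∀ z, ‖db (χc i) z‖ ≤ D := by
    intro i
    obtain ⟨D, hD⟩ := (isCompact_closedBall (0:ℂ) R).exists_bound_of_continuousOn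
      (hdbs i).continuous.continuousOn
    refine ⟨max D 0, fun z => ?_⟩
    by_cases hz : z ∈ closedBall (0:ℂ) R
    · exact (hD z hz).trans (le_max_left _ _)
    · rw [(hsupp i z fun h => hz (ball_subset_closedBall (hR i h))).2, norm_zero]
      exact le_max_right _ _
  choose D hD using hDb
  have hD0 : ∀ i, 0 ≤ D i := fun i => (norm_nonneg _).trans (hD i 0)
  obtain ⟨C₂, hC₂, hdbar⟩ := exists_dbar R
  set C₁ : ℝ := (Fintype.card ι) * ∑ l, D l with hC₁
  have hC₁0 : 0 ≤ C₁ := mul_nonneg (Nat.cast_nonneg _) (Finset.sum_nonneg fun l _ => hD0 l)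
  refine ⟨Fintype.card ι + C₂ * C₁ + 1, by positivity, ?_⟩
  intro τ hτ A hA
  have hA0 : IsEmpty ι ∨ 0 ≤ A := by
    rcases isEmpty_or_nonempty ι with h | ⟨⟨i⟩⟩
    · exact Or.inl h
    · exact Or.inr ((abs_nonneg _).trans (hA i i))
  rcases hA0 with hemp | hA0
  · exact ⟨fun i => isEmptyElim i, fun i => isEmptyElim i, fun i => isEmptyElim i,
      fun i => isEmptyElim i⟩
  set om : ℂ → ℂ := fun z => ∑ i, χc i z * (I * ∑ l, (τ i l : ℂ) * db (χc l) z) with hom
  have homs : ContDiff ℝ 1 om := by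
    apply ContDiff.sum
    intro i _
    apply ((hχcs i).of_le (by norm_cast)).mul
    apply contDiff_const.mul
    apply ContDiff.sum
    intro l _
    exact contDiff_const.mul (hdbs l)
  have hom0 : ∀ z ∉ ball (0:ℂ) R, om z = 0 := by
    intro z hz
    apply Finset.sum_eq_zero
    intro i _
    rw [(hsupp i z fun h => hz (hR i h)).1, zero_mul]
  have homb : ∀ z, ‖om z‖ ≤ C₁ * A := by
    intro z
    calc ‖om z‖ ≤ ∑ i, ‖χc i z * (I * ∑ l, (τ i l : ℂ) * db (χc l) z)‖ := norm_sum_le _ _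
      _ ≤ ∑ i : ι, (∑ l, D l) * A := by
        apply Finset.sum_le_sum
        intro i _
        rw [norm_mul, norm_mul, Complex.norm_I, one_mul]
        have h1 : ‖χc i z‖ ≤ 1 := by
          simp only [hχc, Complex.norm_real, Real.norm_eq_abs]
          rw [abs_of_nonneg (hχb i z).1]
          exact (hχb i z).2
        have h2 : ‖∑ l, (τ i l : ℂ) * db (χc l) z‖ ≤ (∑ l, D l) * A := by
          refine (norm_sum_le _ _).trans ?_
          rw [Finset.sum_mul]
          apply Finset.sum_le_sum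
          intro l _
          rw [norm_mul, Complex.norm_real, Real.norm_eq_abs, mul_comm]
          exact mul_le_mul (hD l z) (hA i l) (abs_nonneg _) (hD0 l)
        calc ‖χc i z‖ * ‖∑ l, (τ i l : ℂ) * db (χc l) z‖ ≤ 1 * ((∑ l, D l) * A) :=
              mul_le_mul h1 h2 (norm_nonneg _) zero_le_one
          _ = _ := one_mul _
      _ = C₁ * A := by
        rw [Finset.sum_const, nsmul_eq_mul, hC₁, Finset.card_univ]; ring
  obtain ⟨b, hbd, hbom, hbb⟩ := hdbar om homs hom0 (C₁ * A) homb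
  set Q : ι → ℂ → ℂ := fun i z => I * ∑ l, (τ i l : ℂ) * χc l z with hQ
  have hQ' : ∀ i, Q i = fun z => ∑ l, (I * (τ i l : ℂ)) * χc l z := by
    intro i; ext z
    simp only [hQ, Finset.mul_sum, mul_assoc]
  have hQd : ∀ i z, DifferentiableAt ℝ (Q i) z := by
    intro i z
    rw [hQ']
    apply DifferentiableAt.fun_sum
    intro l _
    exact (hχcd l z).const_mul _
  have hQdb : ∀ i z, db (Q i) z = I * ∑ l, (τ i l : ℂ) * db (χc l) z := by
    intro i z
    rw [hQ', db_sum (fun l => hχcd l z), Finset.mul_sum]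
    simp only [mul_assoc]
  -- sum of the derivatives of the partition vanishes on Ω
  have hsum0 : ∀ z ∈ Ω, ∑ l, db (χc l) z = 0 := by
    intro z hz
    have h1 : ∑ l, db (χc l) z = db (fun x => ∑ l, (1:ℂ) * χc l x) z := by
      rw [db_sum (fun l => hχcd l z)]; simp
    rw [h1]
    have h2 : (fun x => ∑ l, (1:ℂ) * χc l x) =ᶠ[𝓝 z] fun _ => 1 := by
      filter_upwards [hΩo.mem_nhds hz] with x hx
      simp only [hχc, one_mul]
      have := hχ1 x (subset_closure hx)
      exact_mod_cast this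
    rw [db, h2.fderiv_eq]
    simp
  have homQ : ∀ i, ∀ z ∈ Ω, z ∈ U i → om z = db (Q i) z := by
    intro i z hz hzi
    have h1 : om z = ∑ j, χc j z * db (Q i) z := by
      simp only [hom]
      apply Finset.sum_congr rfl
      intro j _
      by_cases hzj : z ∈ U j
      · congr 1
        rw [hQdb]
        congr 1
        -- difference
        have h2 : ∑ l, (τ j l : ℂ) * db (χc l) z - ∑ l, (τ i l : ℂ) * db (χc l) z = 0 := by
          rw [← Finset.sum_sub_distrib]
          have h3 : ∀ l ∈ Finset.univ, (τ j l : ℂ) * db (χc l) z - (τ i l : ℂ) * db (χc l) z =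
              (τ j i : ℂ) * db (χc l) z := by
            intro l _
            by_cases hzl : z ∈ U l
            · have h4 := hτ j i l ⟨z, hz, hzj, hzi, hzl⟩
              rw [← h4]
              push_cast
              ring
            · rw [(hsupp l z hzl).2]; ring
          rw [Finset.sum_congr rfl h3, ← Finset.mul_sum, hsum0 z hz, mul_zero]
        exact sub_eq_zero.1 h2
      · rw [(hsupp j z hzj).1, zero_mul, zero_mul]
    rw [h1, ← Finset.sum_mul]
    have h2 : ∑ j, χc j z = 1 := by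
      have := hχ1 z (subset_closure hz)
      simp only [hχc]
      exact_mod_cast this
    rw [h2, one_mul]
  refine ⟨fun i z => Q i z - b z, ?_, ?_, ?_⟩
  · intro i z hz hzi
    have h1 : DifferentiableAt ℝ (fun z => Q i z - b z) z := (hQd i z).sub (hbd z)
    have h2 : db (fun z => Q i z - b z) z = 0 := by
      have h3 : fderiv ℝ (fun z => Q i z - b z) z = fderiv ℝ (Q i) z - fderiv ℝ b z :=
        fderiv_fun_sub (hQd i z) (hbd z)
      rw [db, h3]
      have h4 := homQ i z hz hzi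
      rw [← hbom z, db, db] at h4
      simp only [sub_apply]
      linear_combination -h4
    rw [differentiableAt_complex_iff_differentiableAt_real]
    refine ⟨h1, ?_⟩
    rw [db] at h2
    rw [smul_eq_mul]
    linear_combination (-I) * h2 + (fderiv ℝ (fun z => Q i z - b z) z I) * Complex.I_mul_I
  · intro i z _ _
    have h1 : ‖Q i z‖ ≤ (Fintype.card ι) * A := by
      simp only [hQ]
      rw [norm_mul, Complex.norm_I, one_mul]
      refine (norm_sum_le _ _).trans ?_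
      calc ∑ l, ‖(τ i l : ℂ) * χc l z‖ ≤ ∑ l : ι, A := by
            apply Finset.sum_le_sum
            intro l _
            rw [norm_mul, Complex.norm_real, Real.norm_eq_abs]
            have h1 : ‖χc l z‖ ≤ 1 := by
              simp only [hχc, Complex.norm_real, Real.norm_eq_abs]
              rw [abs_of_nonneg (hχb l z).1]
              exact (hχb l z).2
            calc |τ i l| * ‖χc l z‖ ≤ A * 1 := mul_le_mul (hA i l) h1 (norm_nonneg _) hA0
              _ = A := mul_one _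
        _ = (Fintype.card ι) * A := by rw [Finset.sum_const, nsmul_eq_mul, Finset.card_univ]
    calc ‖Q i z - b z‖ ≤ ‖Q i z‖ + ‖b z‖ := norm_sub_le _ _
      _ ≤ (Fintype.card ι) * A + C₂ * (C₁ * A) := add_le_add h1 (hbb z)
      _ ≤ _ := by nlinarith
  · intro i j z hz hzi hzj
    have h1 : ∑ l, (τ i l : ℂ) * χc l z - ∑ l, (τ j l : ℂ) * χc l z = τ i j := by
      rw [← Finset.sum_sub_distrib]
      have h3 : ∀ l ∈ Finset.univ, (τ i l : ℂ) * χc l z - (τ j l : ℂ) * χc l z =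
          (τ i j : ℂ) * χc l z := by
        intro l _
        by_cases hzl : z ∈ U l
        · have h4 := hτ i j l ⟨z, hz, hzi, hzj, hzl⟩
          rw [← h4]
          push_cast
          ring
        · rw [(hsupp l z hzl).1]; ring
      rw [Finset.sum_congr rfl h3, ← Finset.mul_sum]
      have h2 : ∑ j, χc j z = 1 := by
        have := hχ1 z (subset_closure hz)
        simp only [hχc]
        exact_mod_cast this
      rw [h2, mul_one]
    simp only [hQ]
    rw [← h1]
    ring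

end

/-- multiplicative solution of a cocycle with bound `C` -/
def MulSol {ι : Type} (Ω : Set ℂ) (U : ι → Set ℂ) (τ : ι → ι → ℝ) (C : ℝ) : Prop :=
  ∃ e : ι → ℂ → ℂ, (∀ i, ∀ z ∈ Ω, z ∈ U i → DifferentiableAt ℂ (e i) z) ∧
    (∀ i, ∀ z ∈ Ω, z ∈ U i → Real.exp (-C) ≤ ‖e i z‖ ∧ ‖e i z‖ ≤ Real.exp C) ∧
    (∀ i j, ∀ z ∈ Ω, z ∈ U i → z ∈ U j → e i z = Complex.exp (I * τ i j) * e j z)

lemma MulSol.mono {ι : Type} {Ω : Set ℂ} {U : ι → Set ℂ} {τ : ι → ι → ℝ} {C C' : ℝ}
    (h : MulSol Ω U τ C) (hC : C ≤ C') : MulSol Ω U τ C' := by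
  obtain ⟨e, h1, h2, h3⟩ := h
  refine ⟨e, h1, fun i z hz hzi => ?_, h3⟩
  obtain ⟨h4, h5⟩ := h2 i z hz hzi
  exact ⟨(Real.exp_le_exp.2 (by linarith)).trans h4, h5.trans (Real.exp_le_exp.2 hC)⟩

lemma mulSol_of_additive {ι : Type} {Ω : Set ℂ} {U : ι → Set ℂ} {τ : ι → ι → ℝ} {C : ℝ}
    (h : ∃ q : ι → ℂ → ℂ, (∀ i, ∀ z ∈ Ω, z ∈ U i → DifferentiableAt ℂ (q i) z) ∧
        (∀ i, ∀ z ∈ Ω, z ∈ U i → ‖q i z‖ ≤ C) ∧
        (∀ i j, ∀ z ∈ Ω, z ∈ U i → z ∈ U j → q i z - q j z = I * τ i j)) :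
    MulSol Ω U τ C := by
  obtain ⟨q, h1, h2, h3⟩ := h
  refine ⟨fun i z => Complex.exp (q i z), ?_, ?_, ?_⟩
  · intro i z hz hzi
    exact (h1 i z hz hzi).cexp
  · intro i z hz hzi
    have h4 := h2 i z hz hzi
    have h5 := (Complex.abs_re_le_norm (q i z)).trans h4
    rw [abs_le] at h5
    rw [Complex.norm_exp]
    exact ⟨Real.exp_le_exp.2 h5.1, Real.exp_le_exp.2 h5.2⟩
  · intro i j z hz hzi hzj
    change Complex.exp (q i z) = Complex.exp (I * τ i j) * Complex.exp (q j z)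
    rw [← h3 i j z hz hzi hzj, ← Complex.exp_add, sub_add_cancel]

lemma MulSol.mul {ι : Type} {Ω : Set ℂ} {U : ι → Set ℂ} {τ τ' σ : ι → ι → ℝ} {C C' : ℝ}
    (h : MulSol Ω U τ C) (h' : MulSol Ω U τ' C')
    (hσ : ∀ i j, (∃ z ∈ Ω, z ∈ U i ∧ z ∈ U j) →
      Complex.exp (I * σ i j) = Complex.exp (I * τ i j) * Complex.exp (I * τ' i j)) :
    MulSol Ω U σ (C + C') := by
  obtain ⟨e, h1, h2, h3⟩ := h
  obtain ⟨e', h1', h2', h3'⟩ := h'
  refine ⟨fun i z => e i z * e' i z, ?_, ?_, ?_⟩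
  · intro i z hz hzi
    exact (h1 i z hz hzi).mul (h1' i z hz hzi)
  · intro i z hz hzi
    obtain ⟨h4, h5⟩ := h2 i z hz hzi
    obtain ⟨h4', h5'⟩ := h2' i z hz hzi
    rw [norm_mul, neg_add, Real.exp_add, Real.exp_add]
    exact ⟨mul_le_mul h4 h4' (Real.exp_pos _).le (norm_nonneg _),
      mul_le_mul h5 h5' (norm_nonneg _) (Real.exp_pos _).le⟩
  · intro i j z hz hzi hzj
    change e i z * e' i z = _ * (e j z * e' j z)
    rw [h3 i j z hz hzi hzj, h3' i j z hz hzi hzj, hσ i j ⟨z, hz, hzi, hzj⟩]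
    ring

lemma arg_small {x : ℝ} (h : ‖Complex.exp (I * x) - 1‖ < 1 / 2) :
    |Complex.arg (Complex.exp (I * x))| < 2 * π / 3 := by
  set δ := Complex.arg (Complex.exp (I * x)) with hδ
  by_contra hcon
  rw [not_lt] at hcon
  have h1 : |δ| ≤ π := Complex.abs_arg_le_pi _
  have hn : ‖Complex.exp (I * x)‖ = 1 := by
    rw [mul_comm]; exact Complex.norm_exp_ofReal_mul_I x
  have hexp : Complex.exp (I * x) = Complex.exp (δ * I) := by
    have := Complex.norm_mul_exp_arg_mul_I (Complex.exp (I * x))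
    rw [hn] at this
    simpa using this.symm
  have hre : (Complex.exp (I * x)).re = Real.cos δ := by
    rw [hexp, Complex.exp_ofReal_mul_I_re]
  have hcos : Real.cos δ ≤ -(1/2) := by
    rw [← Real.cos_abs]
    have h2 : Real.cos |δ| ≤ Real.cos (2 * π / 3) :=
      Real.cos_le_cos_of_nonneg_of_le_pi (by positivity) h1 hcon
    have h3 : Real.cos (2 * π / 3) = -(1/2) := by
      rw [show 2 * π / 3 = π - π / 3 by ring, Real.cos_pi_sub, Real.cos_pi_div_three]
    linarith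
  have h4 := Complex.abs_re_le_norm (Complex.exp (I * x) - 1)
  rw [Complex.sub_re, hre, Complex.one_re] at h4
  have h5 : |Real.cos δ - 1| = 1 - Real.cos δ := by
    rw [abs_of_nonpos (by linarith)]; ring
  rw [h5] at h4
  linarith

/-- uniform bounds for multiplicative solutions of all real cocycles -/
theorem cousin_uniform {ι : Type} [Fintype ι] {Ω : Set ℂ} {U : ι → Set ℂ} (hΩo : IsOpen Ω)
    (hU : ∀ i, IsOpen (U i))
    (hUb : ∀ i, Bornology.IsBounded (U i)) (hcov : closure Ω ⊆ ⋃ i, U i) :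
    ∃ C, ∀ τ : ι → ι → ℝ, IsCoc Ω U τ → MulSol Ω U τ C := by
  classical
  obtain ⟨C₀, hC₀, hadd⟩ := cousin_additive hΩo hU hUb hcov
  -- every cocycle has a solution
  have hsol : ∀ τ : ι → ι → ℝ, IsCoc Ω U τ → ∃ C, MulSol Ω U τ C := by
    intro τ hτ
    refine ⟨C₀ * ∑ i, ∑ j, |τ i j|, mulSol_of_additive (hadd τ hτ _ ?_)⟩
    intro i j
    calc |τ i j| ≤ ∑ j, |τ i j| :=
          Finset.single_le_sum (f := fun j => |τ i j|) (fun _ _ => abs_nonneg _) (Finset.mem_univ j)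
      _ ≤ _ := Finset.single_le_sum (f := fun i => ∑ j, |τ i j|)
          (fun _ _ => Finset.sum_nonneg fun _ _ => abs_nonneg _) (Finset.mem_univ i)
  -- the set of exponentials
  let ex : (ι → ι → ℝ) → (ι → ι → ℂ) := fun τ i j => Complex.exp (I * τ i j)
  set Θ : Set (ι → ι → ℂ) := ex '' {τ | IsCoc Ω U τ} with hΘ
  have hbound : Bornology.IsBounded Θ := by
    rw [Metric.isBounded_iff_subset_closedBall 0]
    refine ⟨1, ?_⟩
    rintro _ ⟨τ, _, rfl⟩
    rw [mem_closedBall_zero_iff, pi_norm_le_iff_of_nonneg zero_le_one]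
    intro i
    rw [pi_norm_le_iff_of_nonneg zero_le_one]
    intro j
    have : ‖ex τ i j‖ = 1 := by
      simp only [ex]
      rw [mul_comm]; exact Complex.norm_exp_ofReal_mul_I _
    exact this.le
  have htb : TotallyBounded Θ := by
    have hc : IsCompact (closure Θ) := Bornology.IsBounded.isCompact_closure hbound
    exact hc.totallyBounded.subset subset_closure
  obtain ⟨t, htΘ, htf, htc⟩ := finite_approx_of_totallyBounded htb (1/2) (by norm_num)
  have hchoice : ∀ θ ∈ t, ∃ τ C, ex τ = θ ∧ IsCoc Ω U τ ∧ MulSol Ω U τ C := by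
    intro θ hθ
    obtain ⟨τ, hτ, rfl⟩ := htΘ hθ
    obtain ⟨C, hC⟩ := hsol τ hτ
    exact ⟨τ, C, rfl, hτ, hC⟩
  choose! T CC hT1 hT2 hT3 using hchoice
  obtain ⟨M, hM⟩ : ∃ M, ∀ θ ∈ t, CC θ ≤ M := by
    obtain ⟨M, hM⟩ := (htf.image CC).bddAbove
    exact ⟨M, fun θ hθ => hM (mem_image_of_mem _ hθ)⟩
  refine ⟨C₀ * π + M, ?_⟩
  intro τ hτ
  obtain ⟨θ, hθ, hd⟩ := mem_iUnion₂.1 (htc ⟨τ, hτ, rfl⟩)
  set τ' := T θ with hτ'
  have hτ'ex : ex τ' = θ := hT1 θ hθ
  -- entries are close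
  have hclose : ∀ i j, ‖Complex.exp (I * τ i j) - Complex.exp (I * τ' i j)‖ < 1 / 2 := by
    intro i j
    rw [mem_ball, dist_eq_norm, ← hτ'ex] at hd
    have h1 : ‖(ex τ - ex τ') i j‖ ≤ ‖ex τ - ex τ'‖ :=
      (norm_le_pi_norm ((ex τ - ex τ') i) j).trans (norm_le_pi_norm (ex τ - ex τ') i)
    exact lt_of_le_of_lt h1 hd
  have hclose' : ∀ i j, ‖Complex.exp (I * ((τ i j - τ' i j : ℝ) : ℂ)) - 1‖ < 1 / 2 := by
    intro i j
    have h1 := hclose i j
    have h2 : Complex.exp (I * τ i j) - Complex.exp (I * τ' i j) =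
        Complex.exp (I * τ' i j) * (Complex.exp (I * ((τ i j - τ' i j : ℝ) : ℂ)) - 1) := by
      rw [mul_sub, ← Complex.exp_add, mul_one]
      congr 2
      push_cast
      ring
    rw [h2, norm_mul] at h1
    have h3 : ‖Complex.exp (I * τ' i j)‖ = 1 := by
      rw [mul_comm]; exact Complex.norm_exp_ofReal_mul_I _
    rwa [h3, one_mul] at h1
  set δ : ι → ι → ℝ := fun i j => Complex.arg (Complex.exp (I * ((τ i j - τ' i j : ℝ) : ℂ))) with hδ
  have hδs : ∀ i j, |δ i j| < 2 * π / 3 := fun i j => arg_small (hclose' i j)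
  have hδe : ∀ i j, Complex.exp (I * δ i j) = Complex.exp (I * ((τ i j - τ' i j : ℝ) : ℂ)) := by
    intro i j
    have hn : ‖Complex.exp (I * ((τ i j - τ' i j : ℝ) : ℂ))‖ = 1 := by
      rw [mul_comm]; exact Complex.norm_exp_ofReal_mul_I _
    have := Complex.norm_mul_exp_arg_mul_I (Complex.exp (I * ((τ i j - τ' i j : ℝ) : ℂ)))
    rw [hn] at this
    rw [mul_comm I (δ i j : ℂ)]
    rw [Complex.ofReal_one, one_mul] at this
    exact this
  have hδc : IsCoc Ω U δ := by
    intro i j l hex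
    have h1 : Complex.exp (I * ((δ i j + δ j l - δ i l : ℝ) : ℂ)) = 1 := by
      have h2 : I * ((δ i j + δ j l - δ i l : ℝ) : ℂ) = I * δ i j + I * δ j l - I * δ i l := by
        push_cast; ring
      rw [h2, Complex.exp_sub, Complex.exp_add, hδe, hδe, hδe, ← Complex.exp_add,
        ← Complex.exp_sub]
      have h3 := hτ i j l hex
      have h4 := hT2 θ hθ i j l hex
      rw [← hτ'] at h4
      have h5 : I * ((τ i j - τ' i j : ℝ) : ℂ) + I * ((τ j l - τ' j l : ℝ) : ℂ) -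
          I * ((τ i l - τ' i l : ℝ) : ℂ) = 0 := by
        rw [← h3, ← h4]
        push_cast
        ring
      rw [h5, Complex.exp_zero]
    rw [mul_comm, Complex.exp_eq_one_iff] at h1
    obtain ⟨n, hn⟩ := h1
    have h2 : (δ i j + δ j l - δ i l : ℝ) = n * (2 * π) := by
      have h3 : ((δ i j + δ j l - δ i l : ℝ) : ℂ) * I = ((n * (2 * π) : ℝ) : ℂ) * I := by
        rw [hn]; push_cast; ring
      have h4 := mul_right_cancel₀ Complex.I_ne_zero h3
      exact_mod_cast h4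
    have h3 : |δ i j + δ j l - δ i l| < 2 * π := by
      have a1 := abs_lt.1 (hδs i j)
      have a2 := abs_lt.1 (hδs j l)
      have a3 := abs_lt.1 (hδs i l)
      rw [abs_lt]
      constructor <;> linarith
    rw [h2, abs_mul, abs_of_pos two_pi_pos] at h3
    have h4 : |(n:ℝ)| < 1 := by
      have hp := two_pi_pos
      nlinarith
    have h5 : n = 0 := by
      have h6 : |n| < 1 := by exact_mod_cast h4
      exact Int.abs_lt_one_iff.1 h6
    rw [h5] at h2
    simp only [Int.cast_zero, zero_mul] at h2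
    linarith
  have h1 := mulSol_of_additive (hadd δ hδc π fun i j => by
    have := hδs i j
    have hp := pi_pos
    linarith)
  have h2 := (hT3 θ hθ).mono (hM θ hθ)
  refine h1.mul h2 ?_
  intro i j _
  rw [hδe, ← hτ', ← Complex.exp_add]
  congr 1
  push_cast
  ring

end Pool.Agent.Helper93.LZ
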