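import Mathlib

/-!
The Cauchy-Pompeiu formula and solution of the inhomogeneous Cauchy-Riemann equation.
-/

open Set Metric Filter Topology Complex MeasureTheory Real

namespace Pool.Agent.Helper93.LZ

/-- twice the dbar derivative -/
noncomputable def db (g : ℂ → ℂ) (z : ℂ) : ℂ := fderiv ℝ g z 1 + I * fderiv ℝ g z I

lemma polar_identity (L : ℂ →L[ℝ] ℂ) (θ : ℝ) :
    Complex.exp (-(θ * I)) * (L 1 + I * L I) =
      L (Complex.exp (θ * I)) + I * L (Complex.exp (θ * I) * I) := by
  have h1 : Complex.exp (θ * I) = (Real.cos θ) • (1:ℂ) + (Real.sin θ) • I := by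
    rw [Complex.exp_mul_I]
    simp
  have h2 : Complex.exp (θ * I) * I = (-Real.sin θ) • (1:ℂ) + (Real.cos θ) • I := by
    rw [Complex.exp_mul_I]
    simp only [Complex.real_smul]
    push_cast
    linear_combination (Complex.sin (θ:ℂ)) * Complex.I_mul_I
  have h3 : Complex.exp (-(θ * I)) = (Real.cos θ : ℂ) - (Real.sin θ : ℂ) * I := by
    have : -((θ:ℂ) * I) = (-(θ:ℂ)) * I := by ring
    rw [this, Complex.exp_mul_I]
    simp
    ring
  rw [h2, h1, h3, map_add L, map_add L, map_smul L, map_smul L, map_smul L, map_smul L]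
  simp only [Complex.real_smul]
  push_cast
  linear_combination (-(Complex.sin (θ : ℂ)) * (L I)) * Complex.I_mul_I

theorem pompeiu {g : ℂ → ℂ} (hg : ContDiff ℝ 1 g) (hc : HasCompactSupport g) :
    ∫ w, w⁻¹ * db g w = -(2 * π) * g 0 := by
  rw [← Complex.integral_comp_polarCoord_symm]
  rw [polarCoord_target]
  have hfc : Continuous (fderiv ℝ g) := hg.continuous_fderiv one_ne_zero
  have hdiff : Differentiable ℝ g := hg.differentiable one_ne_zero
  set A : ℝ × ℝ → ℂ := fun p => fderiv ℝ g (p.1 * Complex.exp (p.2 * I)) (Complex.exp (p.2 * I))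
    with hA
  set B : ℝ × ℝ → ℂ := fun p =>
    fderiv ℝ g (p.1 * Complex.exp (p.2 * I)) (Complex.exp (p.2 * I) * I) with hB
  have hAc : Continuous A := by
    simp only [hA]
    exact (hfc.comp (by fun_prop)).clm_apply (by fun_prop)
  have hBc : Continuous B := by
    simp only [hB]
    exact (hfc.comp (by fun_prop)).clm_apply (by fun_prop)
  -- support
  obtain ⟨R, hR0, hR⟩ : ∃ R > 0, ∀ z : ℂ, R ≤ ‖z‖ → fderiv ℝ g z = 0 ∧ g z = 0 := by
    obtain ⟨R, hR⟩ := hc.isCompact.isBounded.subset_ball 0
    refine ⟨max R 1, by positivity, fun z hz => ?_⟩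
    have hz' : z ∉ tsupport g := by
      intro h
      have := hR h
      rw [mem_ball_zero_iff] at this
      have := le_max_left R 1
      linarith
    refine ⟨?_, image_eq_zero_of_notMem_tsupport hz'⟩
    have h2 : z ∉ tsupport (fderiv ℝ g) := fun h => hz' (tsupport_fderiv_subset ℝ h)
    exact image_eq_zero_of_notMem_tsupport h2
  have hnorm : ∀ p : ℝ × ℝ, 0 ≤ p.1 → ‖(p.1 : ℂ) * Complex.exp (p.2 * I)‖ = p.1 := by
    intro p hp
    rw [norm_mul, Complex.norm_exp_ofReal_mul_I, mul_one, Complex.norm_real, Real.norm_eq_abs,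
      abs_of_nonneg hp]
  have hAz : ∀ p : ℝ × ℝ, R ≤ p.1 → A p = 0 := by
    intro p hp
    simp only [hA]
    rw [(hR _ (by rw [hnorm p (by linarith)]; exact hp)).1]; rfl
  have hBz : ∀ p : ℝ × ℝ, R ≤ p.1 → B p = 0 := by
    intro p hp
    simp only [hB]
    rw [(hR _ (by rw [hnorm p (by linarith)]; exact hp)).1]; rfl
  have hint : ∀ Φ : ℝ × ℝ → ℂ, Continuous Φ → (∀ p : ℝ × ℝ, R ≤ p.1 → Φ p = 0) →
      IntegrableOn Φ (Ioi 0 ×ˢ Ioo (-π) π) := by
    intro Φ hΦ hz
    have h1 : IntegrableOn Φ (Icc 0 R ×ˢ Icc (-π) π) := by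
      apply hΦ.continuousOn.integrableOn_compact
      exact isCompact_Icc.prod isCompact_Icc
    have h2 : IntegrableOn Φ (Ioi R ×ˢ Ioo (-π) π) := by
      apply (integrableOn_zero).congr_fun _ (measurableSet_Ioi.prod measurableSet_Ioo)
      intro p hp
      exact (hz p hp.1.out.le).symm
    apply (h1.union h2).mono_set
    rintro ⟨x, y⟩ ⟨hx, hy⟩
    rcases le_or_gt x R with h | h
    · exact Or.inl ⟨⟨hx.out.le, h⟩, Ioo_subset_Icc_self hy⟩
    · exact Or.inr ⟨h, hy⟩
  have hcongr : ∫ p in Ioi (0:ℝ) ×ˢ Ioo (-π) π, p.1 • ((Complex.polarCoord.symm p)⁻¹ *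
      db g (Complex.polarCoord.symm p)) = ∫ p in Ioi (0:ℝ) ×ˢ Ioo (-π) π, (A p + I * B p) := by
    apply setIntegral_congr_fun (measurableSet_Ioi.prod measurableSet_Ioo)
    rintro ⟨x, y⟩ ⟨hx, _⟩
    have hx0 : (x:ℂ) ≠ 0 := by
      have : (0:ℝ) < x := hx
      exact_mod_cast this.ne'
    have hsymm : Complex.polarCoord.symm (x, y) = x * Complex.exp (y * I) := by
      rw [Complex.polarCoord_symm_apply, Complex.exp_mul_I]
      simp
    simp only [hsymm, hA, hB]
    rw [← polar_identity, db, Complex.real_smul, Complex.exp_neg, mul_inv]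
    field_simp
  rw [hcongr]
  have hintA := hint A hAc hAz
  have hintB := hint B hBc hBz
  have hIB : IntegrableOn (fun p => I * B p) (Ioi 0 ×ˢ Ioo (-π) π) := hintB.const_mul I
  rw [integral_add hintA hIB, integral_const_mul]
  -- the angular part vanishes
  have hB0 : ∫ p in Ioi (0:ℝ) ×ˢ Ioo (-π) π, B p = 0 := by
    rw [Measure.volume_eq_prod, setIntegral_prod _ (by
      rw [← Measure.volume_eq_prod]; exact hintB)]
    apply setIntegral_eq_zero_of_forall_eq_zero
    intro x hx
    have hx0 : (0:ℝ) < x := hx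
    rw [← integral_Ioc_eq_integral_Ioo, ← intervalIntegral.integral_of_le (by linarith [pi_pos])]
    have hder : ∀ θ : ℝ, HasDerivAt (fun θ : ℝ => ((x:ℂ)⁻¹) * g (x * Complex.exp (θ * I)))
        (B (x, θ)) θ := by
      intro θ
      have h1 : HasDerivAt (fun θ : ℝ => (x:ℂ) * Complex.exp (θ * I))
          (x * (Complex.exp (θ * I) * I)) θ := by
        have h2 : HasDerivAt (fun θ : ℝ => (θ:ℂ) * I) I θ := by
          simpa using (Complex.ofRealCLM.hasDerivAt (x := θ)).mul_const I
        exact (h2.cexp).const_mul _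
      have h3 := (hdiff ((x:ℂ) * Complex.exp (θ * I))).hasFDerivAt.comp_hasDerivAt θ h1
      have h4 := h3.const_mul ((x:ℂ)⁻¹)
      have h5 : (x:ℂ) * (Complex.exp (θ * I) * I) = x • (Complex.exp (θ * I) * I) := by
        rw [Complex.real_smul]
      have h6 : (x:ℂ)⁻¹ * (fderiv ℝ g ((x:ℂ) * Complex.exp (θ * I)))
          ((x:ℂ) * (Complex.exp (θ * I) * I)) = B (x, θ) := by
        rw [h5, map_smul, Complex.real_smul, ← mul_assoc, inv_mul_cancel₀, one_mul]
        exact_mod_cast hx0.ne'
      rw [← h6]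
      exact h4
    rw [intervalIntegral.integral_eq_sub_of_hasDerivAt (fun θ _ => hder θ)
      ((hBc.comp (by fun_prop : Continuous fun θ : ℝ => (x, θ))).intervalIntegrable _ _)]
    have h1 : Complex.exp (((π:ℝ):ℂ) * I) = Complex.exp (((-π : ℝ):ℂ) * I) := by
      rw [Complex.exp_pi_mul_I]
      push_cast
      rw [neg_mul, Complex.exp_neg, Complex.exp_pi_mul_I]
      norm_num
    rw [h1, sub_self]
  -- the radial part
  have hA1 : ∫ p in Ioi (0:ℝ) ×ˢ Ioo (-π) π, A p = -(2 * π) * g 0 := by
    have hsw : ∫ p in Ioi (0:ℝ) ×ˢ Ioo (-π) π, A p =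
        ∫ p in Ioo (-π) π ×ˢ Ioi (0:ℝ), A p.swap := by
      rw [Measure.volume_eq_prod, ← setIntegral_prod_swap]
    have hintA' : IntegrableOn (fun p : ℝ × ℝ => A p.swap) (Ioo (-π) π ×ˢ Ioi (0:ℝ)) := by
      have := hintA
      rw [IntegrableOn, Measure.volume_eq_prod, ← Measure.prod_restrict] at this ⊢
      exact this.swap
    rw [hsw, Measure.volume_eq_prod, setIntegral_prod _ (by
      rw [← Measure.volume_eq_prod]; exact hintA')]
    have hin : ∀ θ ∈ Ioo (-π) π, ∫ x in Ioi (0:ℝ), A (θ, x).swap = -g 0 := by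
      intro θ _
      simp only [Prod.swap_prod_mk]
      have hder : ∀ x ∈ Ici (0:ℝ), HasDerivAt (fun x : ℝ => g (x * Complex.exp (θ * I)))
          (A (x, θ)) x := by
        intro x _
        have h1 : HasDerivAt (fun x : ℝ => (x:ℂ) * Complex.exp (θ * I))
            (Complex.exp (θ * I)) x := by
          simpa using (Complex.ofRealCLM.hasDerivAt (x := x)).mul_const (Complex.exp (θ * I))
        exact (hdiff ((x:ℂ) * Complex.exp (θ * I))).hasFDerivAt.comp_hasDerivAt x h1
      have hcx : Continuous (fun x : ℝ => A (x, θ)) := hAc.comp (by fun_prop)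
      have hi : IntegrableOn (fun x : ℝ => A (x, θ)) (Ioi 0) := by
        have h1 : IntegrableOn (fun x : ℝ => A (x, θ)) (Icc 0 R) :=
          hcx.continuousOn.integrableOn_compact isCompact_Icc
        have h2 : IntegrableOn (fun x : ℝ => A (x, θ)) (Ioi R) := by
          apply (integrableOn_zero).congr_fun _ measurableSet_Ioi
          intro x hx
          exact (hAz (x, θ) hx.out.le).symm
        apply (h1.union h2).mono_set
        intro x hx
        rcases le_or_gt x R with h | h
        · exact Or.inl ⟨hx.out.le, h⟩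
        · exact Or.inr h
      have ht : Tendsto (fun x : ℝ => g (x * Complex.exp (θ * I))) atTop (𝓝 0) := by
        apply tendsto_const_nhds.congr'
        filter_upwards [eventually_ge_atTop R] with x hx
        have := (hR ((x:ℂ) * Complex.exp (θ * I)) (by
          rw [hnorm (x, θ) (by simp only; linarith)]; exact hx)).2
        exact this.symm
      rw [integral_Ioi_of_hasDerivAt_of_tendsto' hder hi ht]
      simp
    rw [setIntegral_congr_fun measurableSet_Ioo hin]
    simp only [integral_const, MeasurableSet.univ, measureReal_restrict_apply, univ_inter,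
      Real.volume_real_Ioo, sub_neg_eq_add]
    rw [max_eq_left (by linarith [pi_pos]), Complex.real_smul]
    push_cast
    ring
  rw [hA1, hB0]
  ring

/-- the Cauchy kernel -/
noncomputable def ck (w : ℂ) : ℂ := ((2 * π : ℝ) : ℂ)⁻¹ * w⁻¹

lemma norm_ck (w : ℂ) : ‖ck w‖ = (2 * π)⁻¹ * ‖w‖⁻¹ := by
  rw [ck, norm_mul, norm_inv, norm_inv, Complex.norm_real, Real.norm_eq_abs,
    abs_of_pos two_pi_pos]

lemma measurable_ck : Measurable ck := by
  unfold ck
  fun_prop

lemma locallyIntegrable_ck : LocallyIntegrable ck := by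
  refine locallyIntegrable_of_norm_le_rpow (C := (2 * π)⁻¹) (α := 1) ?_ ?_ ?_ ?_
  · rw [Complex.finrank_real_complex]; norm_num
  · rw [Complex.finrank_real_complex]; norm_num
  · filter_upwards with w
    rw [norm_ck, Real.rpow_neg_one]
  · exact measurable_ck.aestronglyMeasurable

theorem exists_dbar (R : ℝ) : ∃ C > 0, ∀ ω : ℂ → ℂ, ContDiff ℝ 1 ω → (∀ z ∉ ball (0:ℂ) R, ω z = 0) →
    ∀ A, (∀ z, ‖ω z‖ ≤ A) → ∃ b : ℂ → ℂ, Differentiable ℝ b ∧ (∀ z, db b z = ω z) ∧
      ∀ z, ‖b z‖ ≤ C * A := by
  have hI1 : IntegrableOn (fun w => ‖ck w‖) (ball 0 1) :=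
    ((locallyIntegrable_ck.integrableOn_isCompact (isCompact_closedBall 0 1)).mono_set
      ball_subset_closedBall).norm
  refine ⟨(∫ w in ball (0:ℂ) 1, ‖ck w‖) + (2 * π)⁻¹ * (volume (ball (0:ℂ) R)).toReal + 1, ?_, ?_⟩
  · have h1 : 0 ≤ ∫ w in ball (0:ℂ) 1, ‖ck w‖ := integral_nonneg fun _ => norm_nonneg _
    have h2 : 0 ≤ (2 * π)⁻¹ * (volume (ball (0:ℂ) R)).toReal := by positivity
    linarith
  intro ω hω hsupp A hA
  have hA0 : 0 ≤ A := (norm_nonneg _).trans (hA 0)
  have hcs : HasCompactSupport ω := by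
    apply HasCompactSupport.intro (isCompact_closedBall (0:ℂ) R)
    intro z hz
    exact hsupp z fun h => hz (ball_subset_closedBall h)
  set L := ContinuousLinearMap.mul ℝ ℂ with hL
  set b : ℂ → ℂ := convolution ck ω L volume with hb
  have hder : ∀ z, HasFDerivAt b (convolution ck (fderiv ℝ ω) (L.precompR ℂ) volume z) z :=
    fun z => hcs.hasFDerivAt_convolution_right L locallyIntegrable_ck hω z
  refine ⟨b, fun z => (hder z).differentiableAt, fun z => ?_, fun z => ?_⟩
  · rw [db, (hder z).fderiv]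
    have hfc : Continuous (fderiv ℝ ω) := hω.continuous_fderiv one_ne_zero
    have hex : Integrable (fun t => (L.precompR ℂ) (ck t) (fderiv ℝ ω (z - t))) := by
      exact (hcs.fderiv ℝ).convolutionExists_right (L.precompR ℂ) locallyIntegrable_ck hfc z
    have happ : ∀ v : ℂ, (convolution ck (fderiv ℝ ω) (L.precompR ℂ) volume z) v =
        ∫ t, ck t * fderiv ℝ ω (z - t) v := by
      intro v
      rw [convolution_def, ContinuousLinearMap.integral_apply hex]
      rfl
    have hint : ∀ v : ℂ, Integrable (fun t => ck t * fderiv ℝ ω (z - t) v) := by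
      intro v
      exact hex.apply_continuousLinearMap v
    rw [happ, happ, ← integral_const_mul, ← integral_add (hint 1) ((hint I).const_mul I)]
    -- use the Pompeiu formula
    set g : ℂ → ℂ := fun w => ω (z - w) with hg
    have hgd : ContDiff ℝ 1 g := hω.comp (contDiff_const.sub contDiff_id)
    have hgc : HasCompactSupport g := by
      apply HasCompactSupport.intro (isCompact_closedBall z R)
      intro w hw
      apply hsupp
      intro h
      apply hw
      rw [mem_ball_zero_iff] at h
      rw [mem_closedBall, dist_comm, dist_eq_norm]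
      exact h.le
    have hgf : ∀ w v, fderiv ℝ g w v = - fderiv ℝ ω (z - w) v := by
      intro w v
      have h1 : HasFDerivAt (fun w : ℂ => z - w) (-ContinuousLinearMap.id ℝ ℂ) w := by
        simpa using (hasFDerivAt_id (𝕜 := ℝ) w).const_sub z
      have h2 := ((hω.differentiable one_ne_zero (z - w)).hasFDerivAt).comp w h1
      have h3 : fderiv ℝ g w = (fderiv ℝ ω (z - w)).comp (-ContinuousLinearMap.id ℝ ℂ) := h2.fderiv
      rw [h3]
      simp
    have hp := pompeiu hgd hgc
    have h4 : (fun w => w⁻¹ * db g w) = fun w => -((2 * π : ℝ) : ℂ) *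
        (ck w * fderiv ℝ ω (z - w) 1 + I * (ck w * fderiv ℝ ω (z - w) I)) := by
      ext w
      rw [db, hgf, hgf, ck]
      have : ((2 * π : ℝ) : ℂ) ≠ 0 := by exact_mod_cast two_pi_pos.ne'
      field_simp
      ring
    rw [h4, integral_const_mul] at hp
    have h5 : ((2 * π : ℝ) : ℂ) ≠ 0 := by exact_mod_cast two_pi_pos.ne'
    have h6 : g 0 = ω z := by simp [hg]
    rw [h6] at hp
    have h7 : -((2 * π : ℝ) : ℂ) ≠ 0 := neg_ne_zero.2 h5
    apply mul_left_cancel₀ h7
    rw [hp]
    push_cast
    ring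
  · have hbz : b z = ∫ t, ck t * ω (z - t) := by
      rw [hb, convolution_def]; rfl
    rw [hbz]
    refine (norm_integral_le_integral_norm _).trans ?_
    have hle : ∀ t, ‖ck t * ω (z - t)‖ ≤
        A * ((ball (0:ℂ) 1).indicator (fun w => ‖ck w‖) t +
          (ball z R).indicator (fun _ => (2 * π)⁻¹) t) := by
      intro t
      rw [norm_mul]
      by_cases ht : t ∈ ball z R
      · rw [indicator_of_mem ht]
        have h1 : ‖ck t‖ ≤ (ball (0:ℂ) 1).indicator (fun w => ‖ck w‖) t + (2 * π)⁻¹ := by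
          by_cases ht1 : t ∈ ball (0:ℂ) 1
          · rw [indicator_of_mem ht1]
            have : 0 < (2 * π)⁻¹ := by positivity
            linarith
          · rw [indicator_of_notMem ht1, zero_add, norm_ck]
            rw [mem_ball_zero_iff, not_lt] at ht1
            have h2 : ‖t‖⁻¹ ≤ 1 := inv_le_one_of_one_le₀ ht1
            have h3 : 0 < (2 * π)⁻¹ := by positivity
            nlinarith
        have h2 := hA (z - t)
        calc ‖ck t‖ * ‖ω (z - t)‖ ≤ ((ball (0:ℂ) 1).indicator (fun w => ‖ck w‖) t + (2 * π)⁻¹) * A :=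
              mul_le_mul h1 h2 (norm_nonneg _) ((norm_nonneg _).trans h1)
          _ = _ := by ring
      · have h1 : ω (z - t) = 0 := by
          apply hsupp
          intro h
          apply ht
          rw [mem_ball_zero_iff] at h
          rwa [mem_ball, dist_comm, dist_eq_norm]
        rw [h1, norm_zero, mul_zero]
        apply mul_nonneg hA0
        apply add_nonneg
        · exact indicator_nonneg (fun _ _ => norm_nonneg _) _
        · exact indicator_nonneg (fun _ _ => by positivity) _
    have hi1 : Integrable ((ball (0:ℂ) 1).indicator (fun w => ‖ck w‖)) :=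
      (integrable_indicator_iff measurableSet_ball).2 hI1
    have hi2 : Integrable ((ball z R).indicator (fun _ : ℂ => (2 * π)⁻¹)) := by
      rw [integrable_indicator_iff measurableSet_ball]
      exact integrableOn_const (by exact measure_ball_lt_top.ne)
    refine (integral_mono_of_nonneg (Eventually.of_forall fun _ => norm_nonneg _)
      ((hi1.add hi2).const_mul A) (Eventually.of_forall hle)).trans ?_
    rw [integral_const_mul]
    have h3 : ∫ a, ((ball (0:ℂ) 1).indicator (fun w => ‖ck w‖) + (ball z R).indicator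
        (fun _ : ℂ => (2 * π)⁻¹)) a = (∫ w in ball (0:ℂ) 1, ‖ck w‖) +
          (2 * π)⁻¹ * (volume (ball (0:ℂ) R)).toReal := by
      rw [integral_add' hi1 hi2, integral_indicator measurableSet_ball,
        integral_indicator measurableSet_ball, setIntegral_const, smul_eq_mul,
        Measure.real, Measure.addHaar_ball_center]
      ring
    rw [h3, mul_comm]
    apply mul_le_mul_of_nonneg_right _ hA0
    linarith

end Pool.Agent.Helper93.LZ
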