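import Pool.Agent.Helper93.LZ.Pot

/-!
Perron families with finitely many logarithmic poles.
-/

open Set Metric Filter Topology Complex MeasureTheory Real InnerProductSpace

namespace Pool.Agent.Helper93.LZ

/-! ### logarithmic poles -/

/-- sum of logarithmic poles -/
noncomputable def Tp (P : Finset ℂ) (D : ℝ) (z : ℂ) : ℝ := ∑ a ∈ P, Real.log (D / ‖z - a‖)

lemma harmonicAt_log_sub {z a : ℂ} (h : z ≠ a) : HarmonicAt (fun x => Real.log ‖x - a‖) z := by
  have : AnalyticAt ℂ (fun x => x - a) z := by fun_prop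
  exact this.harmonicAt_log_norm (sub_ne_zero.2 h)

lemma harmonicAt_log_div {z a : ℂ} {D : ℝ} (hD : 0 < D) (h : z ≠ a) :
    HarmonicAt (fun x => Real.log (D / ‖x - a‖)) z := by
  have h1 : HarmonicAt (fun x => Real.log D - Real.log ‖x - a‖) z :=
    (harmonicAt_const (Real.log D)).sub (harmonicAt_log_sub h)
  refine (harmonicAt_congr_nhds ?_).1 h1
  filter_upwards [isOpen_ne.mem_nhds h] with x hx
  rw [Real.log_div hD.ne' (norm_ne_zero_iff.2 (sub_ne_zero.2 hx))]

lemma harmonicAt_finset_sum {ι : Type*} (s : Finset ι) (f : ι → ℂ → ℝ) (z : ℂ)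
    (h : ∀ i ∈ s, HarmonicAt (f i) z) : HarmonicAt (fun x => ∑ i ∈ s, f i x) z := by
  classical
  induction s using Finset.induction_on with
  | empty => simp
  | insert a s ha ih =>
    have h1 := (h a (Finset.mem_insert_self _ _)).add
      (ih (fun i hi => h i (Finset.mem_insert_of_mem hi)))
    refine (harmonicAt_congr_nhds ?_).1 h1
    filter_upwards with x
    rw [Finset.sum_insert ha]
    rfl

lemma Tp_harmonicAt {P : Finset ℂ} {D : ℝ} (hD : 0 < D) {z : ℂ} (hz : z ∉ P) :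
    HarmonicAt (Tp P D) z := by
  apply harmonicAt_finset_sum
  intro a ha
  exact harmonicAt_log_div hD (fun h => hz (h ▸ ha))

lemma Tp_nonneg {P : Finset ℂ} {D : ℝ} {z : ℂ} (h : ∀ a ∈ P, ‖z - a‖ ≤ D) : 0 ≤ Tp P D z := by
  apply Finset.sum_nonneg
  intro a ha
  by_cases hz : ‖z - a‖ = 0
  · simp [hz]
  · apply Real.log_nonneg
    rw [le_div_iff₀ (lt_of_le_of_ne (norm_nonneg _) (Ne.symm hz))]
    simpa using h a ha

lemma tendsto_log_div_atTop {D : ℝ} (hD : 0 < D) (a : ℂ) :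
    Tendsto (fun z => Real.log (D / ‖z - a‖)) (𝓝[≠] a) atTop := by
  apply Real.tendsto_log_atTop.comp
  apply Tendsto.const_mul_atTop hD
  apply tendsto_inv_nhdsGT_zero.comp
  rw [tendsto_nhdsWithin_iff]
  constructor
  · have : Continuous (fun z : ℂ => ‖z - a‖) := by fun_prop
    have h := this.tendsto a
    simp only [sub_self, norm_zero] at h
    exact h.mono_left nhdsWithin_le_nhds
  · filter_upwards [self_mem_nhdsWithin] with z hz
    exact norm_pos_iff.2 (sub_ne_zero.2 hz)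

lemma Tp_tendsto {P : Finset ℂ} {D : ℝ} (hD : 0 < D) {a : ℂ} (ha : a ∈ P) :
    Tendsto (Tp P D) (𝓝[≠] a) atTop := by
  classical
  have h1 : Tp P D = fun z => Real.log (D / ‖z - a‖) + Tp (P.erase a) D z := by
    ext z
    rw [Tp, ← Finset.add_sum_erase _ _ ha]; rfl
  rw [h1]
  have h2 : ContinuousAt (Tp (P.erase a) D) a :=
    (Tp_harmonicAt hD (by simp)).1.continuousAt
  exact tendsto_atTop_add_const_right' (tendsto_log_div_atTop hD a) h2
where
  tendsto_atTop_add_const_right' {f g : ℂ → ℝ} {a : ℂ} (hf : Tendsto f (𝓝[≠] a) atTop)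
      (hg : ContinuousAt g a) : Tendsto (fun z => f z + g z) (𝓝[≠] a) atTop := by
    have hb : ∀ᶠ z in 𝓝[≠] a, g a - 1 ≤ g z := by
      have : ∀ᶠ z in 𝓝 a, g a - 1 < g z := hg.eventually (lt_mem_nhds (by linarith))
      filter_upwards [this.filter_mono nhdsWithin_le_nhds] with z hz using hz.le
    exact tendsto_atTop_add_right_of_le' _ (g a - 1) hf hb

/-! ### maximum principle with poles -/

theorem max_principle_poles {K Ω : Set ℂ} (hK : IsCompact K) (hΩ : IsOpen Ω) (hΩK : Ω ⊆ K)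
    {P : Finset ℂ} {v : ℂ → ℝ} {B : ℝ}
    (hv : ContinuousOn v (K \ P)) (hbd : ∀ z ∈ K \ Ω, z ∉ P → v z ≤ B)
    (hsub : ∀ z ∈ Ω, z ∉ P → B < v z → SubMeanAt v z)
    (hlim : ∀ a ∈ P, Tendsto v (𝓝[≠] a) atBot) : ∀ z ∈ K, z ∉ P → v z ≤ B := by
  classical
  have h1 : ∀ a ∈ P, ∃ δ > 0, ∀ z ∈ closedBall a δ, z ≠ a → v z ≤ B := by
    intro a ha
    have := (hlim a ha).eventually (eventually_le_atBot B)
    rw [eventually_nhdsWithin_iff] at this
    obtain ⟨δ, hδ, h⟩ := Metric.nhds_basis_closedBall.mem_iff.1 this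
    exact ⟨δ, hδ, fun z hz hne => h hz hne⟩
  choose! δ hδ hδv using h1
  set U : Set ℂ := ⋃ a ∈ P, ball a (δ a) with hU
  set V : Set ℂ := ⋃ a ∈ P, closedBall a (δ a) with hV
  have hUo : IsOpen U := isOpen_biUnion fun _ _ => isOpen_ball
  have hVc : IsClosed V := by
    apply Set.Finite.isClosed_biUnion P.finite_toSet
    intro a _; exact isClosed_closedBall
  have hUV : U ⊆ V := iUnion₂_mono fun a _ => ball_subset_closedBall
  have hPU : (P : Set ℂ) ⊆ U := by
    intro a ha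
    exact mem_iUnion₂.2 ⟨a, ha, mem_ball_self (hδ a ha)⟩
  have key := max_principle (K := K \ U) (Ω := Ω \ V) (X := v) (B := B)
    (hK.diff hUo) (hΩ.sdiff hVc)
    (hv.mono (sdiff_subset_sdiff_right hPU)) (sdiff_subset_sdiff hΩK hUV) ?_ ?_
  · intro z hz hzP
    by_cases hzU : z ∈ U
    · obtain ⟨a, ha, hza⟩ := mem_iUnion₂.1 hzU
      exact hδv a ha z (ball_subset_closedBall hza) (fun h => hzP (h ▸ ha))
    · exact key z ⟨hz, hzU⟩
  · rintro z ⟨⟨hzK, hzU⟩, hz2⟩
    have hzP : z ∉ P := fun h => hzU (hPU h)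
    by_cases hzΩ : z ∈ Ω
    · have hzV : z ∈ V := by
        by_contra h; exact hz2 ⟨hzΩ, h⟩
      obtain ⟨a, ha, hza⟩ := mem_iUnion₂.1 hzV
      exact hδv a ha z hza (fun h => hzP (h ▸ ha))
    · exact hbd z ⟨hzK, hzΩ⟩ hzP
  · intro z hz hB
    have hzP : z ∉ P := fun h => hz.2 (hUV (hPU h))
    exact (hsub z hz.1 hzP hB).maxProp

/-! ### the family -/

/-- data of a Perron family: domain, poles, boundary function, a bound of the diameter -/
structure Data where
  Ω : Set ℂ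
  P : Finset ℂ
  bd : ℂ → ℝ
  D : ℝ
  hΩ : IsOpen Ω
  hbdd : Bornology.IsBounded Ω
  hP : (P : Set ℂ) ⊆ Ω
  hD : 0 < D
  hDa : ∀ a ∈ P, ∀ z ∈ closure Ω, ‖z - a‖ ≤ D

/-- membership in the Perron family -/
structure Fam (d : Data) (w : ℂ → ℝ) : Prop where
  cont : ContinuousOn w (closure d.Ω \ d.P)
  sub : ∀ z ∈ d.Ω, z ∉ d.P → SubMeanAt w z
  bd : ∀ z ∈ frontier d.Ω, w z ≤ d.bd z
  nonneg : ∀ z ∈ closure d.Ω, z ∉ d.P → 0 ≤ w z
  growth : ∃ C, ∀ z ∈ d.Ω, z ∉ d.P → w z ≤ Tp d.P d.D z + C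

lemma Data.Tp_nonneg (d : Data) {z : ℂ} (hz : z ∈ closure d.Ω) : 0 ≤ Tp d.P d.D z :=
  LZ.Tp_nonneg fun a ha => d.hDa a ha z hz

lemma Data.isOpen_diff (d : Data) : IsOpen (d.Ω \ d.P) :=
  d.hΩ.sdiff d.P.finite_toSet.isClosed

lemma Data.nhds {d : Data} {z : ℂ} (hz : z ∈ d.Ω) (hzP : z ∉ d.P) :
    closure d.Ω \ d.P ∈ 𝓝 z :=
  mem_of_superset (d.isOpen_diff.mem_nhds ⟨hz, hzP⟩) (sdiff_subset_sdiff_left subset_closure)

/-- glueing a sub-mean function on an open subset -/
noncomputable def glue (U : Set ℂ) (ψ w : ℂ → ℝ) (z : ℂ) : ℝ :=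
  open Classical in if z ∈ U then max (w z) (ψ z) else w z

lemma glue_of_mem {U : Set ℂ} {ψ w : ℂ → ℝ} {z : ℂ} (h : z ∈ U) :
    glue U ψ w z = max (w z) (ψ z) := by rw [glue, if_pos h]

lemma glue_of_notMem {U : Set ℂ} {ψ w : ℂ → ℝ} {z : ℂ} (h : z ∉ U) :
    glue U ψ w z = w z := by rw [glue, if_neg h]

lemma le_glue (U : Set ℂ) (ψ w : ℂ → ℝ) (z : ℂ) : w z ≤ glue U ψ w z := by
  by_cases h : z ∈ U
  · rw [glue_of_mem h]; exact le_max_left _ _
  · rw [glue_of_notMem h]

lemma Fam.glue {d : Data} {w : ℂ → ℝ} (hw : Fam d w) {U : Set ℂ} (hU : IsOpen U)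
    (hUΩ : closure U ⊆ d.Ω) {ψ : ℂ → ℝ} (hψ : ContinuousOn ψ (closure U \ d.P))
    (hsub : ∀ z ∈ U, z ∉ d.P → SubMeanAt ψ z)
    (hfr : ∀ z ∈ frontier U, z ∉ d.P → ψ z ≤ w z)
    (hgr : ∃ C, ∀ z ∈ U, z ∉ d.P → ψ z ≤ Tp d.P d.D z + C) : Fam d (glue U ψ w) := by
  classical
  have hUo : U ⊆ d.Ω := subset_closure.trans hUΩ
  have hcont : ContinuousOn (LZ.glue U ψ w) (closure d.Ω \ d.P) := by
    have : ContinuousOn (fun z => if z ∈ U then max (w z) (ψ z) else w z)
        (closure d.Ω \ d.P) := by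
      apply ContinuousOn.if
      · rintro a ⟨ha, hfa⟩
        exact max_eq_left (hfr a hfa ha.2)
      · apply ContinuousOn.sup
        · exact hw.cont.mono inter_subset_left
        · exact hψ.mono fun x hx => ⟨hx.2, hx.1.2⟩
      · exact hw.cont.mono inter_subset_left
    refine this.congr fun z _ => ?_
    rw [LZ.glue]
  refine ⟨hcont, ?_, ?_, ?_, ?_⟩
  · intro z hz hzP
    by_cases hzU : z ∈ U
    · rcases le_total (ψ z) (w z) with h | h
      · exact (hw.sub z hz hzP).of_le (by rw [glue_of_mem hzU, max_eq_left h])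
          (Eventually.of_forall fun x => le_glue U ψ w x) (Data.nhds hz hzP) hcont
      · refine (hsub z hzU hzP).of_le (by rw [glue_of_mem hzU, max_eq_right h]) ?_
          (Data.nhds hz hzP) hcont
        filter_upwards [hU.mem_nhds hzU] with x hx
        rw [glue_of_mem hx]; exact le_max_right _ _
    · exact (hw.sub z hz hzP).of_le (glue_of_notMem hzU)
          (Eventually.of_forall fun x => le_glue U ψ w x) (Data.nhds hz hzP) hcont
  · intro z hz
    have hzU : z ∉ U := by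
      intro h
      rw [d.hΩ.frontier_eq] at hz
      exact hz.2 (hUo h)
    rw [glue_of_notMem hzU]
    exact hw.bd z hz
  · intro z hz hzP
    exact (hw.nonneg z hz hzP).trans (le_glue U ψ w z)
  · obtain ⟨C, hC⟩ := hw.growth
    obtain ⟨C', hC'⟩ := hgr
    refine ⟨max C C', fun z hz hzP => ?_⟩
    by_cases hzU : z ∈ U
    · rw [glue_of_mem hzU]
      apply max_le
      · exact (hC z hz hzP).trans (by gcongr; exact le_max_left _ _)
      · exact (hC' z hzU hzP).trans (by gcongr; exact le_max_right _ _)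
    · rw [glue_of_notMem hzU]
      exact (hC z hz hzP).trans (by gcongr; exact le_max_left _ _)

/-- a priori (non-uniform) bound -/
lemma Fam.bound {d : Data} {w : ℂ → ℝ} (hw : Fam d w) {B : ℝ}
    (hB : ∀ z ∈ frontier d.Ω, d.bd z ≤ B) :
    ∀ z ∈ d.Ω, z ∉ d.P → w z ≤ 2 * Tp d.P d.D z + B := by
  have hTc : ContinuousOn (fun z => 2 * Tp d.P d.D z) (closure d.Ω \ d.P) := by
    intro z hz
    exact ((Tp_harmonicAt d.hD hz.2).1.continuousAt.const_mul 2).continuousWithinAt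
  have key := max_principle_poles (K := closure d.Ω) (Ω := d.Ω) (P := d.P)
    (v := fun z => w z - 2 * Tp d.P d.D z) (B := B) d.hbdd.isCompact_closure d.hΩ subset_closure
    (hw.cont.sub hTc) ?_ ?_ ?_
  · intro z hz hzP
    have := key z (subset_closure hz) hzP
    linarith
  · intro z hz _
    have hz' : z ∈ frontier d.Ω := by rw [d.hΩ.frontier_eq]; exact hz
    have h1 := hw.bd z hz'
    have h2 := hB z hz'
    have h3 := d.Tp_nonneg hz.1
    linarith
  · intro z hz hzP _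
    have h1 : HarmonicAt (fun z => 2 * Tp d.P d.D z) z := by
      have := (Tp_harmonicAt d.hD hzP).const_smul (c := (2:ℝ))
      exact this
    exact (hw.sub z hz hzP).sub_harmonic h1
  · intro a ha
    obtain ⟨C, hC⟩ := hw.growth
    have h1 : Tendsto (fun z => C - Tp d.P d.D z) (𝓝[≠] a) atBot := by
      apply tendsto_atBot_add_const_left
      exact tendsto_neg_atTop_atBot.comp (Tp_tendsto d.hD ha)
    refine tendsto_atBot_mono' _ ?_ h1
    have h2 : d.Ω \ (d.P.erase a : Finset ℂ) ∈ 𝓝 a := by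
      apply (d.hΩ.sdiff (d.P.erase a).finite_toSet.isClosed).mem_nhds
      exact ⟨d.hP ha, by simp⟩
    filter_upwards [mem_nhdsWithin_of_mem_nhds h2, self_mem_nhdsWithin] with z hz hne
    have hzP : z ∉ d.P := by
      intro h
      exact hz.2 (by simp only [Finset.coe_erase, Set.mem_sdiff, Finset.mem_coe, mem_singleton_iff]
                     exact ⟨h, hne⟩)
    have := hC z hz.1 hzP
    linarith

end Pool.Agent.Helper93.LZ
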