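import Pool.Agent.Helper93.LZ.Fam

/-!
Modifications inside the Perron family and decay of sub-mean functions near the boundary.
-/

open Set Metric Filter Topology Complex MeasureTheory Real InnerProductSpace

namespace Pool.Agent.Helper93.LZ

/-- Poisson modification on a closed disc without poles -/
lemma Fam.poisson {d : Data} {w : ℂ → ℝ} (hw : Fam d w) {c : ℂ} {R : ℝ} (hR : 0 < R)
    (hcl : closedBall c R ⊆ d.Ω) (hP : ∀ a ∈ d.P, a ∉ closedBall c R) :
    Fam d (LZ.glue (ball c R) (pois c R w) w) ∧
      (∀ z ∈ closedBall c R, LZ.glue (ball c R) (pois c R w) w z = pois c R w z) := by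
  have hsubset : closedBall c R ⊆ closure d.Ω \ d.P := fun z hz =>
    ⟨subset_closure (hcl hz), fun h => hP z h hz⟩
  have hwc : ContinuousOn w (closedBall c R) := hw.cont.mono hsubset
  have hws : ContinuousOn w (sphere c R) := hwc.mono sphere_subset_closedBall
  have hpc := pois_continuousOn hR.le hws
  have hle := le_pois hR.le hwc (fun z hz => hw.sub z (hcl (ball_subset_closedBall hz))
    (fun h => hP z h (ball_subset_closedBall hz)))
  constructor
  · apply hw.glue isOpen_ball
    · rw [closure_ball c hR.ne']; exact hcl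
    · rw [closure_ball c hR.ne']
      exact hpc.mono sdiff_subset
    · intro z hz _
      exact subMeanAt_of_harmonicAt (pois_harmonic (hws.circleIntegrable hR.le) z hz)
    · intro z hz _
      rw [frontier_ball c hR.ne'] at hz
      rw [pois_sphere hz]
    · obtain ⟨M, hM⟩ := (isCompact_closedBall c R).exists_bound_of_continuousOn hpc
      refine ⟨M, fun z hz _ => ?_⟩
      have h1 := hM z (ball_subset_closedBall hz)
      have h2 := d.Tp_nonneg (subset_closure (hcl (ball_subset_closedBall hz)))
      have h3 := le_abs_self (pois c R w z)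
      rw [Real.norm_eq_abs] at h1
      linarith
  · intro z hz
    by_cases hzb : z ∈ ball c R
    · rw [glue_of_mem hzb, max_eq_right (hle z hz)]
    · rw [glue_of_notMem hzb, pois_of_notMem hzb]

/-- Poisson modification with a pole at the centre -/
lemma Fam.polePoisson {d : Data} {w : ℂ → ℝ} (hw : Fam d w) {a : ℂ} (ha : a ∈ d.P) {R : ℝ}
    (hR : 0 < R) (hcl : closedBall a R ⊆ d.Ω) (hP : ∀ b ∈ d.P, b ∈ closedBall a R → b = a) :
    Fam d (LZ.glue (ball a R) (fun z => Real.log (R / ‖z - a‖) + pois a R w z) w) ∧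
      (∀ z ∈ closedBall a R, z ≠ a →
        LZ.glue (ball a R) (fun z => Real.log (R / ‖z - a‖) + pois a R w z) w z =
          Real.log (R / ‖z - a‖) + pois a R w z) := by
  set ψ : ℂ → ℝ := fun z => Real.log (R / ‖z - a‖) + pois a R w z with hψ
  have hsubset : closedBall a R \ {a} ⊆ closure d.Ω \ d.P := fun z hz =>
    ⟨subset_closure (hcl hz.1), fun h => hz.2 (hP z h hz.1)⟩
  have hss : sphere a R ⊆ closedBall a R \ {a} := by
    intro z hz
    refine ⟨sphere_subset_closedBall hz, ?_⟩
    rintro rfl
    simp only [mem_sphere, dist_self] at hz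
    exact hR.ne hz
  have hwc : ContinuousOn w (closedBall a R \ {a}) := hw.cont.mono hsubset
  have hws : ContinuousOn w (sphere a R) := hwc.mono hss
  have hpc := pois_continuousOn hR.le hws
  have hph := pois_harmonic (hws.circleIntegrable hR.le)
  have hnotP : ∀ z ∈ closedBall a R, z ≠ a → z ∉ d.P := fun z hz hne h => hne (hP z h hz)
  have hRD : R ≤ d.D := by
    have h1 : a + (R:ℂ) ∈ closedBall a R := by simp [abs_of_pos hR]
    have h2 := d.hDa a ha _ (subset_closure (hcl h1))
    simpa [abs_of_pos hR] using h2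
  have hlogc : ContinuousOn (fun z => Real.log (R / ‖z - a‖)) (closedBall a R \ {a}) := by
    intro z hz
    exact (harmonicAt_log_div hR hz.2).1.continuousAt.continuousWithinAt
  have hψc : ContinuousOn ψ (closedBall a R \ {a}) := hlogc.add (hpc.mono sdiff_subset)
  have hlog_sphere : ∀ z ∈ sphere a R, Real.log (R / ‖z - a‖) = 0 := by
    intro z hz
    rw [mem_sphere_iff_norm] at hz
    rw [hz, div_self hR.ne', Real.log_one]
  have hlog0 : ∀ z ∈ closedBall a R, 0 ≤ Real.log (R / ‖z - a‖) := by
    intro z hz
    rw [mem_closedBall_iff_norm] at hz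
    by_cases h0 : ‖z - a‖ = 0
    · simp [h0]
    · apply Real.log_nonneg
      rw [le_div_iff₀ (lt_of_le_of_ne (norm_nonneg _) (Ne.symm h0))]
      simpa using hz
  obtain ⟨M, hM⟩ := (isCompact_closedBall a R).exists_bound_of_continuousOn hpc
  have hterm : ∀ z ∈ closedBall a R, Real.log (R / ‖z - a‖) ≤ Tp d.P d.D z := by
    intro z hz
    by_cases h0 : ‖z - a‖ = 0
    · rw [h0]; simp only [div_zero, Real.log_zero]
      exact d.Tp_nonneg (subset_closure (hcl hz))
    have hpos : 0 < ‖z - a‖ := lt_of_le_of_ne (norm_nonneg _) (Ne.symm h0)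
    have h1 : Real.log (R / ‖z - a‖) ≤ Real.log (d.D / ‖z - a‖) := by
      apply Real.log_le_log (by positivity)
      gcongr
    refine h1.trans ?_
    have h2 : ∀ b ∈ d.P, 0 ≤ Real.log (d.D / ‖z - b‖) := by
      intro b hb
      by_cases hz : ‖z - b‖ = 0
      · simp [hz]
      · apply Real.log_nonneg
        rw [le_div_iff₀ (lt_of_le_of_ne (norm_nonneg _) (Ne.symm hz))]
        simpa using d.hDa b hb z (subset_closure (hcl (by assumption)))
    exact Finset.single_le_sum h2 ha
  -- comparison
  have hle : ∀ z ∈ closedBall a R, z ≠ a → w z ≤ ψ z := by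
    intro z hz hne
    have hε : ∀ ε > 0, w z ≤ pois a R w z + (1 + ε) * Real.log (R / ‖z - a‖) := by
      intro ε hε
      have key := max_principle_poles (K := closedBall a R) (Ω := ball a R) (P := {a})
        (v := fun z => w z - pois a R w z - (1 + ε) * Real.log (R / ‖z - a‖)) (B := 0)
        (isCompact_closedBall a R) isOpen_ball ball_subset_closedBall ?_ ?_ ?_ ?_ z hz
        (by simpa using hne)
      · linarith
      · simp only [Finset.coe_singleton]
        exact (hwc.sub (hpc.mono sdiff_subset)).sub (continuousOn_const.mul hlogc)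
      · intro x hx _
        have hxs := mem_sphere_of_closedBall hx.1 hx.2
        rw [hlog_sphere x hxs, pois_sphere hxs]
        simp
      · intro x hx hxa _
        have hxa' : x ≠ a := by simpa using hxa
        have h1 := hw.sub x (hcl (ball_subset_closedBall hx))
          (hnotP x (ball_subset_closedBall hx) hxa')
        have h2 : HarmonicAt (fun z => (1 + ε) * Real.log (R / ‖z - a‖)) x := by
          have := (harmonicAt_log_div hR hxa').const_smul (c := 1 + ε)
          exact this
        exact (h1.sub_harmonic (hph x hx)).sub_harmonic h2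
      · intro b hb
        rw [Finset.mem_singleton] at hb
        subst hb
        obtain ⟨C, hC⟩ := hw.growth
        -- near b
        have h3 : ContinuousAt (Tp (d.P.erase b) d.D) b :=
          (Tp_harmonicAt d.hD (by simp)).1.continuousAt
        obtain ⟨C2, hC2⟩ : ∃ C2, ∀ᶠ x in 𝓝[≠] b, Tp (d.P.erase b) d.D x ≤ C2 := by
          refine ⟨Tp (d.P.erase b) d.D b + 1, ?_⟩
          have : ∀ᶠ x in 𝓝 b, Tp (d.P.erase b) d.D x < Tp (d.P.erase b) d.D b + 1 :=
            h3.eventually (gt_mem_nhds (by linarith))
          filter_upwards [this.filter_mono nhdsWithin_le_nhds] with x hx using hx.le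
        have h4 : Tendsto (fun x => (C + C2 + M + Real.log (d.D / R)) -
            ε * Real.log (R / ‖x - b‖)) (𝓝[≠] b) atBot := by
          apply tendsto_atBot_add_const_left
          apply tendsto_neg_atTop_atBot.comp
          exact (tendsto_log_div_atTop hR b).const_mul_atTop hε
        refine tendsto_atBot_mono' _ ?_ h4
        have h5 : ball b R ∈ 𝓝 b := isOpen_ball.mem_nhds (mem_ball_self hR)
        filter_upwards [mem_nhdsWithin_of_mem_nhds h5, self_mem_nhdsWithin, hC2] with x hx hne hx2
        have hxc := ball_subset_closedBall hx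
        have hpos : 0 < ‖x - b‖ := norm_pos_iff.2 (sub_ne_zero.2 hne)
        have h6 := hC x (hcl hxc) (hnotP x hxc hne)
        have h7 : Tp d.P d.D x = Real.log (d.D / ‖x - b‖) + Tp (d.P.erase b) d.D x := by
          rw [Tp, ← Finset.add_sum_erase _ _ ha]; rfl
        have h8 := (abs_le.1 (hM x hxc)).1
        have h9 : Real.log (d.D / ‖x - b‖) = Real.log (d.D / R) + Real.log (R / ‖x - b‖) := by
          rw [Real.log_div d.hD.ne' hpos.ne', Real.log_div d.hD.ne' hR.ne',
            Real.log_div hR.ne' hpos.ne']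
          ring
        linarith
    have h0 := hlog0 z hz
    have hlim : Tendsto (fun ε : ℝ => pois a R w z + (1 + ε) * Real.log (R / ‖z - a‖)) (𝓝[>] 0)
        (𝓝 (pois a R w z + (1 + 0) * Real.log (R / ‖z - a‖))) := by
      apply Tendsto.mono_left _ nhdsWithin_le_nhds
      apply Continuous.tendsto
      fun_prop
    have := ge_of_tendsto hlim (by filter_upwards [self_mem_nhdsWithin] with ε hε' using hε ε hε')
    simp only [hψ]
    linarith
  constructor
  · apply hw.glue isOpen_ball
    · rw [closure_ball a hR.ne']; exact hcl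
    · rw [closure_ball a hR.ne']
      apply hψc.mono
      intro z hz
      exact ⟨hz.1, fun h => hz.2 (by rw [mem_singleton_iff] at h; rw [h]; exact ha)⟩
    · intro z hz hzP
      have hne : z ≠ a := fun h => hzP (h ▸ ha)
      exact (subMeanAt_of_harmonicAt (harmonicAt_log_div hR hne)).add
        (subMeanAt_of_harmonicAt (hph z hz))
    · intro z hz _
      rw [frontier_ball a hR.ne'] at hz
      simp only [hψ]
      rw [pois_sphere hz, hlog_sphere z hz, zero_add]
    · refine ⟨M, fun z hz _ => ?_⟩
      have h1 := hM z (ball_subset_closedBall hz)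
      have h3 := le_abs_self (pois a R w z)
      have h4 := hterm z (ball_subset_closedBall hz)
      rw [Real.norm_eq_abs] at h1
      simp only [hψ]
      linarith
  · intro z hz hne
    by_cases hzb : z ∈ ball a R
    · rw [glue_of_mem hzb, max_eq_right (hle z hz hne)]
    · rw [glue_of_notMem hzb]
      have hzs := mem_sphere_of_closedBall hz hzb
      rw [pois_sphere hzs, hlog_sphere z hzs, zero_add]

/-- start of a chain: a lower bound on a ball from a value at the centre -/
lemma Fam.start {d : Data} {w : ℂ → ℝ} (hw : Fam d w) {c : ℂ} {R : ℝ} (hR : 0 < R)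
    (hcl : closedBall c R ⊆ d.Ω) (hP : ∀ a ∈ d.P, a ∉ closedBall c R) :
    ∃ w', Fam d w' ∧ ∀ z ∈ closedBall c (R / 2), w c / 3 ≤ w' z := by
  obtain ⟨h1, h2⟩ := hw.poisson hR hcl hP
  refine ⟨_, h1, fun z hz => ?_⟩
  have hsubset : closedBall c R ⊆ closure d.Ω \ d.P := fun z hz =>
    ⟨subset_closure (hcl hz), fun h => hP z h hz⟩
  have hwc : ContinuousOn w (closedBall c R) := hw.cont.mono hsubset
  have hws : ContinuousOn w (sphere c R) := hwc.mono sphere_subset_closedBall
  have hle := le_pois hR.le hwc (fun z hz => hw.sub z (hcl (ball_subset_closedBall hz))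
    (fun h => hP z h (ball_subset_closedBall hz)))
  rw [mem_closedBall] at hz
  rw [h2 z (by rw [mem_closedBall]; linarith)]
  have h3 := pois_harnack hR hws (fun ξ hξ => hw.nonneg ξ
    (hsubset (sphere_subset_closedBall hξ)).1 (hsubset (sphere_subset_closedBall hξ)).2) hz
  have h4 := hle c (mem_closedBall_self hR.le)
  linarith

/-- one step of a chain: enlarging the ball on which a lower bound holds -/
lemma Fam.step {d : Data} {w : ℂ → ℝ} (hw : Fam d w) {x : ℂ} {σ ρ b : ℝ} (hσ : 0 < σ)
    (hσρ : σ ≤ ρ / 2) (hb : 0 ≤ b) (hcl : closedBall x ρ ⊆ d.Ω)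
    (hlow : ∀ z ∈ closedBall x σ, z ∉ d.P → b ≤ w z) :
    ∃ w', Fam d w' ∧ ∀ z ∈ closedBall x (ρ / 2), z ∉ d.P →
      b * (Real.log 2 / Real.log (ρ / σ)) ≤ w' z := by
  have hρ : 0 < ρ := by linarith
  set ψ : ℂ → ℝ := fun z => (b / Real.log (ρ / σ)) * Real.log (ρ / ‖z - x‖) with hψ
  set U : Set ℂ := ball x ρ \ closedBall x σ with hU
  have hlogpos : 0 < Real.log (ρ / σ) := by
    apply Real.log_pos
    rw [lt_div_iff₀ hσ]; linarith
  have hUo : IsOpen U := isOpen_ball.sdiff isClosed_closedBall
  have hUc : closure U ⊆ closedBall x ρ \ ball x σ := by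
    apply closure_minimal
    · exact sdiff_subset_sdiff ball_subset_closedBall ball_subset_closedBall
    · exact (isCompact_closedBall x ρ).isClosed.sdiff isOpen_ball
  have hne : ∀ z ∈ closure U, z ≠ x := by
    rintro z hz rfl
    exact (hUc hz).2 (mem_ball_self hσ)
  have hψh : ∀ z, z ≠ x → HarmonicAt ψ z := by
    intro z hz
    exact (harmonicAt_log_div hρ hz).const_smul
  have hcoef : 0 ≤ b / Real.log (ρ / σ) := by positivity
  have hfam : Fam d (LZ.glue U ψ w) := by
    apply hw.glue hUo (hUc.trans (sdiff_subset.trans hcl))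
    · intro z hz
      exact (hψh z (hne z hz.1)).1.continuousAt.continuousWithinAt
    · intro z hz _
      exact subMeanAt_of_harmonicAt (hψh z (hne z (subset_closure hz)))
    · intro z hz hzP
      rw [hUo.frontier_eq] at hz
      have hzc := hUc hz.1
      have hn1 : ‖z - x‖ ≤ ρ := by simpa [dist_eq_norm] using hzc.1
      have hn2 : σ ≤ ‖z - x‖ := by simpa [dist_eq_norm] using hzc.2
      have hor : ‖z - x‖ = ρ ∨ ‖z - x‖ = σ := by
        by_contra hcon
        rw [not_or] at hcon
        apply hz.2
        refine ⟨?_, ?_⟩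
        · rw [mem_ball_iff_norm]; exact lt_of_le_of_ne hn1 hcon.1
        · rw [mem_closedBall_iff_norm, not_le]; exact lt_of_le_of_ne hn2 (Ne.symm hcon.2)
      rcases hor with h | h
      · simp only [hψ]
        rw [h, div_self hρ.ne', Real.log_one, mul_zero]
        exact hw.nonneg z (subset_closure (hcl hzc.1)) hzP
      · simp only [hψ]
        rw [h, div_mul_cancel₀ _ hlogpos.ne']
        exact hlow z (by rw [mem_closedBall_iff_norm, h]) hzP
    · refine ⟨b, fun z hz _ => ?_⟩
      have hzc := hUc (subset_closure hz)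
      have hn2 : σ ≤ ‖z - x‖ := by simpa [dist_eq_norm] using hzc.2
      have h1 : ψ z ≤ b := by
        simp only [hψ]
        calc (b / Real.log (ρ / σ)) * Real.log (ρ / ‖z - x‖)
            ≤ (b / Real.log (ρ / σ)) * Real.log (ρ / σ) := by
              apply mul_le_mul_of_nonneg_left _ hcoef
              apply Real.log_le_log
              · have : 0 < ‖z - x‖ := by linarith
                positivity
              · gcongr
          _ = b := div_mul_cancel₀ _ hlogpos.ne'
      have h2 := d.Tp_nonneg (subset_closure (hcl hzc.1))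
      linarith
  refine ⟨_, hfam, fun z hz hzP => ?_⟩
  rw [mem_closedBall_iff_norm] at hz
  by_cases hzσ : ‖z - x‖ ≤ σ
  · have h1 := hlow z (by rwa [mem_closedBall_iff_norm]) hzP
    refine le_trans ?_ (h1.trans (le_glue U ψ w z))
    have h2 : Real.log 2 / Real.log (ρ / σ) ≤ 1 := by
      rw [div_le_one hlogpos]
      apply Real.log_le_log (by norm_num)
      rw [le_div_iff₀ hσ]; linarith
    nlinarith
  · rw [not_le] at hzσ
    have hzU : z ∈ U := by
      refine ⟨?_, ?_⟩
      · rw [mem_ball_iff_norm]; linarith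
      · rw [mem_closedBall_iff_norm, not_le]; exact hzσ
    rw [glue_of_mem hzU]
    refine le_trans ?_ (le_max_right _ _)
    simp only [hψ]
    have hpos : 0 < ‖z - x‖ := by linarith
    have h3 : Real.log 2 ≤ Real.log (ρ / ‖z - x‖) := by
      apply Real.log_le_log (by norm_num)
      rw [le_div_iff₀ hpos]; linarith
    calc b * (Real.log 2 / Real.log (ρ / σ)) = (b / Real.log (ρ / σ)) * Real.log 2 := by ring
      _ ≤ _ := mul_le_mul_of_nonneg_left h3 hcoef

/-! ### decay -/

/-- decay factor -/
noncomputable def qf (c : ℝ) : ℝ := 1 - Real.log 2 / Real.log (3 / (4 * c))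

lemma qf_log_pos {c : ℝ} (hc : 0 < c) (hc1 : c ≤ 1 / 4) : Real.log 2 < Real.log (3 / (4 * c)) := by
  apply Real.log_lt_log (by norm_num)
  rw [lt_div_iff₀ (by positivity)]; linarith

lemma qf_pos {c : ℝ} (hc : 0 < c) (hc1 : c ≤ 1 / 4) : 0 < qf c := by
  have h1 := qf_log_pos hc hc1
  have h2 : 0 < Real.log 2 := Real.log_pos (by norm_num)
  rw [qf, sub_pos, div_lt_one (h2.trans h1)]
  exact h1

lemma qf_lt_one {c : ℝ} (hc : 0 < c) (hc1 : c ≤ 1 / 4) : qf c < 1 := by
  have h1 := qf_log_pos hc hc1
  have h2 : 0 < Real.log 2 := Real.log_pos (by norm_num)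
  rw [qf]
  have : 0 < Real.log 2 / Real.log (3 / (4 * c)) := div_pos h2 (h2.trans h1)
  linarith

lemma decay_step {W : ℂ → ℝ} {p : ℂ} {s : ℝ} (hs : 0 < s) (hW : ContinuousOn W (closedBall p s))
    (hsub : ∀ z ∈ ball p s, 0 < W z → SubMeanAt W z) {y : ℂ} {c : ℝ} (hc : 0 < c)
    (hc1 : c ≤ 1 / 4) (hy : dist y p ≤ s / 4) (hball : ∀ z ∈ closedBall y (c * s), W z = 0)
    {M : ℝ} (hM0 : 0 ≤ M) (hM : ∀ z ∈ closedBall p s, W z ≤ M) :
    ∀ z ∈ closedBall p (s / 8), W z ≤ qf c * M := by
  have hlog := qf_log_pos hc hc1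
  have hlog2 : 0 < Real.log 2 := Real.log_pos (by norm_num)
  set Λ := Real.log (3 / (4 * c)) with hΛ
  have hΛ0 : 0 < Λ := hlog2.trans hlog
  set ψ : ℂ → ℝ := fun z => (M / Λ) * (Real.log ‖z - y‖ - Real.log (c * s)) with hψ
  have hcs : 0 < c * s := by positivity
  have hK : IsCompact (closedBall p s \ ball y (c * s)) := (isCompact_closedBall p s).diff isOpen_ball
  have hne : ∀ z ∉ ball y (c * s), z ≠ y := by
    rintro z hz rfl
    exact hz (mem_ball_self hcs)
  have hψh : ∀ z, z ≠ y → HarmonicAt ψ z := by
    intro z hz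
    exact ((harmonicAt_log_sub hz).sub (harmonicAt_const _)).const_smul
  have hcoef : 0 ≤ M / Λ := by positivity
  have hψ0 : ∀ z ∉ ball y (c * s), 0 ≤ ψ z := by
    intro z hz
    rw [mem_ball_iff_norm, not_lt] at hz
    apply mul_nonneg hcoef
    rw [sub_nonneg]
    exact Real.log_le_log hcs hz
  have key := max_principle (Ω := ball p s \ closedBall y (c * s)) (X := fun z => W z - ψ z)
    (B := 0) hK (isOpen_ball.sdiff isClosed_closedBall) ?_
    (sdiff_subset_sdiff ball_subset_closedBall ball_subset_closedBall) ?_ ?_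
  · intro z hz
    by_cases hzy : z ∈ ball y (c * s)
    · rw [hball z (ball_subset_closedBall hzy)]
      exact mul_nonneg (qf_pos hc hc1).le hM0
    · have hzs : z ∈ closedBall p s := closedBall_subset_closedBall (by linarith) hz
      have h1 := key z ⟨hzs, hzy⟩
      have h2 : ψ z ≤ qf c * M := by
        have hpos : 0 < ‖z - y‖ := norm_pos_iff.2 (sub_ne_zero.2 (hne z hzy))
        have h3 : ‖z - y‖ ≤ 3 * s / 8 := by
          have := dist_triangle z p y
          rw [dist_comm p y] at this
          rw [mem_closedBall] at hz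
          rw [← dist_eq_norm]
          linarith
        have h4 : Real.log ‖z - y‖ - Real.log (c * s) ≤ Λ - Real.log 2 := by
          have h5 : Real.log ‖z - y‖ ≤ Real.log (3 * s / 8) := Real.log_le_log hpos h3
          have h6 : Real.log (3 * s / 8) - Real.log (c * s) = Λ - Real.log 2 := by
            rw [hΛ, ← Real.log_div (by positivity) (by positivity),
              ← Real.log_div (by positivity) (by positivity)]
            congr 1
            field_simp
            norm_num
          linarith
        calc ψ z = (M / Λ) * (Real.log ‖z - y‖ - Real.log (c * s)) := rfl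
          _ ≤ (M / Λ) * (Λ - Real.log 2) := mul_le_mul_of_nonneg_left h4 hcoef
          _ = qf c * M := by
            rw [qf, ← hΛ]; field_simp
      linarith
  · apply (hW.mono sdiff_subset).sub
    intro z hz
    exact (hψh z (hne z hz.2)).1.continuousAt.continuousWithinAt
  · rintro z ⟨⟨hz1, hz2⟩, hz3⟩
    have h0 := hψ0 z hz2
    by_cases hzc : z ∈ closedBall y (c * s)
    · rw [hball z hzc]; linarith
    · have hzs : z ∈ sphere p s := by
        apply mem_sphere_of_closedBall hz1
        intro h
        exact hz3 ⟨h, hzc⟩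
      have hd : 3 * s / 4 ≤ ‖z - y‖ := by
        rw [mem_sphere] at hzs
        have := dist_triangle z y p
        rw [dist_eq_norm z y] at this
        linarith
      have h4 : Λ ≤ Real.log ‖z - y‖ - Real.log (c * s) := by
        have h5 : Real.log (3 * s / 4) ≤ Real.log ‖z - y‖ := Real.log_le_log (by positivity) hd
        have h6 : Real.log (3 * s / 4) - Real.log (c * s) = Λ := by
          rw [hΛ, ← Real.log_div (by positivity) (by positivity)]
          congr 1
          field_simp
        linarith
      have h5 : M ≤ ψ z := by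
        calc M = (M / Λ) * Λ := by field_simp
          _ ≤ _ := mul_le_mul_of_nonneg_left h4 hcoef
      have := hM z hz1
      linarith
  · intro z hz h0
    have h1 : z ∉ ball y (c * s) := fun h => hz.2 (ball_subset_closedBall h)
    have h2 := hψ0 z h1
    exact ((hsub z hz.1 (by linarith)).sub_harmonic (hψh z (hne z h1))).maxProp

/-- iterated decay -/
lemma decay_iter {W : ℂ → ℝ} {p : ℂ} {s : ℝ} (hs : 0 < s) (hW : ContinuousOn W (closedBall p s))
    (hsub : ∀ z ∈ ball p s, 0 < W z → SubMeanAt W z) {c : ℝ} (hc : 0 < c)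
    (hc1 : c ≤ 1 / 4) {M : ℝ} (hM0 : 0 ≤ M) (hM : ∀ z ∈ closedBall p s, W z ≤ M) (n : ℕ)
    (hball : ∀ k < n, ∃ y, dist y p ≤ (s / 8 ^ k) / 4 ∧
      ∀ z ∈ closedBall y (c * (s / 8 ^ k)), W z = 0) :
    ∀ z ∈ closedBall p (s / 8 ^ n), W z ≤ (qf c) ^ n * M := by
  induction n with
  | zero => simpa using hM
  | succ n ih =>
    have ih' := ih (fun k hk => hball k (Nat.lt_succ_of_lt hk))
    obtain ⟨y, hy, hyb⟩ := hball n (Nat.lt_succ_self n)
    have hle : s / 8 ^ n ≤ s := by
      apply div_le_self hs.le
      exact one_le_pow₀ (by norm_num)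
    have hpos : 0 < s / 8 ^ n := by positivity
    have := decay_step hpos (hW.mono (closedBall_subset_closedBall hle))
      (fun z hz h0 => hsub z (ball_subset_ball hle hz) h0) hc hc1 hy hyb
      (M := (qf c) ^ n * M) (mul_nonneg (pow_nonneg (qf_pos hc hc1).le _) hM0) ih'
    intro z hz
    have h1 := this z (by
      rw [pow_succ, ← div_div] at hz
      exact hz)
    rw [pow_succ]
    linarith

end Pool.Agent.Helper93.LZ
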