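import Pool.Agent.Helper93.LZ.Fam2

/-!
Geometry: cone condition, fattened domains.
-/

open Set Metric Filter Topology Complex MeasureTheory Real InnerProductSpace

namespace Pool.Agent.Helper93.LZ

/-- the direction `ν` works as an interior direction of `G` near `ζ` -/
def IsDir (G : Set ℂ) (r κ : ℝ) (ζ ν : ℂ) : Prop :=
  ‖ν‖ = 1 ∧ ∀ z ∈ closure G, dist z ζ < r → ∀ t : ℝ, 0 < t → t < r →
    ball (z + t * ν) (κ * t) ⊆ G

/-- uniform two-sided cone condition (equivalent to being a Lipschitz domain) -/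
structure ConeDom (G : Set ℂ) (r κ : ℝ) : Prop where
  isOpen : IsOpen G
  bdd : Bornology.IsBounded G
  r_pos : 0 < r
  κ_pos : 0 < κ
  κ_le : κ ≤ 1 / 4
  cone : ∀ ζ ∈ frontier G, ∃ ν : ℂ, IsDir G r κ ζ ν

/-- admissible fattening functions -/
structure Fatt (G : Set ℂ) (r κ : ℝ) (ρ : ℂ → ℝ) : Prop where
  pos : ∀ z ∈ G, 0 < ρ z
  nonneg : ∀ z, 0 ≤ ρ z
  lip : ∀ z w, ρ z - ρ w ≤ κ / 4 * dist z w
  small : ∀ z, ρ z ≤ κ ^ 2 * r / 64

/-- the fattened domain -/
def fat (G : Set ℂ) (ρ : ℂ → ℝ) : Set ℂ := {z | infDist z G < ρ z}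

lemma mem_fat {G : Set ℂ} {ρ : ℂ → ℝ} {z : ℂ} : z ∈ fat G ρ ↔ infDist z G < ρ z := Iff.rfl

lemma Fatt.continuous {G : Set ℂ} {r κ : ℝ} {ρ : ℂ → ℝ} (h : Fatt G r κ ρ) : Continuous ρ := by
  have : LipschitzWith (Real.toNNReal (κ / 4)) ρ := by
    apply LipschitzWith.of_dist_le_mul
    intro x y
    rw [Real.dist_eq, abs_le]
    have h1 := h.lip x y
    have h2 := h.lip y x
    rw [dist_comm] at h2
    have h3 : κ / 4 * dist x y ≤ (Real.toNNReal (κ / 4)) * dist x y := by
      gcongr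
      exact Real.le_coe_toNNReal _
    constructor <;> linarith
  exact this.continuous

lemma Fatt.small' {G : Set ℂ} {r κ : ℝ} {ρ : ℂ → ℝ} (h : Fatt G r κ ρ) (hG : ConeDom G r κ)
    (z : ℂ) : ρ z ≤ κ * r / 64 := by
  have h1 := h.small z
  have hκ := hG.κ_pos
  have hκ1 := hG.κ_le
  have hr := hG.r_pos
  have h2 : κ ^ 2 * r ≤ κ * r := by
    have : κ ^ 2 ≤ κ := by nlinarith
    nlinarith
  linarith

lemma isOpen_fat {G : Set ℂ} {r κ : ℝ} {ρ : ℂ → ℝ} (h : Fatt G r κ ρ) : IsOpen (fat G ρ) :=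
  isOpen_lt (continuous_infDist_pt G) h.continuous

lemma bounded_fat {G : Set ℂ} {r κ : ℝ} {ρ : ℂ → ℝ} (h : Fatt G r κ ρ)
    (hG : Bornology.IsBounded G) (hne : G.Nonempty) : Bornology.IsBounded (fat G ρ) := by
  have h1 : fat G ρ ⊆ Metric.thickening (κ ^ 2 * r / 64 + 1) G := by
    intro z hz
    rw [Metric.mem_thickening_iff_infDist_lt hne]
    have := h.small z
    rw [mem_fat] at hz
    linarith
  exact hG.thickening.subset h1

lemma exists_near {G : Set ℂ} {ρ : ℂ → ℝ} (hne : G.Nonempty) {z : ℂ} (hz : z ∈ fat G ρ) :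
    ∃ q ∈ G, dist z q < ρ z := by
  rw [mem_fat, infDist_lt_iff hne] at hz
  exact hz

/-- distance to a set containing a ball -/
lemma infDist_le_of_ball {G : Set ℂ} {c w : ℂ} {R : ℝ} (hR : 0 < R) (hb : ball c R ⊆ G)
    (hw : w ∉ ball c R) : infDist w G ≤ dist w c - R := by
  have hd : R ≤ dist w c := by simpa using hw
  have hd0 : 0 < dist w c := hR.trans_le hd
  apply le_of_forall_pos_le_add
  intro ε hε
  -- the point on the segment
  set s : ℝ := (R - min ε (R / 2)) / dist w c with hs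
  have hmin : 0 < min ε (R / 2) := by positivity
  have hmin2 : min ε (R / 2) ≤ R / 2 := min_le_right _ _
  have hs0 : 0 ≤ s := div_nonneg (by linarith) hd0.le
  have hs1 : s ≤ 1 := by
    rw [hs, div_le_one hd0]; linarith
  set p : ℂ := c + s * (w - c) with hp
  have hdp : dist p c = R - min ε (R / 2) := by
    rw [dist_eq_norm, hp, add_sub_cancel_left, norm_mul, Complex.norm_real, Real.norm_eq_abs,
      abs_of_nonneg hs0, ← dist_eq_norm, hs, div_mul_cancel₀ _ hd0.ne']
  have hpG : p ∈ G := hb (by rw [mem_ball, hdp]; linarith)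
  refine (infDist_le_dist_of_mem hpG).trans ?_
  have h2 : dist w p = (1 - s) * dist w c := by
    have : w - p = ((1 - s : ℝ) : ℂ) * (w - c) := by
      rw [hp]; push_cast; ring
    rw [dist_eq_norm, this, norm_mul, Complex.norm_real, Real.norm_eq_abs,
      abs_of_nonneg (by linarith), ← dist_eq_norm]
  have h3 : s * dist w c = R - min ε (R / 2) := by
    rw [hs, div_mul_cancel₀ _ hd0.ne']
  rw [h2]
  have := min_le_left ε (R / 2)
  nlinarith

section

variable {G : Set ℂ} {r κ : ℝ} {ρ : ℂ → ℝ} {ζ ν : ℂ}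

lemma dist_add_dir (hν : ‖ν‖ = 1) (z : ℂ) {t : ℝ} (ht : 0 ≤ t) : dist (z + t * ν) z = t := by
  rw [dist_eq_norm, add_sub_cancel_left, norm_mul, hν, Complex.norm_real, Real.norm_eq_abs,
    abs_of_nonneg ht, mul_one]

/-- the fattened domain satisfies the cone condition with a smaller aperture -/
lemma fat_cone (hG : ConeDom G r κ) (hne : G.Nonempty) (hρ : Fatt G r κ ρ)
    (hν : IsDir G r κ ζ ν) {z : ℂ} (hz : z ∈ fat G ρ) (hd : dist z ζ < r / 2) {t : ℝ}
    (ht : 0 < t) (htr : t < r / 2) : ball (z + t * ν) (κ / 4 * t) ⊆ fat G ρ := by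
  obtain ⟨q, hqG, hq⟩ := exists_near hne hz
  have hκ := hG.κ_pos
  have hκ1 := hG.κ_le
  have hr := hG.r_pos
  have hsm := hρ.small' hG z
  have hqζ : dist q ζ < r := by
    have h1 := dist_triangle_left q ζ z
    nlinarith
  have hball := hν.2 q (subset_closure hqG) hqζ t ht (by linarith)
  intro w hw
  rw [mem_ball] at hw
  have hwz : dist z w < t + κ / 4 * t := by
    have h1 := dist_triangle z (z + t * ν) w
    rw [dist_comm z (z + t * ν), dist_add_dir hν.1 z ht.le, dist_comm (z + t * ν) w] at h1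
    linarith
  have hρw : ρ z - κ / 2 * t ≤ ρ w := by
    have h1 := hρ.lip z w
    have h2 : κ / 4 * dist z w ≤ κ / 4 * (2 * t) := by
      apply mul_le_mul_of_nonneg_left _ (by positivity)
      nlinarith
    linarith
  rw [mem_fat]
  have hzq : dist (z + t * ν) (q + t * ν) = dist z q := by
    rw [dist_add_right]
  have hwq : dist w (q + t * ν) < κ / 4 * t + dist z q := by
    have h1 := dist_triangle w (z + t * ν) (q + t * ν)
    rw [hzq] at h1
    linarith
  have hρw0 : 0 < ρ z := (infDist_nonneg).trans_lt hz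
  by_cases hwb : w ∈ ball (q + t * ν) (κ * t)
  · have hwG : w ∈ G := hball hwb
    rw [infDist_zero_of_mem hwG]
    exact hρ.pos w hwG
  · have h1 := infDist_le_of_ball (by positivity) hball hwb
    nlinarith

lemma G_subset_fat (hρ : Fatt G r κ ρ) : G ⊆ fat G ρ := by
  intro z hz
  rw [mem_fat, infDist_zero_of_mem hz]
  exact hρ.pos z hz

/-- exterior cone condition for the fattened domain -/
lemma fat_ext (hG : ConeDom G r κ) (hne : G.Nonempty) (hρ : Fatt G r κ ρ)
    (hν : IsDir G r κ ζ ν) {p : ℂ} (hp : p ∉ fat G ρ) (hd : dist p ζ < r / 4) {t : ℝ}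
    (ht : 0 < t) (htr : t < r / 8) : ∀ y ∈ ball (p - t * ν) (κ / 4 * t), y ∉ fat G ρ := by
  intro y hy hyf
  have hκ := hG.κ_pos
  have hκ1 := hG.κ_le
  have hr := hG.r_pos
  rw [mem_ball] at hy
  have h1 : dist (p - t * ν) p = t := by
    rw [dist_eq_norm, sub_sub_cancel_left, norm_neg, norm_mul, hν.1, Complex.norm_real,
      Real.norm_eq_abs, abs_of_pos ht, mul_one]
  have h2 : dist y ζ < r / 2 := by
    have h3 := dist_triangle4 y (p - t * ν) p ζ
    rw [h1] at h3
    nlinarith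
  have h4 := fat_cone hG hne hρ hν hyf h2 ht (by linarith)
  apply hp
  apply h4
  rw [mem_ball]
  have h5 : dist p (y + t * ν) = dist y (p - t * ν) := by
    rw [dist_eq_norm, dist_eq_norm, ← norm_neg]
    congr 1; ring
  rw [h5]
  exact hy

/-- distance to `G` of exterior points along the cone direction -/
lemma ext_infDist (hG : ConeDom G r κ) (hne : G.Nonempty)
    (hν : IsDir G r κ ζ ν) {b : ℂ} (hb : b ∉ G) (hbζ : dist b ζ < r / 4) {t : ℝ}
    (ht : 0 < t) (htr : t < r / 2) (y : ℂ) : κ * t - dist y (b - t * ν) ≤ infDist y G := by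
  have hκ := hG.κ_pos
  have hκ1 := hG.κ_le
  have hr := hG.r_pos
  rw [le_infDist hne]
  intro g hg
  by_contra hcon
  rw [not_le] at hcon
  have h1 : dist g (b - t * ν) < κ * t := by
    have := dist_triangle_left g (b - t * ν) y
    linarith
  have h2 : dist (b - t * ν) b = t := by
    rw [dist_eq_norm, sub_sub_cancel_left, norm_neg, norm_mul, hν.1, Complex.norm_real,
      Real.norm_eq_abs, abs_of_pos ht, mul_one]
  have h3 : dist g ζ < r := by
    have h3 := dist_triangle4 g (b - t * ν) b ζ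
    rw [h2] at h3
    nlinarith
  have h4 := hν.2 g (subset_closure hg) h3 t ht (by linarith)
  apply hb
  apply h4
  rw [mem_ball]
  have h5 : dist b (g + t * ν) = dist g (b - t * ν) := by
    rw [dist_eq_norm, dist_eq_norm, ← norm_neg]
    congr 1; ring
  rw [h5]
  exact h1

end

end Pool.Agent.Helper93.LZ
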