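import Pool.Agent.Helper93.LZ.Conj
import Pool.Agent.Helper93.LZ.Cousin
import Pool.Agent.Helper93.LZ.Fam

/-!
Patching local conjugates: analytic functions whose modulus is comparable to the
exponential of a given harmonic function with poles.
-/

open Set Metric Filter Topology Complex MeasureTheory Real InnerProductSpace

namespace Pool.Agent.Helper93.LZ

/-- a finite cover together with the existence of local conjugates with constant differences -/
structure GoodCover (Ω : Set ℂ) (ι : Type) (U : ι → Set ℂ) : Prop where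
  isOpen : ∀ i, IsOpen (U i)
  bdd : ∀ i, Bornology.IsBounded (U i)
  cover : closure Ω ⊆ ⋃ i, U i
  conj : ∀ H, HarmonicOnNhd H Ω → ∃ h : ι → ℂ → ℂ,
    (∀ i, ∀ z ∈ Ω, z ∈ U i → DifferentiableAt ℂ (h i) z ∧ (h i z).re = H z) ∧
    ∀ i j, ∃ c : ℝ, ∀ z ∈ Ω, z ∈ U i → z ∈ U j → h i z - h j z = I * c

lemma ball_subset_or {G : Set ℂ} (hGo : IsOpen G) (hne : G.Nonempty) {z : ℂ} {s : ℝ}
    (h1 : infDist z G < s) (h2 : ∀ ζ ∈ frontier G, s ≤ dist z ζ) : ball z s ⊆ G := by
  by_contra hcon
  rw [not_subset] at hcon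
  obtain ⟨x, hx, hxG⟩ := hcon
  obtain ⟨y, hyG, hy⟩ := (infDist_lt_iff hne).1 h1
  have hpre : IsPreconnected (ball z s) := (convex_ball z s).isPreconnected
  have hnf : ∀ ζ ∈ ball z s, ζ ∉ frontier G := by
    intro ζ hζb hζ
    have := h2 ζ hζ
    rw [mem_ball, dist_comm] at hζb
    linarith
  obtain ⟨p, -, hp1, hp2⟩ := hpre G (closure G)ᶜ hGo isClosed_closure.isOpen_compl
    (fun p hp => by
      by_cases hpc : p ∈ closure G
      · by_cases hpG : p ∈ G
        · exact Or.inl hpG
        · exact absurd (by rw [hGo.frontier_eq]; exact ⟨hpc, hpG⟩) (hnf p hp)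
      · exact Or.inr hpc)
    ⟨y, by rw [mem_ball, dist_comm]; exact hy, hyG⟩
    ⟨x, hx, fun hxc => hnf x hx (by rw [hGo.frontier_eq]; exact ⟨hxc, hxG⟩)⟩
  exact hp2 (subset_closure hp1)

theorem exists_goodCover {G : Set ℂ} {r κ : ℝ} {ρ : ℂ → ℝ} (hG : ConeDom G r κ)
    (hne : G.Nonempty) (hρ : Fatt G r κ ρ) :
    ∃ (ι : Type) (_ : Fintype ι) (U : ι → Set ℂ), GoodCover (fat G ρ) ι U := by
  classical
  have hκ := hG.κ_pos
  have hκ1 := hG.κ_le
  have hr := hG.r_pos
  set s : ℝ := κ ^ 2 * r / 8 with hs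
  set s' : ℝ := κ * r / 4 with hs'
  have hs0 : 0 < s := by positivity
  have hκκ : κ ^ 2 ≤ κ / 4 := by nlinarith
  have hss' : s ≤ s' / 8 := by
    rw [hs, hs']; nlinarith
  have hΩo : IsOpen (fat G ρ) := isOpen_fat hρ
  have hΩb : Bornology.IsBounded (fat G ρ) := bounded_fat hρ hG.bdd hne
  have hclos : ∀ z ∈ closure (fat G ρ), infDist z G < s := by
    intro z hz
    have h1 : closure (fat G ρ) ⊆ {z | infDist z G ≤ ρ z} := by
      apply closure_minimal
      · intro x hx; exact (mem_fat.1 hx).le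
      · exact isClosed_le (continuous_infDist_pt G) hρ.continuous
    have h2 : infDist z G ≤ ρ z := h1 hz
    have h3 := hρ.small z
    have : κ ^ 2 * r / 64 < s := by rw [hs]; linarith [show 0 < κ ^ 2 * r by positivity]
    linarith
  -- centres
  have hcent : ∀ z : ℂ, ∃ c, z ∈ closure (fat G ρ) →
      z ∈ ball c s ∧ (c ∈ frontier G ∨ (c ∉ frontier G ∧ ball c s ⊆ G)) := by
    intro z
    by_cases hz : z ∈ closure (fat G ρ)
    · by_cases hζ : ∃ ζ ∈ frontier G, dist z ζ < s
      · obtain ⟨ζ, hζ, hd⟩ := hζ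
        exact ⟨ζ, fun _ => ⟨hd, Or.inl hζ⟩⟩
      · push Not at hζ
        have hb := ball_subset_or hG.isOpen hne (hclos z hz) hζ
        refine ⟨z, fun _ => ⟨mem_ball_self hs0, Or.inr ⟨fun h => ?_, hb⟩⟩⟩
        have := hζ z h
        rw [dist_self] at this
        linarith
    · exact ⟨0, fun h => absurd h hz⟩
  choose c hc using hcent
  obtain ⟨t, htK, htcov⟩ := hΩb.isCompact_closure.elim_nhds_subcover (fun z => ball (c z) s)
    (fun z hz => isOpen_ball.mem_nhds (hc z hz).1)
  have hct : ∀ i : {x // x ∈ t}, c i ∈ frontier G ∨ (c i ∉ frontier G ∧ ball (c i) s ⊆ G) :=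
    fun i => (hc i (htK i i.2)).2
  refine ⟨{x // x ∈ t}, inferInstance, fun i => ball (c i) s, fun i => isOpen_ball,
    fun i => isBounded_ball, ?_, ?_⟩
  · intro z hz
    obtain ⟨x, hx, hzx⟩ := mem_iUnion₂.1 (htcov hz)
    exact mem_iUnion.2 ⟨⟨x, hx⟩, hzx⟩
  intro H hH
  -- conjugates on the larger balls
  have hconj : ∀ i : {x // x ∈ t}, ∃ h : ℂ → ℂ,
      ∀ z ∈ ball (c i) (if c i ∈ frontier G then s' else s), z ∈ fat G ρ →
        DifferentiableAt ℂ h z ∧ (h z).re = H z := by
    intro i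
    by_cases hif : c i ∈ frontier G
    · rw [if_pos hif]
      obtain ⟨ν, hν⟩ := hG.cone _ hif
      apply conj_local hΩo hH (T := r / 4) (ν := ν) (by positivity)
      · intro z hz hzΩ u hu
        rcases hu.1.eq_or_lt with h0 | h0
        · rw [← h0]; simpa using hzΩ
        · apply fat_cone hG hne hρ hν hzΩ _ h0 (by linarith [hu.2])
          · exact mem_ball_self (by positivity)
          · rw [mem_ball] at hz
            refine hz.trans ?_
            rw [hs']; nlinarith
      · refine Subset.trans ?_ (G_subset_fat hρ)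
        have h1 := hν.2 (c i) (frontier_subset_closure hif) (by rw [dist_self]; exact hr)
          (r / 4) (by positivity) (by linarith)
        have h2 : κ * (r / 4) = s' := by rw [hs']; ring
        rwa [h2] at h1
    · rw [if_neg hif]
      have hb : ball (c i) s ⊆ fat G ρ := by
        rcases hct i with h | h
        · exact absurd h hif
        · exact h.2.trans (G_subset_fat hρ)
      obtain ⟨F, hF, hFre⟩ := HarmonicOnNhd.exists_analyticOnNhd_ball_re_eq
        (show HarmonicOnNhd H (ball (c i) s) from fun z hz => hH z (hb hz))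
      exact ⟨F, fun z hz _ => ⟨(hF z hz).differentiableAt, hFre hz⟩⟩
  choose h hh using hconj
  have hbig : ∀ i : {x // x ∈ t}, ball (c i) s ⊆ ball (c i) (if c i ∈ frontier G then s' else s) := by
    intro i
    apply ball_subset_ball
    split_ifs
    · linarith
    · exact le_rfl
  refine ⟨h, fun i z hz hzi => hh i z (hbig i hzi) hz, ?_⟩
  -- differences are constant
  have hconst : ∀ i j : {x // x ∈ t}, ∀ x ∈ fat G ρ, ∀ y ∈ fat G ρ, x ∈ ball (c i) s →
      x ∈ ball (c j) s → y ∈ ball (c i) s → y ∈ ball (c j) s → h i x - h j x = h i y - h j y := by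
    intro i j x hx y hy hxi hxj hyi hyj
    set W : Set ℂ := fat G ρ ∩ (ball (c i) (if c i ∈ frontier G then s' else s) ∩
      ball (c j) (if c j ∈ frontier G then s' else s)) with hW
    have hWo : IsOpen W := hΩo.inter (isOpen_ball.inter isOpen_ball)
    have hWi : ∀ z ∈ W, DifferentiableAt ℂ (h i) z ∧ (h i z).re = H z :=
      fun z hz => hh i z hz.2.1 hz.1
    have hWj : ∀ z ∈ W, DifferentiableAt ℂ (h j) z ∧ (h j z).re = H z :=
      fun z hz => hh j z hz.2.2 hz.1
    have hseg : segment ℝ x y ⊆ ball (c i) s ∩ ball (c j) s :=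
      ((convex_ball (c i) s).inter (convex_ball (c j) s)).segment_subset ⟨hxi, hxj⟩ ⟨hyi, hyj⟩
    by_cases hi : ball (c i) s ⊆ G
    · apply conj_const hWo hWi hWj
      intro z hz
      exact ⟨G_subset_fat hρ (hi (hseg hz).1), hbig i (hseg hz).1, hbig j (hseg hz).2⟩
    by_cases hj : ball (c j) s ⊆ G
    · apply conj_const hWo hWi hWj
      intro z hz
      exact ⟨G_subset_fat hρ (hj (hseg hz).2), hbig i (hseg hz).1, hbig j (hseg hz).2⟩
    have hif : c i ∈ frontier G := by
      rcases hct i with h | h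
      · exact h
      · exact absurd h.2 hi
    have hjf : c j ∈ frontier G := by
      rcases hct j with h | h
      · exact h
      · exact absurd h.2 hj
    obtain ⟨ν, hν⟩ := hG.cone _ hif
    set T : ℝ := κ * r / 8 with hT
    have hT0 : 0 < T := by positivity
    have hsT : s + T ≤ s' := by
      rw [hs, hT, hs']; nlinarith
    have hshift : ∀ u : ℂ, ∀ v : ℝ, 0 ≤ v → v ≤ T → ∀ p : ℂ, u ∈ ball p s →
        u + v * ν ∈ ball p s' := by
      intro u v hv0 hvT p hu
      rw [mem_ball] at hu ⊢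
      have h1 := dist_triangle (u + v * ν) u p
      rw [dist_add_dir hν.1 u hv0] at h1
      linarith
    have hup : ∀ u ∈ fat G ρ, u ∈ ball (c i) s → u ∈ ball (c j) s →
        segment ℝ u (u + T * ν) ⊆ W := by
      intro u hu hui huj z hz
      rw [segment_eq_image'] at hz
      obtain ⟨θ, hθ, rfl⟩ := hz
      have he : u + θ • (u + (T:ℂ) * ν - u) = u + ((θ * T : ℝ) : ℂ) * ν := by
        rw [Complex.real_smul]; push_cast; ring
      simp only [he]
      have hv0 : 0 ≤ θ * T := mul_nonneg hθ.1 hT0.le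
      have hvT : θ * T ≤ T := by nlinarith [hθ.2]
      refine ⟨?_, ?_, ?_⟩
      · rcases hv0.eq_or_lt with h0 | h0
        · rw [← h0]; simpa using hu
        · apply fat_cone hG hne hρ hν hu _ h0 _
          · exact mem_ball_self (by positivity)
          · rw [mem_ball] at hui
            refine hui.trans ?_
            nlinarith
          · refine hvT.trans_lt ?_
            rw [hT]; nlinarith
      · rw [if_pos hif]; exact hshift u _ hv0 hvT _ hui
      · rw [if_pos hjf]; exact hshift u _ hv0 hvT _ huj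
    have hmid : segment ℝ (x + T * ν) (y + T * ν) ⊆ W := by
      intro z hz
      have hz' : z - T * ν ∈ segment ℝ x y := by
        rw [segment_eq_image'] at hz ⊢
        obtain ⟨θ, hθ, rfl⟩ := hz
        refine ⟨θ, hθ, ?_⟩
        simp only [add_sub_add_right_eq_sub]
        ring
      have h1 := hseg hz'
      have hze : z = (z - T * ν) + T * ν := by ring
      refine ⟨?_, ?_, ?_⟩
      · apply G_subset_fat hρ
        apply hν.2 (c i) (frontier_subset_closure hif) (by rw [dist_self]; exact hr)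
          T hT0 (by rw [hT]; nlinarith)
        rw [hze, mem_ball, dist_add_right]
        have h2 : κ * T = s := by rw [hT, hs]; ring
        rw [h2]
        exact h1.1
      · rw [if_pos hif, hze]; exact hshift _ _ hT0.le le_rfl _ h1.1
      · rw [if_pos hjf, hze]; exact hshift _ _ hT0.le le_rfl _ h1.2
    have e1 := conj_const hWo hWi hWj (hup x hx hxi hxj)
    have e2 := conj_const hWo hWi hWj hmid
    have e3 := conj_const hWo hWi hWj (hup y hy hyi hyj)
    rw [e1, e2, e3]
  intro i j
  by_cases hex : ∃ x ∈ fat G ρ, x ∈ ball (c i) s ∧ x ∈ ball (c j) s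
  · obtain ⟨x, hx, hxi, hxj⟩ := hex
    refine ⟨(h i x - h j x).im, fun z hz hzi hzj => ?_⟩
    rw [hconst i j z hz x hx hzi hzj hxi hxj]
    apply Complex.ext
    · simp [(hh i x (hbig i hxi) hx).2, (hh j x (hbig j hxj) hx).2]
    · simp
  · exact ⟨0, fun z hz hzi hzj => absurd ⟨z, hz, hzi, hzj⟩ hex⟩

/-- global analytic function attached to a harmonic function and finitely many poles -/
theorem exists_global {G : Set ℂ} {r κ : ℝ} {ρ : ℂ → ℝ} (hG : ConeDom G r κ)
    (hne : G.Nonempty) (hρ : Fatt G r κ ρ) :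
    ∃ C, ∀ H, HarmonicOnNhd H (fat G ρ) → ∀ (P : Finset ℂ) (D : ℝ), 0 < D →
      ∃ g : ℂ → ℂ, DifferentiableOn ℂ g (fat G ρ) ∧
        (∀ z ∈ fat G ρ, z ∉ P → Real.exp (-C) * Real.exp (-(Tp P D z + H z)) ≤ ‖g z‖ ∧
          ‖g z‖ ≤ Real.exp C * Real.exp (-(Tp P D z + H z))) ∧
        ∀ a ∈ P, g a = 0 := by
  classical
  obtain ⟨ι, hι, U, hcov⟩ := exists_goodCover hG hne hρ
  obtain ⟨C, hC⟩ := cousin_uniform (isOpen_fat hρ) hcov.isOpen hcov.bdd hcov.cover
  refine ⟨C, fun H hH P D hD => ?_⟩
  obtain ⟨h, hh, hc⟩ := hcov.conj H hH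
  choose τ hτ using hc
  have hcoc : IsCoc (fat G ρ) U τ := by
    rintro i j l ⟨z, hz, hzi, hzj, hzl⟩
    have e1 := hτ i j z hz hzi hzj
    have e2 := hτ j l z hz hzj hzl
    have e3 := hτ i l z hz hzi hzl
    have e4 : I * ((τ i j : ℂ) + τ j l) = I * τ i l := by
      rw [mul_add, ← e1, ← e2, ← e3]; ring
    have e5 := mul_left_cancel₀ Complex.I_ne_zero e4
    exact_mod_cast e5
  obtain ⟨e, he1, he2, he3⟩ := hC τ hcoc
  have hidx : ∀ z : ℂ, ∃ i, z ∈ fat G ρ → z ∈ U i := by
    intro z
    by_cases hz : z ∈ fat G ρ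
    · obtain ⟨i, hi⟩ := mem_iUnion.1 (hcov.cover (subset_closure hz))
      exact ⟨i, fun _ => hi⟩
    · have hι' : Nonempty ι := by
        obtain ⟨x, hx⟩ := hne
        obtain ⟨i, _⟩ := mem_iUnion.1 (hcov.cover (subset_closure (G_subset_fat hρ hx)))
        exact ⟨i⟩
      exact ⟨hι'.some, fun h => absurd h hz⟩
  choose idx hidx using hidx
  set pr : ℂ → ℂ := fun z => ∏ a ∈ P, (z - a) / D with hpr
  set G' : ι → ℂ → ℂ := fun i z => e i z * Complex.exp (-h i z) * pr z with hG'
  set g : ℂ → ℂ := fun z => G' (idx z) z with hg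
  have heq : ∀ i, ∀ z ∈ fat G ρ, z ∈ U i → g z = G' i z := by
    intro i z hz hzi
    simp only [hg, hG']
    have hzj := hidx z hz
    rw [he3 (idx z) i z hz hzj hzi]
    have e1 := hτ (idx z) i z hz hzj hzi
    have e2 : -h (idx z) z = -h i z - I * τ (idx z) i := by
      rw [← e1]; ring
    rw [e2, Complex.exp_sub]
    have := Complex.exp_ne_zero (I * τ (idx z) i)
    field_simp
  have hprd : Differentiable ℂ pr := by
    simp only [hpr]
    fun_prop
  refine ⟨g, ?_, ?_, ?_⟩
  · intro z hz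
    have hzi := hidx z hz
    have h1 : DifferentiableAt ℂ (G' (idx z)) z := by
      simp only [hG']
      exact ((he1 _ z hz hzi).mul ((hh _ z hz hzi).1.neg.cexp)).mul (hprd z)
    refine (h1.congr_of_eventuallyEq ?_).differentiableWithinAt
    filter_upwards [(isOpen_fat hρ).mem_nhds hz, (hcov.isOpen _).mem_nhds hzi] with x hx hxi
    exact heq _ x hx hxi
  · intro z hz hzP
    have hzi := hidx z hz
    have h1 : ‖pr z‖ = Real.exp (-(Tp P D z)) := by
      simp only [hpr]
      rw [norm_prod, Tp, ← Finset.sum_neg_distrib, Real.exp_sum]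
      apply Finset.prod_congr rfl
      intro a ha
      have hza : 0 < ‖z - a‖ := by
        rw [norm_pos_iff, sub_ne_zero]
        rintro rfl
        exact hzP ha
      rw [norm_div, Complex.norm_real, Real.norm_eq_abs, abs_of_pos hD, ← Real.log_inv,
        Real.exp_log (by positivity), inv_div]
    have h2 : ‖Complex.exp (-h (idx z) z)‖ = Real.exp (-(H z)) := by
      rw [Complex.norm_exp, Complex.neg_re, (hh _ z hz hzi).2]
    have h3 : ‖g z‖ = ‖e (idx z) z‖ * Real.exp (-(Tp P D z + H z)) := by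
      simp only [hg, hG']
      rw [norm_mul, norm_mul, h1, h2, neg_add, Real.exp_add]
      ring
    obtain ⟨h4, h5⟩ := he2 (idx z) z hz hzi
    rw [h3]
    have hp := Real.exp_pos (-(Tp P D z + H z))
    exact ⟨mul_le_mul_of_nonneg_right h4 hp.le, mul_le_mul_of_nonneg_right h5 hp.le⟩
  · intro a ha
    simp only [hg, hG', hpr]
    rw [Finset.prod_eq_zero ha (by simp), mul_zero]

end Pool.Agent.Helper93.LZ
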