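import Pool.Agent.Helper93.LZ.Apriori
import Pool.Agent.Helper93.LZ.Bal
import Pool.Agent.Helper93.LZ.Patch
import Pool.Agent.Helper39.Montel

/-!
The limit function.
-/

open Set Metric Filter Topology Complex MeasureTheory Real InnerProductSpace

namespace Pool.Agent.Helper93.LZ

namespace Setup

variable (S : Setup)

/-- points of the reference set at positive distance from `G` are dense -/
lemma exists_Es_pos {e : ℂ} (he : e ∈ S.Es) {ε : ℝ} (hε : 0 < ε) :
    ∃ e' ∈ S.Es, dist e e' < ε ∧ 0 < infDist e' S.G := by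
  have hκ := S.hG.κ_pos
  have hr := S.hG.r_pos
  rcases (infDist_nonneg (x := e) (s := S.G)).eq_or_lt with h0 | h0
  · have hecl : e ∈ closure S.G := by
      rw [mem_closure_iff_infDist_zero S.hne]; exact h0.symm
    have hefr : e ∈ frontier S.G := by
      rw [S.hG.isOpen.frontier_eq]; exact ⟨hecl, he.1⟩
    have heE : e ∈ S.E := mem_E_of_mem_Est S.hE.isClosed S.hEne hecl he
    obtain ⟨ν, hν⟩ := S.hG.cone e hefr
    set t : ℝ := min (ε / 2) (S.r / 4) with ht
    have ht0 : 0 < t := by positivity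
    have ht1 : t ≤ ε / 2 := min_le_left _ _
    have ht2 : t ≤ S.r / 4 := min_le_right _ _
    have h1 := ext_infDist S.hG S.hne hν he.1 (by rw [dist_self]; positivity) ht0
      (by linarith) (e - t * ν)
    rw [dist_self, sub_zero] at h1
    have hpos : 0 < infDist (e - t * ν) S.G := lt_of_lt_of_le (by positivity) h1
    have hd : dist (e - t * ν) e = t := by
      rw [dist_eq_norm, sub_sub_cancel_left, norm_neg, norm_mul, hν.1, Complex.norm_real,
        Real.norm_eq_abs, abs_of_pos ht0, mul_one]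
    refine ⟨e - t * ν, ⟨?_, ?_⟩, ?_, hpos⟩
    · intro h
      rw [infDist_zero_of_mem h] at hpos
      exact lt_irrefl _ hpos
    · have h2 : infDist (e - t * ν) S.E ≤ t :=
        (infDist_le_dist_of_mem heE).trans hd.le
      have h3 : 2 / S.κ ≤ S.k := le_max_right _ _
      have h4 : t ≤ 2 / S.κ * (S.κ * t) := by
        have : 2 / S.κ * (S.κ * t) = 2 * t := by field_simp
        rw [this]; linarith
      calc infDist (e - t * ν) S.E ≤ 2 / S.κ * (S.κ * t) := h2.trans h4
        _ ≤ S.k * infDist (e - t * ν) S.G :=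
          mul_le_mul h3 h1 (by positivity) S.k_nonneg
    · rw [dist_comm, hd]; linarith
  · exact ⟨e, he, by rw [dist_self]; exact hε, h0⟩

lemma exists_base : ∃ e ∈ S.Es, 0 < infDist e S.G := by
  obtain ⟨e, he⟩ := S.Es_nonempty
  obtain ⟨e', he', _, h⟩ := S.exists_Es_pos he one_pos
  exact ⟨e', he', h⟩

/-- base point of the reference set -/
noncomputable def e₀ : ℂ := S.exists_base.choose

lemma e₀_mem : S.e₀ ∈ S.Es := S.exists_base.choose_spec.1

lemma e₀_pos : 0 < infDist S.e₀ S.G := S.exists_base.choose_spec.2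

/-- the part of the reference set at distance at least `η / (n+1)` -/
noncomputable def En (n : ℕ) : Set ℂ := S.Es ∩ {e | infDist S.e₀ S.G / (n + 1) ≤ infDist e S.G}

lemma isClosed_En (n : ℕ) : IsClosed (S.En n) :=
  S.isClosed_Es.inter (isClosed_le continuous_const (continuous_infDist_pt _))

lemma e₀_mem_En (n : ℕ) : S.e₀ ∈ S.En n := by
  refine ⟨S.e₀_mem, ?_⟩
  simp only [mem_ofPred_eq]
  apply div_le_self S.e₀_pos.le
  have : (0:ℝ) ≤ n := Nat.cast_nonneg n
  linarith

lemma En_nonempty (n : ℕ) : (S.En n).Nonempty := ⟨_, S.e₀_mem_En n⟩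

lemma ds_le_En (n : ℕ) (z : ℂ) : S.ds z ≤ infDist z (S.En n) :=
  infDist_le_infDist_of_subset inter_subset_left (S.En_nonempty n)

lemma En_tendsto (z : ℂ) : Tendsto (fun n => infDist z (S.En n)) atTop (𝓝 (S.ds z)) := by
  rw [Metric.tendsto_atTop]
  intro ε hε
  obtain ⟨e, he, hd⟩ := S.isClosed_Es.exists_infDist_eq_dist S.Es_nonempty z
  obtain ⟨e', he', hd', hpos⟩ := S.exists_Es_pos he hε
  obtain ⟨N, hN⟩ := exists_nat_gt (infDist S.e₀ S.G / infDist e' S.G)
  refine ⟨N, fun n hn => ?_⟩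
  have h1 : e' ∈ S.En n := by
    refine ⟨he', ?_⟩
    simp only [mem_ofPred_eq]
    have hn' : (N:ℝ) ≤ n := by exact_mod_cast hn
    rw [div_le_iff₀ (by positivity)]
    rw [div_lt_iff₀ hpos] at hN
    nlinarith
  have h2 : infDist z (S.En n) ≤ dist z e' := infDist_le_dist_of_mem h1
  have h3 : dist z e' ≤ dist z e + dist e e' := dist_triangle _ _ _
  have h4 := S.ds_le_En n z
  have h5 : S.ds z = dist z e := hd
  rw [Real.dist_eq, abs_of_nonneg (by linarith)]
  linarith

/-- finitely many poles -/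
noncomputable def Pset (n : ℕ) : Set ℂ := S.E ∩ {z | 1 / ((n:ℝ) + 1) ≤ infDist z S.Gᶜ}

lemma compl_nonempty : S.Gᶜ.Nonempty := by
  by_contra h
  rw [not_nonempty_iff_eq_empty, compl_empty_iff] at h
  have := S.hG.bdd
  rw [h] at this
  exact NormedSpace.unbounded_univ ℝ ℂ this

lemma Pset_subset (n : ℕ) : S.Pset n ⊆ S.G := by
  intro z hz
  by_contra hcon
  have h1 := hz.2
  simp only [mem_ofPred_eq] at h1
  rw [infDist_zero_of_mem (show z ∈ S.Gᶜ from hcon)] at h1
  have : 0 < 1 / ((n:ℝ) + 1) := by positivity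
  linarith

lemma Pset_finite (n : ℕ) : (S.Pset n).Finite := by
  by_contra hinf
  have hK : IsCompact (S.Pset n) :=
    S.hE.inter_right (isClosed_le continuous_const (continuous_infDist_pt _))
  obtain ⟨x, hx, hacc⟩ := Set.Infinite.exists_accPt_of_subset_isCompact hinf hK Subset.rfl
  have hxG := S.Pset_subset n hx
  have hfr : ∃ᶠ z in 𝓝[≠] x, S.F z = 0 := by
    rw [accPt_iff_frequently_nhdsNE] at hacc
    exact hacc.mono fun z hz => S.F_zero hz.1
  have han : AnalyticOnNhd ℂ S.F S.G := S.hFd.analyticOnNhd S.hG.isOpen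
  have h0 := han.eqOn_zero_of_preconnected_of_frequently_eq_zero S.hconn hxG hfr
  obtain ⟨z, hz, hz0⟩ := S.hF0
  exact hz0 (h0 hz)

/-- finitely many poles -/
noncomputable def Pn (n : ℕ) : Finset ℂ := (S.Pset_finite n).toFinset

lemma mem_Pn {n : ℕ} {z : ℂ} : z ∈ S.Pn n ↔ z ∈ S.Pset n := by
  rw [Pn, Set.Finite.mem_toFinset]

/-- boundary function -/
noncomputable def bdn (N n : ℕ) (z : ℂ) : ℝ :=
  max (N * Real.log (S.D₀ / infDist z (S.En n))) 0

section

variable {S} {M : ℕ} {c₁ : ℝ} (hM : 0 < M)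
  (hρ : Fatt S.G S.r S.κ (fun z => c₁ * S.ds z ^ M))

include hM hρ

lemma infDist_zero_of_closure_fat {z : ℂ} (hz : z ∈ closure (fat S.G fun z => c₁ * S.ds z ^ M))
    (hzE : z ∈ S.Es) : infDist z S.G = 0 := by
  have h1 : closure (fat S.G fun z => c₁ * S.ds z ^ M) ⊆
      {z | infDist z S.G ≤ c₁ * S.ds z ^ M} := by
    apply closure_minimal
    · intro x hx; exact (mem_fat.1 hx).le
    · exact isClosed_le (continuous_infDist_pt _) hρ.continuous
  have h2 : infDist z S.G ≤ c₁ * S.ds z ^ M := h1 hz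
  have h3 : S.ds z = 0 := infDist_zero_of_mem hzE
  rw [h3, zero_pow hM.ne', mul_zero] at h2
  exact le_antisymm h2 infDist_nonneg

lemma En_pos {n : ℕ} {z : ℂ} (hz : z ∈ closure (fat S.G fun z => c₁ * S.ds z ^ M)) :
    0 < infDist z (S.En n) := by
  rw [← (S.isClosed_En n).notMem_iff_infDist_pos (S.En_nonempty n)]
  intro h
  have h1 := infDist_zero_of_closure_fat hM hρ hz h.1
  have h2 := h.2
  simp only [mem_ofPred_eq] at h2
  rw [h1] at h2
  have := S.e₀_pos
  have : 0 < infDist S.e₀ S.G / ((n:ℝ) + 1) := by positivity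
  linarith

lemma bdn_continuousOn (N n : ℕ) :
    ContinuousOn (S.bdn N n) (closure (fat S.G fun z => c₁ * S.ds z ^ M)) := by
  unfold bdn
  apply ContinuousOn.sup _ continuousOn_const
  apply continuousOn_const.mul
  apply ContinuousOn.log
  · apply continuousOn_const.div (continuous_infDist_pt _).continuousOn
    intro z hz
    exact (En_pos hM hρ hz).ne'
  · intro z hz
    have := En_pos hM hρ (n := n) hz
    have := S.D₀_pos
    positivity

lemma bdn_sub (N n : ℕ) {z : ℂ} (hz : z ∈ fat S.G fun z => c₁ * S.ds z ^ M) :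
    SubMeanAt (S.bdn N n) z := by
  have hΩo : IsOpen (fat S.G fun z => c₁ * S.ds z ^ M) := isOpen_fat hρ
  have hcont := (bdn_continuousOn hM hρ N n).mono subset_closure
  have hD := S.D₀_pos
  obtain ⟨e, he, hd⟩ := (S.isClosed_En n).exists_infDist_eq_dist (S.En_nonempty n) z
  have hpos := En_pos hM hρ (n := n) (subset_closure hz)
  have hze : z ≠ e := by
    rintro rfl
    rw [dist_self] at hd
    linarith
  rcases le_total 0 ((N:ℝ) * Real.log (S.D₀ / infDist z (S.En n))) with h | h
  · have h1 : SubMeanAt (fun x => (N:ℝ) * Real.log (S.D₀ / ‖x - e‖)) z :=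
      (subMeanAt_of_harmonicAt (harmonicAt_log_div hD hze)).const_mul (Nat.cast_nonneg N)
    refine h1.of_le ?_ ?_ (hΩo.mem_nhds hz) hcont
    · rw [bdn, max_eq_left h, hd, dist_eq_norm]
    · filter_upwards [hΩo.mem_nhds hz, isOpen_ne.mem_nhds hze] with x hx hxe
      refine le_trans ?_ (le_max_left _ _)
      apply mul_le_mul_of_nonneg_left _ (Nat.cast_nonneg N)
      have hxpos := En_pos hM hρ (n := n) (subset_closure hx)
      have hxe' : 0 < ‖x - e‖ := norm_pos_iff.2 (sub_ne_zero.2 hxe)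
      apply Real.log_le_log (by positivity)
      apply div_le_div_of_nonneg_left hD.le hxpos
      rw [← dist_eq_norm]
      exact infDist_le_dist_of_mem he
  · refine (subMeanAt_const 0 z).of_le ?_ ?_ (hΩo.mem_nhds hz) hcont
    · rw [bdn, max_eq_right h]
    · filter_upwards with x
      exact le_max_right _ _

end

end Setup

end Pool.Agent.Helper93.LZ
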