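import Pool.Agent.Helper93.LZ.Limit

/-!
The limit function, main construction.
-/

open Set Metric Filter Topology Complex MeasureTheory Real InnerProductSpace

namespace Pool.Agent.Helper93.LZ

namespace Setup

variable (S : Setup)

/-- main construction: an analytic function on the fattened domain with two-sided bounds -/
theorem exists_main : ∃ (M : ℕ) (c₁ : ℝ), 0 < M ∧ 0 < c₁ ∧
    Fatt S.G S.r S.κ (fun z => c₁ * S.ds z ^ M) ∧
    ∀ N : ℕ, 2 ≤ N → ∃ (g : ℂ → ℂ) (A c : ℝ), 0 < A ∧ 0 < c ∧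
      DifferentiableOn ℂ g (fat S.G (fun z => c₁ * S.ds z ^ M)) ∧
      (∀ z ∈ fat S.G (fun z => c₁ * S.ds z ^ M), ‖g z‖ ≤ A * S.ds z ^ N) ∧
      (∀ z ∈ S.G, c * ‖S.F z‖ ^ N ≤ ‖g z‖) ∧ (∀ a ∈ S.E, a ∈ S.G → g a = 0) := by
  classical
  obtain ⟨M, c₁, hM, hc₁, hρ, Q, hQ, hapr⟩ := S.apriori
  refine ⟨M, c₁, hM, hc₁, hρ, fun N hN => ?_⟩
  set ρ : ℂ → ℝ := fun z => c₁ * S.ds z ^ M with hρdef
  set Ω : Set ℂ := fat S.G ρ with hΩ
  have hΩo : IsOpen Ω := isOpen_fat hρ
  have hΩb : Bornology.IsBounded Ω := bounded_fat hρ S.hG.bdd S.hne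
  have hGΩ : S.G ⊆ Ω := G_subset_fat hρ
  have hD := S.D₀_pos
  have hN0 : (0:ℝ) ≤ N := Nat.cast_nonneg N
  obtain ⟨C, hC⟩ := exists_global S.hG S.hne hρ
  -- bound of the diameter
  set D : ℝ := Metric.diam (closure Ω) + 1 with hDdef
  have hDpos : 0 < D := by
    have := Metric.diam_nonneg (s := closure Ω)
    linarith
  have hDd : ∀ x ∈ closure Ω, ∀ y ∈ closure Ω, ‖x - y‖ ≤ D := by
    intro x hx y hy
    rw [← dist_eq_norm]
    have := Metric.dist_le_diam_of_mem hΩb.closure hx hy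
    linarith
  -- the data
  let dn : ℕ → Data := fun n =>
    { Ω := Ω
      P := S.Pn n
      bd := S.bdn N n
      D := D
      hΩ := hΩo
      hbdd := hΩb
      hP := fun a ha => hGΩ (S.Pset_subset n (S.mem_Pn.1 ha))
      hD := hDpos
      hDa := fun a ha z hz => hDd z hz a
        (subset_closure (hGΩ (S.Pset_subset n (S.mem_Pn.1 ha)))) }
  have hbdb : ∀ n, ∃ B, ∀ z ∈ closure Ω, S.bdn N n z ≤ B := by
    intro n
    obtain ⟨B, hB⟩ := hΩb.isCompact_closure.exists_bound_of_continuousOn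
      (bdn_continuousOn hM hρ N n)
    exact ⟨B, fun z hz => (le_abs_self _).trans (hB z hz)⟩
  have hadm : ∀ n, S.Adm ρ N (dn n) := by
    intro n
    refine ⟨rfl, fun a ha => (S.mem_Pn.1 ha).1, fun a ha => S.Pset_subset n (S.mem_Pn.1 ha), ?_, ?_⟩
    · intro z hz
      change S.bdn N n z ≤ _
      rw [bdn]
      apply max_le
      · apply mul_le_mul_of_nonneg_left _ hN0
        have h1 := S.ds_le_En n z
        apply Real.log_le_log
        · exact div_pos hD (hz.trans_le h1)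
        · exact div_le_div_of_nonneg_left hD.le hz h1
      · apply mul_nonneg hN0
        apply Real.log_nonneg
        rw [le_div_iff₀ hz, one_mul]
        exact S.ds_le z
    · obtain ⟨B, hB⟩ := hbdb n
      exact ⟨B, fun z hz => hB z (frontier_subset_closure hz)⟩
  have hfam0 : ∀ n, Fam (dn n) (S.bdn N n) := by
    intro n
    refine ⟨?_, ?_, ?_, ?_, ?_⟩
    · exact (bdn_continuousOn hM hρ N n).mono sdiff_subset
    · intro z hz _
      exact bdn_sub hM hρ N n hz
    · intro z _; exact le_rfl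
    · intro z _ _; exact le_max_right _ _
    · obtain ⟨B, hB⟩ := hbdb n
      refine ⟨B, fun z hz _ => ?_⟩
      have h1 := hB z (subset_closure hz)
      have h2 := (dn n).Tp_nonneg (subset_closure hz)
      linarith
  -- the functions g_n
  have hgn : ∀ n, ∃ g : ℂ → ℂ, DifferentiableOn ℂ g Ω ∧
      (∀ z ∈ Ω, ‖g z‖ ≤ Real.exp C * (infDist z (S.En n) / S.D₀) ^ N) ∧
      (∀ z ∈ S.G, Real.exp (-C) * (‖S.F z‖ / Q) ^ N ≤ ‖g z‖) ∧ (∀ a ∈ S.Pn n, g a = 0) := by
    intro n
    obtain ⟨B, hB⟩ := (hadm n).bd_bdd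
    obtain ⟨Sf, H, hS1, hS2, hH, hSH⟩ := exists_limit (dn n) (hfam0 n) hB
    obtain ⟨g, hgd, hgb, hg0⟩ := hC H hH (S.Pn n) D hDpos
    refine ⟨g, hgd, ?_, ?_, hg0⟩
    · intro z hz
      have hE := En_pos hM hρ (n := n) (subset_closure hz)
      by_cases hzP : z ∈ S.Pn n
      · rw [hg0 z hzP, norm_zero]; positivity
      · refine ((hgb z hz hzP).2).trans ?_
        apply mul_le_mul_of_nonneg_left _ (Real.exp_pos _).le
        have h1 := hS1 z hz hzP
        have h2 : Sf z = Tp (S.Pn n) D z + H z := hSH z hz hzP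
        rw [← h2]
        have h3 : (N:ℝ) * Real.log (S.D₀ / infDist z (S.En n)) ≤ Sf z :=
          (le_max_left _ _).trans h1
        calc Real.exp (-Sf z) ≤ Real.exp (-((N:ℝ) * Real.log (S.D₀ / infDist z (S.En n)))) := by
              apply Real.exp_le_exp.2; linarith
          _ = (infDist z (S.En n) / S.D₀) ^ N := by
              rw [← mul_neg, ← Real.log_inv, inv_div, ← Real.log_pow, Real.exp_log]
              positivity
    · intro z hz
      by_cases hFz : S.F z = 0
      · rw [hFz, norm_zero, zero_div, zero_pow (by omega), mul_zero]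
        exact norm_nonneg _
      · have hzP : z ∉ S.Pn n := fun h => hFz (S.F_zero (S.mem_Pn.1 h).1)
        refine le_trans ?_ ((hgb z (hGΩ hz) hzP).1)
        apply mul_le_mul_of_nonneg_left _ (Real.exp_pos _).le
        have hFpos : 0 < ‖S.F z‖ := norm_pos_iff.2 hFz
        have h2 : Sf z = Tp (S.Pn n) D z + H z := hSH z (hGΩ hz) hzP
        rw [← h2]
        have h3 : Sf z ≤ (N:ℝ) * Real.log (Q / ‖S.F z‖) := by
          apply hS2 z (hGΩ hz) hzP
          intro w hw
          have h4 := hapr N hN (dn n) (hadm n) w hw z (subset_closure hz) hzP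
          have h5 : Real.exp (w z) ≤ (Q / ‖S.F z‖) ^ N := by
            rw [div_pow, le_div_iff₀ (by positivity)]
            exact h4
          rw [← Real.log_pow, Real.le_log_iff_exp_le (by positivity)]
          exact h5
        calc (‖S.F z‖ / Q) ^ N = Real.exp (-((N:ℝ) * Real.log (Q / ‖S.F z‖))) := by
              rw [← mul_neg, ← Real.log_inv, inv_div, ← Real.log_pow, Real.exp_log]
              positivity
          _ ≤ Real.exp (-Sf z) := by
              apply Real.exp_le_exp.2; linarith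
  choose g hgd hgb hgl hg0 using hgn
  -- uniform bound
  obtain ⟨D₁, hD₁⟩ : ∃ D₁, ∀ z ∈ Ω, dist z S.e₀ ≤ D₁ := by
    obtain ⟨D₁, hD₁⟩ := hΩb.subset_closedBall S.e₀
    exact ⟨D₁, fun z hz => hD₁ hz⟩
  set B : ℝ := max (Real.exp C * (D₁ / S.D₀) ^ N) 0 with hBdef
  have hgB : ∀ n, ∀ z ∈ Ω, ‖g n z‖ ≤ B := by
    intro n z hz
    refine (hgb n z hz).trans (le_trans ?_ (le_max_left _ _))
    have h1 : infDist z (S.En n) ≤ D₁ := (infDist_le_dist_of_mem (S.e₀_mem_En n)).trans (hD₁ z hz)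
    have h2 : 0 ≤ infDist z (S.En n) := infDist_nonneg
    gcongr
  set f : ℕ → ℂ → ℂ := fun n z => if z ∈ Ω then g n z else 0 with hf
  have hfg : ∀ n, ∀ z ∈ Ω, f n z = g n z := fun n z hz => by simp only [hf, if_pos hz]
  have hfB : ∀ n z, ‖f n z‖ ≤ B := by
    intro n z
    by_cases hz : z ∈ Ω
    · rw [hfg n z hz]; exact hgB n z hz
    · simp only [hf, if_neg hz, norm_zero]
      exact le_max_right _ _
  obtain ⟨g₀, k, hk, hlim⟩ := Helper39.exists_subseq_tendstoLocallyUniformlyOn hΩo hfB (by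
    intro z₀ hz₀
    obtain ⟨δ, hδ, hδΩ⟩ := Metric.isOpen_iff.1 hΩo z₀ hz₀
    refine ⟨δ / 2, by positivity, 2 * B / (δ / 2), Eventually.of_forall fun n => ?_⟩
    have h2 : (2:ℝ) * (δ / 2) = δ := by ring
    apply Helper39.lipschitz_of_bounded (by positivity)
    · rw [h2]
      exact ((hgd n).mono hδΩ).congr fun z hz => hfg n z (hδΩ hz)
    · intro z _
      exact hfB n z)
  have hfd : ∀ n, DifferentiableOn ℂ (f n) Ω := fun n => (hgd n).congr fun z hz => hfg n z hz
  have hpt : ∀ z ∈ Ω, Tendsto (fun i => g (k i) z) atTop (𝓝 (g₀ z)) := by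
    intro z hz
    have h1 := hlim.tendsto_at hz
    refine h1.congr fun i => hfg _ z hz
  refine ⟨g₀, Real.exp C / S.D₀ ^ N, Real.exp (-C) / Q ^ N, by positivity, by positivity, ?_, ?_, ?_, ?_⟩
  · exact hlim.differentiableOn (Eventually.of_forall fun i => hfd _) hΩo
  · intro z hz
    have h1 : Tendsto (fun i => Real.exp C * (infDist z (S.En (k i)) / S.D₀) ^ N) atTop
        (𝓝 (Real.exp C * (S.ds z / S.D₀) ^ N)) :=
      ((((S.En_tendsto z).comp hk.tendsto_atTop).div_const _).pow N).const_mul _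
    have h2 := le_of_tendsto_of_tendsto' (hpt z hz).norm h1 (fun i => hgb _ z hz)
    calc ‖g₀ z‖ ≤ Real.exp C * (S.ds z / S.D₀) ^ N := h2
      _ = Real.exp C / S.D₀ ^ N * S.ds z ^ N := by rw [div_pow]; ring
  · intro z hz
    have h2 := ge_of_tendsto' (hpt z (hGΩ hz)).norm (fun i => hgl (k i) z hz)
    calc Real.exp (-C) / Q ^ N * ‖S.F z‖ ^ N = Real.exp (-C) * (‖S.F z‖ / Q) ^ N := by
          rw [div_pow]; ring
      _ ≤ _ := h2
  · intro a ha haG
    have h1 : ∀ᶠ i in atTop, g (k i) a = 0 := by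
      have hpos : 0 < infDist a S.Gᶜ := by
        rw [← S.hG.isOpen.isClosed_compl.notMem_iff_infDist_pos S.compl_nonempty]
        simpa using haG
      obtain ⟨n₀, hn₀⟩ := exists_nat_gt (1 / infDist a S.Gᶜ)
      filter_upwards [hk.tendsto_atTop.eventually_ge_atTop n₀] with i hi
      apply hg0
      rw [S.mem_Pn]
      refine ⟨ha, ?_⟩
      simp only [mem_ofPred_eq]
      rw [div_lt_iff₀ hpos] at hn₀
      rw [div_le_iff₀ (by positivity)]
      have hi' : (n₀:ℝ) ≤ k i := by exact_mod_cast hi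
      nlinarith
    have h2 : Tendsto (fun i => g (k i) a) atTop (𝓝 0) := by
      apply tendsto_const_nhds.congr'
      filter_upwards [h1] with i hi using hi.symm
    exact tendsto_nhds_unique (hpt a (hGΩ haG)) h2

end Setup

end Pool.Agent.Helper93.LZ
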