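import Pool.Agent.Helper93.LZ.Smooth

/-!
Lipschitz domains satisfy the cone condition; functions with bounded derivative are Lipschitz.
-/

open Set Metric Filter Topology Complex MeasureTheory Real InnerProductSpace

namespace Pool.Agent.Helper93.LZ

/-- chart condition at a boundary point -/
def Chart (G : Set ℂ) (ζ : ℂ) : Prop :=
  ∃ (ν : ℂ) (r : ℝ) (φ : ℝ → ℝ) (L : NNReal), ‖ν‖ = 1 ∧ 0 < r ∧ LipschitzWith L φ ∧
    ∀ x y : ℝ, ‖(x : ℂ) + y * I‖ < r → (ζ + ν * (x + y * I) ∈ G ↔ φ x < y)

lemma IsDir.mono {G : Set ℂ} {r κ r' κ' : ℝ} {ζ ν : ℂ} (h : IsDir G r κ ζ ν) (hr : r' ≤ r)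
    (hκ : κ' ≤ κ) : IsDir G r' κ' ζ ν := by
  refine ⟨h.1, fun z hz hd t ht htr => ?_⟩
  refine (ball_subset_ball ?_).trans (h.2 z hz (hd.trans_le hr) t ht (htr.trans_le hr))
  gcongr

lemma isDir_of_chart {G : Set ℂ} {ζ : ℂ} (h : Chart G ζ) :
    ∃ (ν : ℂ) (R κ : ℝ), 0 < R ∧ 0 < κ ∧ ∀ ζ' ∈ ball ζ R, IsDir G R κ ζ' ν := by
  obtain ⟨ν, r, φ, L, hν, hr, hφ, hG⟩ := h
  have hν0 : ν ≠ 0 := by
    intro h0; rw [h0, norm_zero] at hν; exact zero_ne_one hν
  have hL : (0:ℝ) ≤ L := L.2
  set κ : ℝ := 1 / (2 * (1 + L)) with hκ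
  have hκ0 : 0 < κ := by positivity
  have hκ1 : κ ≤ 1 / 2 := by
    rw [hκ, div_le_div_iff₀ (by positivity) (by norm_num)]; linarith
  have hκL : (1 + L) * κ = 1 / 2 := by rw [hκ]; field_simp
  -- coordinates
  have hcoord : ∀ z : ℂ, ζ + ν * ((((z - ζ) / ν).re : ℂ) + (((z - ζ) / ν).im : ℂ) * I) = z := by
    intro z
    rw [Complex.re_add_im, mul_div_cancel₀ _ hν0]
    ring
  have hnorm : ∀ z : ℂ, ‖(((z - ζ) / ν).re : ℂ) + (((z - ζ) / ν).im : ℂ) * I‖ = dist z ζ := by
    intro z
    rw [Complex.re_add_im, norm_div, hν, div_one, dist_eq_norm]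
  have hmem : ∀ z : ℂ, dist z ζ < r → (z ∈ G ↔ φ ((z - ζ) / ν).re < ((z - ζ) / ν).im) := by
    intro z hz
    have := hG ((z - ζ) / ν).re ((z - ζ) / ν).im (by rw [hnorm]; exact hz)
    rwa [hcoord] at this
  have hcl : ∀ z ∈ closure G, dist z ζ < r → φ ((z - ζ) / ν).re ≤ ((z - ζ) / ν).im := by
    intro z hz hd
    have h1 : z ∈ closure (G ∩ ball ζ r) := by
      rw [inter_comm]
      exact isOpen_ball.inter_closure ⟨hd, hz⟩
    have hcl : IsClosed {z : ℂ | φ ((z - ζ) / ν).re ≤ ((z - ζ) / ν).im} := by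
      apply isClosed_le
      · exact hφ.continuous.comp (by fun_prop)
      · fun_prop
    have h2 : G ∩ ball ζ r ⊆ {z : ℂ | φ ((z - ζ) / ν).re ≤ ((z - ζ) / ν).im} := by
      rintro x ⟨hx, hxr⟩
      exact ((hmem x hxr).1 hx).le
    exact closure_minimal h2 hcl h1
  refine ⟨ν * I, r / 8, κ, by positivity, hκ0, fun ζ' hζ' => ⟨by rw [norm_mul, hν, Complex.norm_I, one_mul], ?_⟩⟩
  intro z hz hd t ht htr w hw
  rw [mem_ball] at hζ' hw
  have hzζ : dist z ζ < r / 4 := by
    have := dist_triangle z ζ' ζ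
    linarith
  have hzt : dist (z + t * (ν * I)) z = t := by
    rw [dist_eq_norm, add_sub_cancel_left, norm_mul, norm_mul, hν, Complex.norm_I,
      Complex.norm_real, Real.norm_eq_abs, abs_of_pos ht]
    ring
  have hwζ : dist w ζ < r := by
    have := dist_triangle4 w (z + t * (ν * I)) z ζ
    rw [hzt] at this
    nlinarith
  rw [hmem w hwζ]
  have h1 := hcl z hz (by linarith)
  -- compare the coordinates
  set u := (z - ζ) / ν with hu
  set v := (w - ζ) / ν with hv
  have hvu : ‖v - (u + t * I)‖ < κ * t := by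
    have h2 : v - (u + t * I) = (w - (z + t * (ν * I))) / ν := by
      rw [hu, hv]; field_simp; ring
    rw [h2, norm_div, hν, div_one, ← dist_eq_norm]
    exact hw
  have hre : |v.re - u.re| < κ * t := by
    have h3 := (Complex.abs_re_le_norm (v - (u + t * I))).trans_lt hvu
    simpa using h3
  have him : |v.im - (u.im + t)| < κ * t := by
    have h3 := (Complex.abs_im_le_norm (v - (u + t * I))).trans_lt hvu
    simpa using h3
  have hφd : φ v.re - φ u.re ≤ L * |v.re - u.re| := by
    have h3 := hφ.dist_le_mul v.re u.re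
    rw [Real.dist_eq, Real.dist_eq] at h3
    exact (le_abs_self _).trans h3
  have h4 : (L:ℝ) * |v.re - u.re| ≤ L * (κ * t) := by gcongr
  have h5 := (abs_lt.1 him).1
  have h6 : (1 + L) * (κ * t) = t / 2 := by
    rw [← mul_assoc, hκL]; ring
  nlinarith

theorem exists_coneDom {G : Set ℂ} (hGo : IsOpen G) (hb : Bornology.IsBounded G)
    (hch : ∀ ζ ∈ frontier G, Chart G ζ) : ∃ r κ : ℝ, ConeDom G r κ := by
  have hK : IsCompact (frontier G) :=
    hb.isCompact_closure.of_isClosed_subset isClosed_frontier frontier_subset_closure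
  have key : ∃ r κ : ℝ, 0 < r ∧ 0 < κ ∧ κ ≤ 1 / 4 ∧ ∀ ζ ∈ frontier G, ∃ ν, IsDir G r κ ζ ν := by
    refine hK.induction_on (p := fun s => ∃ r κ : ℝ, 0 < r ∧ 0 < κ ∧ κ ≤ 1 / 4 ∧
      ∀ ζ ∈ s, ∃ ν, IsDir G r κ ζ ν) ?_ ?_ ?_ ?_
    · exact ⟨1, 1 / 4, one_pos, by norm_num, le_rfl, fun ζ h => absurd h (notMem_empty ζ)⟩
    · rintro s t hst ⟨r, κ, h1, h2, h3, h4⟩
      exact ⟨r, κ, h1, h2, h3, fun ζ hζ => h4 ζ (hst hζ)⟩
    · rintro s t ⟨r, κ, h1, h2, h3, h4⟩ ⟨r', κ', h1', h2', h3', h4'⟩
      refine ⟨min r r', min κ κ', by positivity, by positivity, (min_le_left _ _).trans h3, ?_⟩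
      rintro ζ (hζ | hζ)
      · obtain ⟨ν, hν⟩ := h4 ζ hζ
        exact ⟨ν, hν.mono (min_le_left _ _) (min_le_left _ _)⟩
      · obtain ⟨ν, hν⟩ := h4' ζ hζ
        exact ⟨ν, hν.mono (min_le_right _ _) (min_le_right _ _)⟩
    · intro ζ hζ
      obtain ⟨ν, R, κ, hR, hκ, h⟩ := isDir_of_chart (hch ζ hζ)
      refine ⟨ball ζ R, mem_nhdsWithin_of_mem_nhds (ball_mem_nhds ζ hR), R, min κ (1 / 4), hR,
        by positivity, min_le_right _ _, fun ζ' hζ' => ⟨ν, (h ζ' hζ').mono le_rfl (min_le_left _ _)⟩⟩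
  obtain ⟨r, κ, h1, h2, h3, h4⟩ := key
  exact ⟨r, κ, hGo, hb, h1, h2, h3, h4⟩

/-! ### functions with bounded derivative -/

lemma infDist_compl_pos {G : Set ℂ} (hGo : IsOpen G) (hb : Bornology.IsBounded G) {z : ℂ}
    (hz : z ∈ G) : 0 < infDist z Gᶜ := by
  have hne : Gᶜ.Nonempty := by
    by_contra h
    rw [not_nonempty_iff_eq_empty, compl_empty_iff] at h
    rw [h] at hb
    exact NormedSpace.unbounded_univ ℝ ℂ hb
  rw [← hGo.isClosed_compl.notMem_iff_infDist_pos hne]
  simpa using hz

/-- a point of `G` is either deep inside or close to a frontier point -/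
lemma deep_or_near {G : Set ℂ} (hGo : IsOpen G) {z : ℂ} (hz : z ∈ G) {δ : ℝ} (hδ : 0 < δ) :
    ball z δ ⊆ G ∨ ∃ ζ ∈ frontier G, dist z ζ < δ := by
  by_cases h : ∃ ζ ∈ frontier G, dist z ζ < δ
  · exact Or.inr h
  · push Not at h
    exact Or.inl (ball_subset_or hGo ⟨z, hz⟩ (by rw [infDist_zero_of_mem hz]; exact hδ) h)

/-- moving along a segment contained in `G` -/
lemma segment_est {G : Set ℂ} (hGo : IsOpen G) {h : ℂ → ℂ} (hh : DifferentiableOn ℂ h G) {C : ℝ}
    (hC : ∀ z ∈ G, ‖deriv h z‖ ≤ C) {x y : ℂ} (hseg : segment ℝ x y ⊆ G) :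
    ‖h y - h x‖ ≤ C * ‖y - x‖ :=
  (convex_segment x y).norm_image_sub_le_of_norm_hasDerivWithin_le (𝕜 := ℂ) (f := h)
    (f' := deriv h) (C := C)
    (fun z hz => (hh.differentiableAt (hGo.mem_nhds (hseg hz))).hasDerivAt.hasDerivWithinAt)
    (fun z hz => hC z (hseg hz)) (left_mem_segment ℝ x y) (right_mem_segment ℝ x y)

lemma segment_up {G : Set ℂ} {r κ : ℝ} (hG : ConeDom G r κ) {ζ ν : ℂ} (hν : IsDir G r κ ζ ν)
    {z : ℂ} (hz : z ∈ G) (hd : dist z ζ < r) {t : ℝ} (ht : 0 ≤ t) (htr : t < r) :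
    segment ℝ z (z + t * ν) ⊆ G := by
  intro w hw
  rw [segment_eq_image'] at hw
  obtain ⟨θ, hθ, rfl⟩ := hw
  have he : z + θ • (z + (t:ℂ) * ν - z) = z + ((θ * t : ℝ) : ℂ) * ν := by
    rw [Complex.real_smul]; push_cast; ring
  simp only [he]
  have hv0 : 0 ≤ θ * t := mul_nonneg hθ.1 ht
  have hvT : θ * t ≤ t := by nlinarith [hθ.2]
  rcases hv0.eq_or_lt with h0 | h0
  · rw [← h0]; simpa using hz
  · have := hG.κ_pos
    exact hν.2 z (subset_closure hz) hd _ h0 (by linarith) (mem_ball_self (by positivity))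

lemma bounded_of_deriv {G : Set ℂ} {r κ : ℝ} (hG : ConeDom G r κ) {h : ℂ → ℂ}
    (hh : DifferentiableOn ℂ h G) {C : ℝ} (hC : ∀ z ∈ G, ‖deriv h z‖ ≤ C) :
    ∃ B, ∀ z ∈ G, ‖h z‖ ≤ B := by
  have hκ := hG.κ_pos
  have hκ1 := hG.κ_le
  have hr := hG.r_pos
  set δ : ℝ := κ * r / 4 with hδ
  have hδ0 : 0 < δ := by positivity
  set K₀ : Set ℂ := {p | ball p δ ⊆ G} with hK₀
  have hK₁ : K₀ = {p | δ ≤ infDist p Gᶜ} := by
    have hne : Gᶜ.Nonempty := by
      by_contra h
      rw [not_nonempty_iff_eq_empty, compl_empty_iff] at h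
      have := hG.bdd
      rw [h] at this
      exact NormedSpace.unbounded_univ ℝ ℂ this
    ext p
    simp only [hK₀, mem_ofPred_eq]
    rw [le_infDist hne]
    constructor
    · intro h y hy
      by_contra hcon
      rw [not_le] at hcon
      exact hy (h (by rw [mem_ball, dist_comm]; exact hcon))
    · intro h y hy
      by_contra hcon
      have := h hcon
      rw [mem_ball, dist_comm] at hy
      linarith
  have hK₀G : K₀ ⊆ G := fun p hp => hp (mem_ball_self hδ0)
  have hKc : IsCompact K₀ := by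
    apply Metric.isCompact_of_isClosed_isBounded
    · rw [hK₁]; exact isClosed_le continuous_const (continuous_infDist_pt _)
    · exact hG.bdd.subset hK₀G
  obtain ⟨B, hB⟩ := hKc.exists_bound_of_continuousOn (hh.continuousOn.mono hK₀G)
  refine ⟨max B 0 + max C 0 * r, fun z hz => ?_⟩
  have hC0 : 0 ≤ max C 0 * r := mul_nonneg (le_max_right _ _) hr.le
  rcases deep_or_near hG.isOpen hz hδ0 with h | ⟨ζ, hζ, hd⟩
  · have := hB z h
    have := le_max_left B 0
    linarith
  · obtain ⟨ν, hν⟩ := hG.cone ζ hζ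
    have hdr : dist z ζ < r := by
      refine hd.trans ?_
      rw [hδ]; nlinarith
    have hmem : z + ((r / 2 : ℝ) : ℂ) * ν ∈ K₀ := by
      refine Subset.trans (ball_subset_ball ?_)
        (hν.2 z (subset_closure hz) hdr (r / 2) (by positivity) (by linarith))
      rw [hδ]; nlinarith
    have h1 := hB _ hmem
    have h2 := segment_est hG.isOpen hh hC
      (segment_up hG hν hz hdr (t := r / 2) (by positivity) (by linarith))
    have h3 : ‖z + ((r / 2 : ℝ) : ℂ) * ν - z‖ = r / 2 := by
      rw [add_sub_cancel_left, norm_mul, hν.1, Complex.norm_real, Real.norm_eq_abs,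
        abs_of_pos (by positivity), mul_one]
    rw [h3] at h2
    have h4 : ‖h z‖ ≤ ‖h (z + ((r / 2 : ℝ) : ℂ) * ν)‖ + ‖h (z + ((r / 2 : ℝ) : ℂ) * ν) - h z‖ := by
      have := norm_sub_norm_le (h z) (h (z + ((r / 2 : ℝ) : ℂ) * ν))
      rw [norm_sub_rev] at this
      linarith
    have h5 : C * (r / 2) ≤ max C 0 * r := by
      have := le_max_left C 0
      have h0 := le_max_right C 0
      nlinarith
    have h6 := le_max_left B 0
    linarith

lemma lipschitz_of_deriv {G : Set ℂ} {r κ : ℝ} (hG : ConeDom G r κ) {h : ℂ → ℂ}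
    (hh : DifferentiableOn ℂ h G) (hc : ContinuousOn h (closure G)) {C : ℝ}
    (hC : ∀ z ∈ G, ‖deriv h z‖ ≤ C) :
    ∃ L > 0, ∀ z ∈ closure G, ∀ e ∈ closure G, ‖h z - h e‖ ≤ L * dist z e := by
  have hκ := hG.κ_pos
  have hκ1 := hG.κ_le
  have hr := hG.r_pos
  obtain ⟨B, hB⟩ := bounded_of_deriv hG hh hC
  set C' := max C 0 with hC'
  have hC'0 : 0 ≤ C' := le_max_right _ _
  have hCC' : ∀ z ∈ G, ‖deriv h z‖ ≤ C' := fun z hz => (hC z hz).trans (le_max_left _ _)
  set B' := max B 0 with hB'
  have hB'0 : 0 ≤ B' := le_max_right _ _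
  set L : ℝ := 2 * B' / (κ * r / 8) + C' * (4 / κ + 1) + 1 with hL
  have hL0 : 0 < L := by positivity
  have hmain : ∀ z ∈ G, ∀ e ∈ G, ‖h z - h e‖ ≤ L * dist z e := by
    intro z hz e he
    set s := dist z e with hs
    have hs0 : 0 ≤ s := dist_nonneg
    rcases le_or_gt (κ * r / 8) s with hcase | hcase
    · have h1 : ‖h z - h e‖ ≤ 2 * B' := by
        have h2 := norm_sub_le (h z) (h e)
        have h3 := hB z hz
        have h4 := hB e he
        have h5 := le_max_left B 0
        linarith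
      have h2 : 2 * B' = 2 * B' / (κ * r / 8) * (κ * r / 8) := by field_simp
      have h3 : 0 ≤ 2 * B' / (κ * r / 8) := by positivity
      have h4 : 0 ≤ C' * (4 / κ + 1) := by positivity
      calc ‖h z - h e‖ ≤ 2 * B' / (κ * r / 8) * (κ * r / 8) := by rw [← h2]; exact h1
        _ ≤ 2 * B' / (κ * r / 8) * s := by gcongr
        _ ≤ L * s := by
          apply mul_le_mul_of_nonneg_right _ hs0
          rw [hL]; linarith
    · rcases hs0.eq_or_lt with h0 | h0
      · have : z = e := dist_eq_zero.1 h0.symm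
        rw [this, sub_self, norm_zero]; positivity
      · have hkey : ‖h z - h e‖ ≤ C' * (4 / κ + 1) * s := by
          rcases deep_or_near hG.isOpen hz (δ := 2 * s) (by positivity) with hb | ⟨ζ, hζ, hd⟩
          · have hseg : segment ℝ e z ⊆ G := by
              apply Subset.trans _ hb
              apply (convex_ball z (2 * s)).segment_subset
              · rw [mem_ball, dist_comm]; linarith
              · exact mem_ball_self (by positivity)
            have h1 := segment_est hG.isOpen hh hCC' hseg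
            rw [← dist_eq_norm z e, ← hs] at h1
            have h2 : (1:ℝ) ≤ 4 / κ + 1 := by
              have : 0 < 4 / κ := by positivity
              linarith
            calc ‖h z - h e‖ ≤ C' * s := h1
              _ ≤ C' * (4 / κ + 1) * s := by
                have : C' * 1 ≤ C' * (4 / κ + 1) := by gcongr
                nlinarith
          · obtain ⟨ν, hν⟩ := hG.cone ζ hζ
            have hsr : s < r / 32 := by nlinarith
            have hzr : dist z ζ < r := by linarith
            have her : dist e ζ < r := by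
              have := dist_triangle_left e ζ z
              linarith
            set t : ℝ := 2 * s / κ with ht
            have ht0 : 0 < t := by positivity
            have htr : t < r := by
              rw [ht, div_lt_iff₀ hκ]; nlinarith
            have h1 := segment_est hG.isOpen hh hCC' (segment_up hG hν hz hzr ht0.le htr)
            have h2 := segment_est hG.isOpen hh hCC' (segment_up hG hν he her ht0.le htr)
            have hball := hν.2 z (subset_closure hz) hzr t ht0 htr
            have hκt : κ * t = 2 * s := by rw [ht]; field_simp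
            rw [hκt] at hball
            have h3 := segment_est hG.isOpen hh hCC' (x := e + t * ν) (y := z + t * ν) (by
              apply Subset.trans _ hball
              apply (convex_ball (z + t * ν) (2 * s)).segment_subset
              · rw [mem_ball, dist_add_right, dist_comm]; linarith
              · exact mem_ball_self (by positivity))
            have h4 : ‖z + t * ν - z‖ = t := by
              rw [add_sub_cancel_left, norm_mul, hν.1, Complex.norm_real, Real.norm_eq_abs,
                abs_of_pos ht0, mul_one]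
            have h5 : ‖e + t * ν - e‖ = t := by
              rw [add_sub_cancel_left, norm_mul, hν.1, Complex.norm_real, Real.norm_eq_abs,
                abs_of_pos ht0, mul_one]
            have h6 : ‖z + t * ν - (e + t * ν)‖ = s := by
              rw [← dist_eq_norm, dist_add_right]
            rw [h4] at h1
            rw [h5] at h2
            rw [h6] at h3
            have h7 : h z - h e = -(h (z + t * ν) - h z) + (h (z + t * ν) - h (e + t * ν)) +
                (h (e + t * ν) - h e) := by ring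
            calc ‖h z - h e‖ ≤ C' * t + C' * s + C' * t := by
                  rw [h7]
                  refine (norm_add_le _ _).trans (add_le_add ((norm_add_le _ _).trans
                    (add_le_add ?_ h3)) h2)
                  rw [norm_neg]; exact h1
              _ = C' * (4 / κ + 1) * s := by rw [ht]; ring
        have h3 : 0 ≤ 2 * B' / (κ * r / 8) := by positivity
        calc ‖h z - h e‖ ≤ C' * (4 / κ + 1) * s := hkey
          _ ≤ L * s := by
            apply mul_le_mul_of_nonneg_right _ hs0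
            rw [hL]; linarith
  refine ⟨L, hL0, ?_⟩
  -- extension to the closure
  have hstep : ∀ e ∈ G, ∀ z ∈ closure G, ‖h z - h e‖ ≤ L * dist z e := by
    intro e he z hz
    have hf1 : ContinuousWithinAt (fun z => ‖h z - h e‖) G z :=
      (((hc z hz).mono subset_closure).sub continuousWithinAt_const).norm
    have hf2 : ContinuousWithinAt (fun z => L * dist z e) G z := by
      have : Continuous (fun z => L * dist z e) := by fun_prop
      exact this.continuousWithinAt
    exact ContinuousWithinAt.closure_le hz hf1 hf2 (fun y hy => hmain y hy e he)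
  intro z hz e he
  have hf1 : ContinuousWithinAt (fun e => ‖h z - h e‖) G e :=
    (continuousWithinAt_const.sub ((hc e he).mono subset_closure)).norm
  have hf2 : ContinuousWithinAt (fun e => L * dist z e) G e := by
    have : Continuous (fun e => L * dist z e) := by fun_prop
    exact this.continuousWithinAt
  exact ContinuousWithinAt.closure_le he hf1 hf2 (fun y hy => hstep y hy z hz)

/-- uniformly continuous functions are bounded on bounded sets -/
lemma bounded_of_uc {G : Set ℂ} (hb : Bornology.IsBounded G) {h : ℂ → ℂ}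
    (hu : UniformContinuousOn h G) : ∃ B, ∀ z ∈ G, ‖h z‖ ≤ B := by
  rw [Metric.uniformContinuousOn_iff] at hu
  obtain ⟨δ, hδ, hδh⟩ := hu 1 one_pos
  have htb : TotallyBounded G := hb.isCompact_closure.totallyBounded.subset subset_closure
  obtain ⟨t, htG, htf, htc⟩ := finite_approx_of_totallyBounded htb δ hδ
  obtain ⟨M, hM⟩ := (htf.image fun z => ‖h z‖).bddAbove
  refine ⟨M + 1, fun z hz => ?_⟩
  obtain ⟨y, hy, hzy⟩ := mem_iUnion₂.1 (htc hz)
  have h1 := hδh z hz y (htG hy) hzy
  have h2 : ‖h y‖ ≤ M := hM (mem_image_of_mem _ hy)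
  have h3 := norm_sub_norm_le (h z) (h y)
  rw [dist_eq_norm] at h1
  linarith

lemma deriv_bounded {G : Set ℂ} {r κ : ℝ} (hG : ConeDom G r κ) {f : ℂ → ℂ}
    (hf : DifferentiableOn ℂ f G) {γ : ℕ} (hγ : 1 ≤ γ)
    (hu : UniformContinuousOn (iteratedDeriv γ f) G) : ∃ C, ∀ z ∈ G, ‖deriv f z‖ ≤ C := by
  have han : AnalyticOnNhd ℂ f G := hf.analyticOnNhd hG.isOpen
  have hd : ∀ n, DifferentiableOn ℂ (iteratedDeriv n f) G := by
    intro n
    rw [iteratedDeriv_eq_iterate]
    exact (han.iterated_deriv n).differentiableOn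
  have hdown : ∀ n, 1 ≤ n → (∃ B, ∀ z ∈ G, ‖iteratedDeriv n f z‖ ≤ B) →
      ∃ B, ∀ z ∈ G, ‖iteratedDeriv 1 f z‖ ≤ B := by
    intro n hn
    induction n, hn using Nat.le_induction with
    | base => exact id
    | succ n _ ih =>
      rintro ⟨B, hB⟩
      apply ih
      apply bounded_of_deriv hG (hd n) (C := B)
      intro z hz
      have := hB z hz
      rwa [iteratedDeriv_succ] at this
  obtain ⟨B, hB⟩ := hdown γ hγ (bounded_of_uc hG.bdd hu)
  refine ⟨B, fun z hz => ?_⟩
  have := hB z hz
  rwa [iteratedDeriv_one] at this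

/-- main statement on a Lipschitz domain -/
theorem main {G : Set ℂ} (hGo : IsOpen G) (hconn : IsConnected G) (hb : Bornology.IsBounded G)
    (hch : ∀ ζ ∈ frontier G, Chart G ζ) {f : ℂ → ℂ} (hf : DifferentiableOn ℂ f G) {γ : ℕ}
    (hγ : 1 ≤ γ) (hu : UniformContinuousOn (iteratedDeriv γ f) G)
    (hc : ContinuousOn f (closure G)) (hf0 : ∃ z ∈ G, f z ≠ 0) {E : Set ℂ} (hE : IsClosed E)
    (hEG : E ⊆ closure G) (hE0 : ∀ z ∈ E, f z = 0) (γ' : ℕ) :
    ∃ g : ℂ → ℂ, DifferentiableOn ℂ g G ∧ UniformContinuousOn (iteratedDeriv γ' g) G ∧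
      ContinuousOn g (closure G) ∧ (∀ z ∈ E, g z = 0) ∧
      ∀ z ∈ closure G, f z ≠ 0 → g z ≠ 0 := by
  rcases eq_empty_or_nonempty E with hEe | hEne
  · refine ⟨fun _ => 1, differentiableOn_const _, ?_, continuousOn_const, ?_, fun _ _ _ => one_ne_zero⟩
    · have : iteratedDeriv γ' (fun _ : ℂ => (1:ℂ)) = fun _ => if γ' = 0 then 1 else 0 := by
        ext z
        rw [iteratedDeriv_const]
      rw [this]
      exact uniformContinuous_const.uniformContinuousOn
    · intro z hz
      rw [hEe] at hz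
      exact absurd hz (notMem_empty z)
  obtain ⟨r, κ, hG⟩ := exists_coneDom hGo hb hch
  obtain ⟨C, hC⟩ := deriv_bounded hG hf hγ hu
  obtain ⟨L, hL, hLip⟩ := lipschitz_of_deriv hG hf hc hC
  have hEc : IsCompact E := hb.isCompact_closure.of_isClosed_subset hE hEG
  let S : Setup :=
    { G := G
      r := r
      κ := κ
      hG := hG
      hconn := hconn.isPreconnected
      hne := hconn.nonempty
      F := f
      hFc := hc
      hFd := hf
      hF0 := hf0
      E := E
      hE := hEc
      hEG := hEG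
      hEne := hEne
      CF := L
      hCF0 := hL
      hCF := by
        intro z hz
        obtain ⟨e, he, hd⟩ := hEc.exists_infDist_eq_dist hEne z
        have := hLip z hz e (hEG he)
        rw [hE0 e he, sub_zero] at this
        rw [hd]
        exact this }
  exact S.exists_smooth γ'

end Pool.Agent.Helper93.LZ
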