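import Mathlib

/-!
Elementary potential theory in the plane: local sub-mean value property, maximum principle,
Poisson modification.
-/

open Set Metric Filter Topology Complex MeasureTheory Real InnerProductSpace

namespace Pool.Agent.Helper93.LZ

/-- local sub-mean value property at a point -/
def SubMeanAt (w : ℂ → ℝ) (z : ℂ) : Prop :=
  ∀ᶠ r in 𝓝[>] (0:ℝ), ContinuousOn w (sphere z r) ∧ w z ≤ circleAverage w z r

/-- weak maximum property at a point -/
def MaxProp (w : ℂ → ℝ) (z : ℂ) : Prop :=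
  ∀ᶠ r in 𝓝[>] (0:ℝ), (∀ ξ ∈ sphere z r, w ξ ≤ w z) → ∀ ξ ∈ sphere z r, w ξ = w z

lemma eventually_small {z : ℂ} {U : Set ℂ} (hU : U ∈ 𝓝 z) :
    ∀ᶠ r in 𝓝[>] (0:ℝ), closedBall z r ⊆ U := by
  obtain ⟨ε, hε, hb⟩ := Metric.nhds_basis_closedBall.mem_iff.1 hU
  filter_upwards [Ioc_mem_nhdsGT hε] with r hr
  exact (closedBall_subset_closedBall hr.2).trans hb

lemma circleIntegrable_of_cont {w : ℂ → ℝ} {z : ℂ} {r : ℝ} (hr : 0 ≤ r)
    (h : ContinuousOn w (sphere z r)) : CircleIntegrable w z r :=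
  h.circleIntegrable hr

lemma SubMeanAt.maxProp {w : ℂ → ℝ} {z : ℂ} (h : SubMeanAt w z) : MaxProp w z := by
  filter_upwards [h, self_mem_nhdsWithin] with r hr hr0 hle ξ hξ
  have hr0' : (0:ℝ) < r := hr0
  by_contra hne
  have hlt : w ξ < w z := lt_of_le_of_ne (hle ξ hξ) hne
  obtain ⟨hc, hav⟩ := hr
  have hcm : Continuous (fun θ : ℝ => w (circleMap z r θ)) := by
    rw [← continuousOn_univ]
    refine hc.comp (continuous_circleMap z r).continuousOn ?_
    intro θ _
    exact circleMap_mem_sphere z hr0'.le θ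
  -- angle of ξ
  obtain ⟨θ, hθ, hθ'⟩ : ∃ θ ∈ Icc (0:ℝ) (2 * π), circleMap z r θ = ξ := by
    have : ξ ∈ circleMap z r '' Ioc 0 (2 * π) := by
      rw [image_circleMap_Ioc, abs_of_pos hr0']
      exact hξ
    obtain ⟨θ, hθ, h2⟩ := this
    exact ⟨θ, Ioc_subset_Icc_self hθ, h2⟩
  have hpos : 0 < ∫ θ in (0:ℝ)..2 * π, (w z - w (circleMap z r θ)) := by
    refine intervalIntegral.integral_pos two_pi_pos (continuousOn_const.sub hcm.continuousOn) ?_ ?_
    · intro θ _
      have := hle _ (circleMap_mem_sphere z hr0'.le θ)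
      linarith
    · exact ⟨θ, hθ, by rw [hθ']; linarith⟩
  rw [intervalIntegral.integral_sub (by simp) (hcm.intervalIntegrable _ _)] at hpos
  simp only [intervalIntegral.integral_const, sub_zero, smul_eq_mul] at hpos
  rw [circleAverage_def, smul_eq_mul] at hav
  have h2 : (2 * π) * w z ≤ ∫ θ in (0:ℝ)..2 * π, w (circleMap z r θ) := by
    have := mul_le_mul_of_nonneg_left hav two_pi_pos.le
    rwa [← mul_assoc, mul_inv_cancel₀ two_pi_pos.ne', one_mul] at this
  linarith

lemma SubMeanAt.congr {w v : ℂ → ℝ} {z : ℂ} (h : SubMeanAt w z) (he : w =ᶠ[𝓝 z] v) :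
    SubMeanAt v z := by
  have hU : {x | w x = v x} ∈ 𝓝 z := he
  filter_upwards [h, eventually_small hU, self_mem_nhdsWithin] with r hr hs hr0
  have hr0' : (0:ℝ) < r := hr0
  have hz : w z = v z := hs (mem_closedBall_self hr0'.le)
  have hsp : ∀ x ∈ sphere z r, w x = v x := fun x hx => hs (sphere_subset_closedBall hx)
  refine ⟨hr.1.congr fun x hx => (hsp x hx).symm, ?_⟩
  rw [← hz]
  refine hr.2.trans (le_of_eq ?_)
  apply circleAverage_congr_sphere
  intro x hx
  rw [abs_of_pos hr0'] at hx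
  exact hsp x hx

/-- glueing: if `w` is sub-mean at `z`, `v z = w z` and `w ≤ v` nearby then `v` is sub-mean -/
lemma SubMeanAt.of_le {w v : ℂ → ℝ} {z : ℂ} (h : SubMeanAt w z) (hz : v z = w z)
    (hle : ∀ᶠ x in 𝓝 z, w x ≤ v x) {U : Set ℂ} (hU : U ∈ 𝓝 z) (hv : ContinuousOn v U) :
    SubMeanAt v z := by
  have hU' : {x | w x ≤ v x} ∈ 𝓝 z := hle
  filter_upwards [h, eventually_small hU', eventually_small hU, self_mem_nhdsWithin]
    with r hr hs hs2 hr0
  have hr0' : (0:ℝ) < r := hr0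
  have hvc : ContinuousOn v (sphere z r) := hv.mono (sphere_subset_closedBall.trans hs2)
  refine ⟨hvc, ?_⟩
  rw [hz]
  refine hr.2.trans ?_
  apply circleAverage_mono (hr.1.circleIntegrable hr0'.le) (hvc.circleIntegrable hr0'.le)
  intro x hx
  rw [abs_of_pos hr0'] at hx
  exact hs (sphere_subset_closedBall hx)

lemma SubMeanAt.add {w v : ℂ → ℝ} {z : ℂ} (h : SubMeanAt w z) (h' : SubMeanAt v z) :
    SubMeanAt (fun x => w x + v x) z := by
  filter_upwards [h, h', self_mem_nhdsWithin] with r hr hr' hr0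
  have hr0' : (0:ℝ) < r := hr0
  refine ⟨hr.1.add hr'.1, ?_⟩
  rw [circleAverage_fun_add (hr.1.circleIntegrable hr0'.le) (hr'.1.circleIntegrable hr0'.le)]
  exact add_le_add hr.2 hr'.2

lemma SubMeanAt.const_mul {w : ℂ → ℝ} {z : ℂ} (h : SubMeanAt w z) {a : ℝ} (ha : 0 ≤ a) :
    SubMeanAt (fun x => a * w x) z := by
  filter_upwards [h, self_mem_nhdsWithin] with r hr hr0
  refine ⟨continuousOn_const.mul hr.1, ?_⟩
  have : circleAverage (fun x => a * w x) z r = a * circleAverage w z r := by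
    have := circleAverage_fun_smul (f := w) (c := z) (R := r) (a := a)
    simpa [smul_eq_mul] using this
  rw [this]
  exact mul_le_mul_of_nonneg_left hr.2 ha

lemma subMeanAt_const (a : ℝ) (z : ℂ) : SubMeanAt (fun _ => a) z := by
  filter_upwards with r
  exact ⟨continuousOn_const, by rw [circleAverage_const]⟩

lemma subMeanAt_of_harmonicAt {w : ℂ → ℝ} {z : ℂ} (h : HarmonicAt w z) : SubMeanAt w z := by
  have hU : {x | HarmonicAt w x} ∈ 𝓝 z := (isOpen_setOfPred_harmonicAt w).mem_nhds h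
  filter_upwards [eventually_small hU, self_mem_nhdsWithin] with r hs hr0
  have hr0' : (0:ℝ) < r := hr0
  have hh : HarmonicOnNhd w (closedBall z |r|) := by
    rw [abs_of_pos hr0']; exact hs
  refine ⟨?_, by rw [hh.circleAverage_eq]⟩
  have : HarmonicOnNhd w (closedBall z r) := hs
  exact this.continuousOn.mono sphere_subset_closedBall

lemma SubMeanAt.sub_harmonic {w v : ℂ → ℝ} {z : ℂ} (h : SubMeanAt w z) (h' : HarmonicAt v z) :
    SubMeanAt (fun x => w x - v x) z := by
  have := h.add (subMeanAt_of_harmonicAt h'.neg)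
  simpa [sub_eq_add_neg] using this

theorem max_principle {K Ω : Set ℂ} (hK : IsCompact K) (hΩ : IsOpen Ω)
    {X : ℂ → ℝ} (hX : ContinuousOn X K) {B : ℝ} (hΩK : Ω ⊆ K)
    (hbd : ∀ z ∈ K \ Ω, X z ≤ B)
    (hsub : ∀ z ∈ Ω, B < X z → MaxProp X z) : ∀ z ∈ K, X z ≤ B := by
  intro z₁ hz₁
  by_contra hlt
  rw [not_le] at hlt
  obtain ⟨z₀, hz₀, hmax⟩ := hK.exists_isMaxOn ⟨z₁, hz₁⟩ hX
  have hM : B < X z₀ := hlt.trans_le (hmax hz₁)
  -- the set of maximum points
  set A : Set ℂ := K ∩ X ⁻¹' {X z₀} with hA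
  have hAc : IsCompact A := by
    refine hK.of_isClosed_subset ?_ inter_subset_left
    exact hX.preimage_isClosed_of_isClosed hK.isClosed isClosed_singleton
  have hAne : A.Nonempty := ⟨z₀, hz₀, rfl⟩
  obtain ⟨p, hp, hpmax⟩ := hAc.exists_isMaxOn hAne Complex.continuous_re.continuousOn
  have hpX : X p = X z₀ := hp.2
  have hpΩ : p ∈ Ω := by
    by_contra hn
    have := hbd p ⟨hp.1, hn⟩
    rw [hpX] at this
    linarith
  have hev := hsub p hpΩ (by rw [hpX]; exact hM)
  have hne : (𝓝[>] (0:ℝ)).NeBot := inferInstance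
  obtain ⟨r, hr1, hr2, hr0⟩ := (hev.and ((eventually_small (hΩ.mem_nhds hpΩ)).and
    (self_mem_nhdsWithin : {x | (0:ℝ) < x} ∈ 𝓝[>] (0:ℝ)))).exists
  have hr0' : (0:ℝ) < r := hr0
  have hall : ∀ ξ ∈ sphere p r, X ξ ≤ X p := by
    intro ξ hξ
    rw [hpX]
    exact hmax (hΩK (hr2 (sphere_subset_closedBall hξ)))
  have hq : p + (r:ℂ) ∈ sphere p r := by
    simp [abs_of_pos hr0']
  have hXq := hr1 hall _ hq
  have hqA : p + (r:ℂ) ∈ A := ⟨hΩK (hr2 (sphere_subset_closedBall hq)), by
    simp only [mem_preimage, mem_singleton_iff]; rw [hXq, hpX]⟩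
  have := hpmax hqA
  simp only [mem_ofPred_eq, Complex.add_re, Complex.ofReal_re] at this
  linarith

/-! ### Poisson integral -/

/-- Poisson integral on a disc, extended by the boundary function outside of the disc -/
noncomputable def pois (c : ℂ) (R : ℝ) (φ : ℂ → ℝ) (z : ℂ) : ℝ :=
  open Classical in
  if z ∈ ball c R then circleAverage (poissonKernel c z • φ) c R else φ z

lemma pois_of_mem {c : ℂ} {R : ℝ} {φ : ℂ → ℝ} {z : ℂ} (hz : z ∈ ball c R) :
    pois c R φ z = circleAverage (poissonKernel c z • φ) c R := by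
  rw [pois, if_pos hz]

lemma pois_of_notMem {c : ℂ} {R : ℝ} {φ : ℂ → ℝ} {z : ℂ} (hz : z ∉ ball c R) :
    pois c R φ z = φ z := by
  rw [pois, if_neg hz]

lemma poissonKernel_pos {c z ξ : ℂ} {R : ℝ} (hz : z ∈ ball c R) (hξ : ξ ∈ sphere c R) :
    0 < poissonKernel c z ξ := by
  rw [poissonKernel_def]
  have h1 : ‖ξ - c‖ = R := by rwa [mem_sphere_iff_norm] at hξ
  have h2 : ‖z - c‖ < R := by rwa [mem_ball_iff_norm] at hz
  have h3 : (ξ - c) - (z - c) ≠ 0 := by
    intro h
    rw [sub_eq_zero] at h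
    rw [h] at h1
    linarith
  have h4 : 0 < ‖(ξ - c) - (z - c)‖ := norm_pos_iff.2 h3
  have h5 : 0 ≤ ‖z - c‖ := norm_nonneg _
  apply div_pos _ (by positivity)
  rw [h1]
  nlinarith

lemma continuousOn_poissonKernel {c z : ℂ} {R : ℝ} (hz : z ∈ ball c R) :
    ContinuousOn (poissonKernel c z) (sphere c R) := by
  have h1 : (poissonKernel c z) = fun ξ => (‖ξ - c‖ ^ 2 - ‖z - c‖ ^ 2) / ‖(ξ - c) - (z - c)‖ ^ 2 := by
    ext ξ; rw [poissonKernel_def]
  rw [h1]
  apply ContinuousOn.div (by fun_prop) (by fun_prop)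
  intro ξ hξ h
  have h1 : ‖ξ - c‖ = R := by rwa [mem_sphere_iff_norm] at hξ
  have h2 : ‖z - c‖ < R := by rwa [mem_ball_iff_norm] at hz
  rw [sq_eq_zero_iff, norm_eq_zero, sub_eq_zero] at h
  rw [h] at h1
  linarith

lemma circleAverage_poissonKernel_const {c z : ℂ} {R : ℝ} (hz : z ∈ ball c R) (a : ℝ) :
    circleAverage (poissonKernel c z • (fun _ => a)) c R = a := by
  have h : HarmonicOnNhd (fun _ : ℂ => a) (closedBall c R) := fun x _ => harmonicAt_const a
  exact h.circleAverage_poissonKernel_smul hz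

lemma continuousOn_poisson_smul {c z : ℂ} {R : ℝ} {φ : ℂ → ℝ} (hz : z ∈ ball c R)
    (hφ : ContinuousOn φ (sphere c R)) : ContinuousOn (poissonKernel c z • φ) (sphere c R) :=
  (continuousOn_poissonKernel hz).smul hφ

/-- pointwise comparison of the Poisson integral -/
lemma circleAverage_poisson_mono {c z : ℂ} {R : ℝ} {φ ψ : ℂ → ℝ} (hz : z ∈ ball c R)
    (hφ : CircleIntegrable φ c R) (hψ : CircleIntegrable ψ c R)
    (h : ∀ ξ ∈ sphere c R, φ ξ ≤ ψ ξ) :
    circleAverage (poissonKernel c z • φ) c R ≤ circleAverage (poissonKernel c z • ψ) c R := by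
  have hR : 0 < R := pos_of_mem_ball hz
  have hk : ContinuousOn (poissonKernel c z) (sphere c |R|) := by
    rw [abs_of_pos hR]; exact continuousOn_poissonKernel hz
  apply circleAverage_mono
  · exact hφ.continuousOn_smul hk
  · exact hψ.continuousOn_smul hk
  · intro ξ hξ
    rw [abs_of_pos hR] at hξ
    simp only [Pi.smul_apply', smul_eq_mul]
    exact mul_le_mul_of_nonneg_left (h ξ hξ) (poissonKernel_pos hz hξ).le

lemma pois_mono {c : ℂ} {R : ℝ} {φ ψ : ℂ → ℝ} (hφ : ContinuousOn φ (sphere c R))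
    (hψ : ContinuousOn ψ (sphere c R)) (h : ∀ ξ ∈ sphere c R, φ ξ ≤ ψ ξ) :
    ∀ z ∈ closedBall c R, pois c R φ z ≤ pois c R ψ z := by
  intro z hz
  by_cases hzb : z ∈ ball c R
  · rw [pois_of_mem hzb, pois_of_mem hzb]
    have hR : 0 < R := pos_of_mem_ball hzb
    exact circleAverage_poisson_mono hzb (hφ.circleIntegrable hR.le) (hψ.circleIntegrable hR.le) h
  · rw [pois_of_notMem hzb, pois_of_notMem hzb]
    apply h
    rw [mem_sphere]
    rw [mem_closedBall] at hz
    rw [mem_ball, not_lt] at hzb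
    exact le_antisymm hz hzb

lemma mem_sphere_of_closedBall {c z : ℂ} {R : ℝ} (hz : z ∈ closedBall c R) (hzb : z ∉ ball c R) :
    z ∈ sphere c R := by
  rw [mem_sphere]
  rw [mem_closedBall] at hz
  rw [mem_ball, not_lt] at hzb
  exact le_antisymm hz hzb

lemma pois_ge {c : ℂ} {R a : ℝ} {φ : ℂ → ℝ} (hφ : ContinuousOn φ (sphere c R))
    (h : ∀ ξ ∈ sphere c R, a ≤ φ ξ) :
    ∀ z ∈ closedBall c R, a ≤ pois c R φ z := by
  intro z hz
  by_cases hzb : z ∈ ball c R
  · have := pois_mono continuousOn_const hφ h z hz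
    rwa [pois_of_mem hzb, circleAverage_poissonKernel_const hzb] at this
  · rw [pois_of_notMem hzb]
    exact h z (mem_sphere_of_closedBall hz hzb)

lemma pois_le {c : ℂ} {R a : ℝ} {φ : ℂ → ℝ} (hφ : ContinuousOn φ (sphere c R))
    (h : ∀ ξ ∈ sphere c R, φ ξ ≤ a) :
    ∀ z ∈ closedBall c R, pois c R φ z ≤ a := by
  intro z hz
  by_cases hzb : z ∈ ball c R
  · have := pois_mono hφ continuousOn_const h z hz
    rw [pois_of_mem hzb, pois_of_mem hzb, circleAverage_poissonKernel_const hzb] at this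
    rwa [pois_of_mem hzb]
  · rw [pois_of_notMem hzb]
    exact h z (mem_sphere_of_closedBall hz hzb)

/-- boundary estimate of the Poisson integral -/
lemma poisson_boundary_est {c z z₀ : ℂ} {R ε δ M : ℝ} {φ : ℂ → ℝ} (hz : z ∈ ball c R)
    (hφ : ContinuousOn φ (sphere c R)) (hz₀ : z₀ ∈ sphere c R) (hδ : 0 < δ) (hε : 0 ≤ ε)
    (hM : ∀ ξ ∈ sphere c R, |φ ξ| ≤ M)
    (hc : ∀ ξ ∈ sphere c R, dist ξ z₀ < δ → |φ ξ - φ z₀| ≤ ε) (hzz : dist z z₀ < δ / 2) :
    |circleAverage (poissonKernel c z • φ) c R - φ z₀| ≤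
      ε + 2 * M * (R ^ 2 - ‖z - c‖ ^ 2) * (4 / δ ^ 2) := by
  have hR : 0 < R := pos_of_mem_ball hz
  have hk : ContinuousOn (poissonKernel c z) (sphere c |R|) := by
    rw [abs_of_pos hR]; exact continuousOn_poissonKernel hz
  have hφi : CircleIntegrable φ c R := hφ.circleIntegrable hR.le
  have hrew : circleAverage (poissonKernel c z • φ) c R - φ z₀ =
      circleAverage (poissonKernel c z • (fun ξ => φ ξ - φ z₀)) c R := by
    have h1 : (poissonKernel c z • (fun ξ => φ ξ - φ z₀)) =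
        (poissonKernel c z • φ) - (poissonKernel c z • (fun _ => φ z₀)) := by
      ext ξ
      simp [mul_sub]
    rw [h1, circleAverage_sub (hφi.continuousOn_smul hk)
      ((circleIntegrable_const _ _ _).continuousOn_smul hk),
      circleAverage_poissonKernel_const hz]
  rw [hrew]
  refine abs_circleAverage_le_circleAverage_abs.trans ?_
  have hM0 : 0 ≤ M := (abs_nonneg _).trans (hM z₀ hz₀)
  have hzc : ‖z - c‖ < R := by rwa [mem_ball_iff_norm] at hz
  have hn : 0 ≤ R ^ 2 - ‖z - c‖ ^ 2 := by nlinarith [norm_nonneg (z - c)]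
  have hkey : ∀ ξ ∈ sphere c |R|, |poissonKernel c z • (fun ξ => φ ξ - φ z₀)| ξ ≤
      (fun ξ => (poissonKernel c z • (fun _ => ε)) ξ + 2 * M * (R ^ 2 - ‖z - c‖ ^ 2) * (4 / δ ^ 2)) ξ := by
    intro ξ hξ
    rw [abs_of_pos hR] at hξ
    have hP := poissonKernel_pos hz hξ
    change |poissonKernel c z ξ * (φ ξ - φ z₀)| ≤ poissonKernel c z ξ * ε + _
    rw [abs_mul, abs_of_pos hP]
    by_cases hd : dist ξ z₀ < δ
    · have := mul_le_mul_of_nonneg_left (hc ξ hξ hd) hP.le
      have h2 : 0 ≤ 2 * M * (R ^ 2 - ‖z - c‖ ^ 2) * (4 / δ ^ 2) := by positivity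
      linarith
    · rw [not_lt] at hd
      have h1 : δ / 2 ≤ dist ξ z := by
        have := dist_triangle ξ z z₀
        linarith
      have h3 : ‖ξ - c - (z - c)‖ = dist ξ z := by
        rw [dist_eq_norm]; congr 1; ring
      have h2 : poissonKernel c z ξ ≤ (R ^ 2 - ‖z - c‖ ^ 2) * (4 / δ ^ 2) := by
        rw [poissonKernel_def, h3]
        have h4 : ‖ξ - c‖ = R := by rwa [mem_sphere_iff_norm] at hξ
        rw [h4, div_eq_mul_inv]
        apply mul_le_mul_of_nonneg_left _ hn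
        rw [show (4:ℝ) / δ ^ 2 = ((δ / 2) ^ 2)⁻¹ by field_simp; norm_num]
        gcongr
      have h5 : |φ ξ - φ z₀| ≤ 2 * M := by
        have := hM ξ hξ
        have := hM z₀ hz₀
        have := abs_sub (φ ξ) (φ z₀)
        linarith
      have h6 : poissonKernel c z ξ * |φ ξ - φ z₀| ≤
          (R ^ 2 - ‖z - c‖ ^ 2) * (4 / δ ^ 2) * (2 * M) := by
        gcongr
      have h7 : 0 ≤ poissonKernel c z ξ * ε := by positivity
      nlinarith
  have hi1 : CircleIntegrable (poissonKernel c z • (fun _ => ε)) c R :=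
    (circleIntegrable_const _ _ _).continuousOn_smul hk
  have hi2 : CircleIntegrable (fun _ : ℂ => 2 * M * (R ^ 2 - ‖z - c‖ ^ 2) * (4 / δ ^ 2)) c R :=
    circleIntegrable_const _ _ _
  refine (circleAverage_mono ?_ (hi1.add hi2) hkey).trans ?_
  · have : ContinuousOn (|poissonKernel c z • (fun ξ => φ ξ - φ z₀)|) (sphere c R) :=
      ((continuousOn_poissonKernel hz).smul (hφ.sub continuousOn_const)).abs
    exact this.circleIntegrable hR.le
  · rw [circleAverage_add hi1 hi2, circleAverage_poissonKernel_const hz, circleAverage_const]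

lemma pois_continuousOn' {c : ℂ} {R : ℝ} {φ : ℂ → ℝ}
    (hφ : ContinuousOn φ (sphere c R)) (hh : HarmonicOnNhd (pois c R φ) (ball c R)) :
    ContinuousOn (pois c R φ) (closedBall c R) := by
  intro z₀ hz₀
  by_cases hb : z₀ ∈ ball c R
  · exact (hh.continuousOn.continuousAt (isOpen_ball.mem_nhds hb)).continuousWithinAt
  have hs : z₀ ∈ sphere c R := mem_sphere_of_closedBall hz₀ hb
  rw [Metric.continuousWithinAt_iff]
  intro ε hε
  obtain ⟨M, hM⟩ := (isCompact_sphere c R).exists_bound_of_continuousOn hφ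
  have hM0 : 0 ≤ M := (norm_nonneg _).trans (hM z₀ hs)
  have hc := Metric.continuousWithinAt_iff.1 (hφ z₀ hs) (ε / 2) (by positivity)
  obtain ⟨δ, hδ, hδc⟩ := hc
  -- quantity tending to zero
  have hq : ContinuousAt (fun z : ℂ => 2 * M * (R ^ 2 - ‖z - c‖ ^ 2) * (4 / δ ^ 2)) z₀ := by
    fun_prop
  have hq0 : 2 * M * (R ^ 2 - ‖z₀ - c‖ ^ 2) * (4 / δ ^ 2) = 0 := by
    rw [mem_sphere_iff_norm] at hs
    rw [hs]; ring
  obtain ⟨δ₂, hδ₂, hq2⟩ := Metric.continuousAt_iff.1 hq (ε / 2) (by positivity)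
  refine ⟨min (δ / 2) δ₂, by positivity, ?_⟩
  intro z hz hd
  rw [pois_of_notMem hb]
  by_cases hzb : z ∈ ball c R
  · rw [pois_of_mem hzb, Real.dist_eq]
    have h1 := poisson_boundary_est hzb hφ hs hδ (ε := ε / 2) (by positivity)
      (M := M) (fun ξ hξ => hM ξ hξ) (fun ξ hξ h => (hδc hξ h).le)
      (lt_of_lt_of_le hd (min_le_left _ _))
    have h2 := hq2 (lt_of_lt_of_le hd (min_le_right _ _))
    rw [hq0, Real.dist_eq, sub_zero] at h2
    have h3 := (abs_lt.1 h2).2
    linarith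
  · rw [pois_of_notMem hzb]
    have h1 := hδc (mem_sphere_of_closedBall hz hzb)
      (lt_of_lt_of_le hd ((min_le_left _ _).trans (by linarith)))
    linarith

/-- the Poisson integral is locally the real part of an analytic function -/
lemma pois_analytic {c : ℂ} {R : ℝ} {φ : ℂ → ℝ} (hφ : CircleIntegrable φ c R) :
    ∃ F : ℂ → ℂ, AnalyticOnNhd ℂ F (ball c R) ∧ ∀ z ∈ ball c R, (F z).re = pois c R φ z := by
  have hφ0 : CircleIntegrable (fun ζ => φ (ζ + c)) 0 R := by
    have : (fun θ : ℝ => φ (circleMap c R θ)) = fun θ : ℝ => φ (circleMap 0 R θ + c) := by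
      ext θ
      simp [circleMap, add_comm]
    simpa [CircleIntegrable, this] using hφ
  have hφ1 : CircleIntegrable (fun ζ => ((φ (ζ + c) : ℝ) : ℂ)) 0 R := by
    simp only [CircleIntegrable, intervalIntegrable_iff] at hφ0 ⊢
    exact Complex.ofRealCLM.integrable_comp hφ0
  have han := analyticOnNhd_circleAverage_herglotzRieszKernel_smul hφ1
  refine ⟨fun z => circleAverage (fun ζ ↦ herglotzRieszKernel 0 (z - c) ζ • ((φ (ζ + c) : ℝ) : ℂ)) 0 R,
    ?_, ?_⟩
  · intro z hz
    have hz0 : z - c ∈ ball (0:ℂ) R := by simpa [dist_eq_norm] using hz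
    have h1 := han (z - c) hz0
    exact AnalyticAt.fun_comp (f := fun z => z - c) (x := z) h1 (by fun_prop)
  · intro z hz
    have hz0 : z - c ∈ ball (0:ℂ) R := by simpa [dist_eq_norm] using hz
    rw [pois_of_mem hz]
    have h1 := re_circleAverage_herglotzRieszKernel_smul (g := fun ζ => φ (ζ + c)) hφ0 hz0
    rw [h1, ← circleAverage_map_add_const (f := poissonKernel c z • φ)]
    apply circleAverage_congr_sphere
    intro ζ _
    simp only [Pi.smul_apply', smul_eq_mul, poissonKernel_eq_re_herglotzRieszKernel,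
      Function.comp_apply]
    rw [herglotzRieszKernel_add_const]

lemma pois_harmonic {c : ℂ} {R : ℝ} {φ : ℂ → ℝ} (hφ : CircleIntegrable φ c R) :
    HarmonicOnNhd (pois c R φ) (ball c R) := by
  obtain ⟨F, hF, hre⟩ := pois_analytic hφ
  intro z hz
  have h1 : HarmonicAt (fun z => (F z).re) z := (hF z hz).harmonicAt_re
  refine (harmonicAt_congr_nhds ?_).1 h1
  filter_upwards [isOpen_ball.mem_nhds hz] with x hx using hre x hx

lemma pois_continuousOn {c : ℂ} {R : ℝ} {φ : ℂ → ℝ} (hR : 0 ≤ R)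
    (hφ : ContinuousOn φ (sphere c R)) :
    ContinuousOn (pois c R φ) (closedBall c R) :=
  pois_continuousOn' hφ (pois_harmonic (hφ.circleIntegrable hR))

lemma pois_sphere {c : ℂ} {R : ℝ} {φ : ℂ → ℝ} {z : ℂ} (hz : z ∈ sphere c R) :
    pois c R φ z = φ z := by
  apply pois_of_notMem
  rw [mem_sphere] at hz
  rw [mem_ball, hz]
  exact lt_irrefl _

/-- a continuous function with the local sub-mean value property is dominated by its
Poisson integral -/
lemma le_pois {c : ℂ} {R : ℝ} {w : ℂ → ℝ} (hR : 0 ≤ R) (hw : ContinuousOn w (closedBall c R))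
    (hsub : ∀ z ∈ ball c R, SubMeanAt w z) : ∀ z ∈ closedBall c R, w z ≤ pois c R w z := by
  have hws := hw.mono sphere_subset_closedBall
  have hh := pois_harmonic (hws.circleIntegrable hR)
  have hc := pois_continuousOn hR hws
  have := max_principle (K := closedBall c R) (Ω := ball c R) (isCompact_closedBall c R)
    isOpen_ball (X := fun z => w z - pois c R w z) (hw.sub hc) (B := 0) ball_subset_closedBall
    ?_ ?_
  · intro z hz
    have := this z hz
    linarith
  · intro z hz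
    have hzs := mem_sphere_of_closedBall hz.1 hz.2
    simp [pois_sphere hzs]
  · intro z hz _
    exact ((hsub z hz).sub_harmonic (hh z hz)).maxProp

/-- Harnack type lower bound for the Poisson integral of a nonnegative function -/
lemma pois_harnack {c : ℂ} {R : ℝ} {φ : ℂ → ℝ} (hR : 0 < R) (hφ : ContinuousOn φ (sphere c R))
    (h0 : ∀ ξ ∈ sphere c R, 0 ≤ φ ξ) {z : ℂ} (hz : dist z c ≤ R / 2) :
    pois c R φ c / 3 ≤ pois c R φ z := by
  have hzb : z ∈ ball c R := by rw [mem_ball]; linarith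
  have hcb : c ∈ ball c R := mem_ball_self hR
  have hφi := hφ.circleIntegrable hR.le
  rw [pois_of_mem hzb, pois_of_mem hcb]
  have hk1 : ContinuousOn (poissonKernel c z) (sphere c |R|) := by
    rw [abs_of_pos hR]; exact continuousOn_poissonKernel hzb
  have hk2 : ContinuousOn (poissonKernel c c) (sphere c |R|) := by
    rw [abs_of_pos hR]; exact continuousOn_poissonKernel hcb
  have h1 : circleAverage (poissonKernel c c • φ) c R / 3 =
      circleAverage ((1/3 : ℝ) • (poissonKernel c c • φ)) c R := by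
    rw [circleAverage_smul, smul_eq_mul]; ring
  rw [h1]
  apply circleAverage_mono
  · exact (hφi.continuousOn_smul hk2).const_smul
  · exact hφi.continuousOn_smul hk1
  · intro ξ hξ
    rw [abs_of_pos hR] at hξ
    change (1/3 : ℝ) * (poissonKernel c c ξ * φ ξ) ≤ poissonKernel c z ξ * φ ξ
    rw [← mul_assoc]
    apply mul_le_mul_of_nonneg_right _ (h0 ξ hξ)
    have hξn : ‖ξ - c‖ = R := by rwa [mem_sphere_iff_norm] at hξ
    have hcc : poissonKernel c c ξ = 1 := by
      rw [poissonKernel_def]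
      simp only [sub_self, norm_zero, sub_zero, hξn]
      simp [hR.ne']
    rw [hcc]
    have h2 := le_re_herglotzRieszKernel hξ hzb
    have h3 : poissonKernel c z ξ = ((ξ - c + (z - c)) / ((ξ - c) - (z - c))).re := by
      rw [poissonKernel_eq_re_herglotzRieszKernel]; rfl
    rw [h3]
    refine le_trans ?_ h2
    have hzn : ‖z - c‖ ≤ R / 2 := by rwa [← dist_eq_norm]
    have hn0 := norm_nonneg (z - c)
    rw [mul_one, div_le_div_iff₀ (by norm_num) (by linarith)]
    linarith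

end Pool.Agent.Helper93.LZ
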