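import Pool.Agent.Helper93.LZ.Limit2

/-!
Smoothness of the constructed function up to the boundary.
-/

open Set Metric Filter Topology Complex MeasureTheory Real InnerProductSpace

namespace Pool.Agent.Helper93.LZ

namespace Setup

variable (S : Setup)

/-- derivative of order `j`, extended by zero -/
noncomputable def Dj (Ω : Set ℂ) (g : ℂ → ℂ) (j : ℕ) (z : ℂ) : ℂ :=
  open Classical in if z ∈ Ω then iteratedDeriv j g z else 0

lemma mem_fat_of_closure {M : ℕ} {c₁ : ℝ} (hc₁ : 0 < c₁) {z : ℂ} (hz : z ∈ closure S.G)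
    (hds : 0 < S.ds z) : z ∈ fat S.G (fun z => c₁ * S.ds z ^ M) := by
  rw [mem_fat, ← infDist_closure, infDist_zero_of_mem hz]
  positivity

lemma Dj_continuousOn {M N : ℕ} {c₁ A : ℝ} (hM : 0 < M) (hc₁ : 0 < c₁)
    (hρ : Fatt S.G S.r S.κ (fun z => c₁ * S.ds z ^ M)) (hA : 0 < A) {g : ℂ → ℂ}
    (hg : DifferentiableOn ℂ g (fat S.G (fun z => c₁ * S.ds z ^ M)))
    (hgA : ∀ z ∈ fat S.G (fun z => c₁ * S.ds z ^ M), ‖g z‖ ≤ A * S.ds z ^ N) {j : ℕ}
    (hj : M * j < N) :
    ContinuousOn (Dj (fat S.G (fun z => c₁ * S.ds z ^ M)) g j) (closure S.G) := by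
  classical
  set ρ : ℂ → ℝ := fun z => c₁ * S.ds z ^ M with hρdef
  set Ω := fat S.G ρ with hΩ
  have hΩo : IsOpen Ω := isOpen_fat hρ
  have hκ := S.hG.κ_pos
  have hκ1 := S.hG.κ_le
  have hbound : ∀ z ∈ closure S.G, z ∈ Ω → ‖iteratedDeriv j g z‖ ≤
      (j.factorial * (A * 2 ^ N) / (c₁ / 4) ^ j) * S.ds z ^ (N - M * j) := by
    intro z hz hzΩ
    have hρ0 : 0 < ρ z := infDist_nonneg.trans_lt (mem_fat.1 hzΩ)
    have hds : 0 < S.ds z := by
      rcases (S.ds_nonneg z).eq_or_lt with h | h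
      · simp only [hρdef, ← h, zero_pow hM.ne', mul_zero] at hρ0
        exact absurd hρ0 (lt_irrefl _)
      · exact h
    have hρds : ρ z ≤ S.ds z := by
      obtain ⟨e, he, hd⟩ := S.isClosed_Es.exists_infDist_eq_dist S.Es_nonempty z
      have h1 : ρ z - ρ e ≤ S.κ / 4 * dist z e := hρ.lip z e
      have h2 : S.ds e = 0 := infDist_zero_of_mem he
      have h2' : ρ e = 0 := by
        simp only [hρdef, h2, zero_pow hM.ne', mul_zero]
      rw [h2', sub_zero] at h1
      have h3 : S.ds z = dist z e := hd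
      have h4 : 0 ≤ dist z e := dist_nonneg
      calc ρ z ≤ S.κ / 4 * dist z e := h1
        _ ≤ 1 * dist z e := by
          apply mul_le_mul_of_nonneg_right _ h4
          linarith
        _ = S.ds z := by rw [one_mul, h3]
    have hcl : closedBall z (ρ z / 4) ⊆ Ω := by
      intro w hw
      rw [mem_closedBall] at hw
      rw [hΩ, mem_fat]
      have h1 : infDist w S.G ≤ dist w z := by
        rw [← infDist_closure]; exact infDist_le_dist_of_mem hz
      have h2 := hρ.lip z w
      rw [dist_comm z w] at h2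
      have h3 : S.κ / 4 * dist w z ≤ 1 * (ρ z / 4) := by
        apply mul_le_mul (by linarith) hw dist_nonneg zero_le_one
      have h4 : ρ z - ρ w ≤ 1 * (ρ z / 4) := h2.trans h3
      linarith
    have hds2 : ∀ w ∈ closedBall z (ρ z / 4), S.ds w ≤ 2 * S.ds z := by
      intro w hw
      rw [mem_closedBall] at hw
      have := S.ds_lip w z
      linarith
    have hdc : DiffContOnCl ℂ g (ball z (ρ z / 4)) := by
      apply DifferentiableOn.diffContOnCl
      rw [closure_ball z (by positivity)]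
      exact hg.mono hcl
    have h1 := Complex.norm_iteratedDeriv_le_of_forall_mem_sphere_norm_le j
      (show 0 < ρ z / 4 by positivity) hdc (C := A * (2 * S.ds z) ^ N) (by
        intro w hw
        have hw' := sphere_subset_closedBall hw
        refine (hgA w (hcl hw')).trans ?_
        have h2 := hds2 w hw'
        have h3 := S.ds_nonneg w
        gcongr)
    refine h1.trans (le_of_eq ?_)
    have h2 : S.ds z ^ N = S.ds z ^ (N - M * j) * (S.ds z ^ M) ^ j := by
      rw [← pow_mul, ← pow_add]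
      congr 1
      omega
    have h3 : (ρ z / 4) ^ j = (c₁ / 4) ^ j * (S.ds z ^ M) ^ j := by
      rw [← mul_pow]; congr 1
      simp only [hρdef]; ring
    rw [h3, mul_pow, h2]
    have h4 : 0 < (S.ds z ^ M) ^ j := by positivity
    field_simp
  have hbound' : ∀ z ∈ closure S.G, ‖Dj Ω g j z‖ ≤
      (j.factorial * (A * 2 ^ N) / (c₁ / 4) ^ j) * S.ds z ^ (N - M * j) := by
    intro z hz
    by_cases hzΩ : z ∈ Ω
    · rw [Dj, if_pos hzΩ]; exact hbound z hz hzΩ
    · rw [Dj, if_neg hzΩ, norm_zero]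
      have := S.ds_nonneg z
      positivity
  intro z hz
  by_cases hzΩ : z ∈ Ω
  · have han : AnalyticOnNhd ℂ g Ω := hg.analyticOnNhd hΩo
    have h1 : ContinuousAt (iteratedDeriv j g) z := by
      rw [iteratedDeriv_eq_iterate]
      exact ((han.iterated_deriv j) z hzΩ).continuousAt
    refine (h1.congr ?_).continuousWithinAt
    filter_upwards [hΩo.mem_nhds hzΩ] with x hx
    rw [Dj, if_pos hx]
  · have hds : S.ds z = 0 := by
      by_contra hne
      exact hzΩ (S.mem_fat_of_closure hc₁ hz (lt_of_le_of_ne (S.ds_nonneg z) (Ne.symm hne)))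
    rw [ContinuousWithinAt, Dj, if_neg hzΩ]
    rw [tendsto_zero_iff_norm_tendsto_zero]
    have hlim : Tendsto (fun x => (j.factorial * (A * 2 ^ N) / (c₁ / 4) ^ j) *
        S.ds x ^ (N - M * j)) (𝓝[closure S.G] z) (𝓝 0) := by
      have hc : Continuous (fun x => (j.factorial * (A * 2 ^ N) / (c₁ / 4) ^ j) *
        S.ds x ^ (N - M * j)) := continuous_const.mul (S.ds_continuous.pow _)
      have h2 := (hc.tendsto z).mono_left (nhdsWithin_le_nhds (s := closure S.G))
      rw [hds, zero_pow (by omega), mul_zero] at h2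
      exact h2
    refine tendsto_of_tendsto_of_tendsto_of_le_of_le' tendsto_const_nhds hlim
      (Eventually.of_forall fun _ => norm_nonneg _) ?_
    filter_upwards [self_mem_nhdsWithin] with x hx using hbound' x hx

/-- the smooth function -/
theorem exists_smooth (γ : ℕ) : ∃ g : ℂ → ℂ, DifferentiableOn ℂ g S.G ∧
    UniformContinuousOn (iteratedDeriv γ g) S.G ∧ ContinuousOn g (closure S.G) ∧
    (∀ z ∈ S.E, g z = 0) ∧ ∀ z ∈ closure S.G, S.F z ≠ 0 → g z ≠ 0 := by
  classical
  obtain ⟨M, c₁, hM, hc₁, hρ, hmain⟩ := S.exists_main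
  set ρ : ℂ → ℝ := fun z => c₁ * S.ds z ^ M with hρdef
  set Ω := fat S.G ρ with hΩ
  have hΩo : IsOpen Ω := isOpen_fat hρ
  have hGΩ : S.G ⊆ Ω := G_subset_fat hρ
  obtain ⟨g, A, c, hA, hc, hgd, hgA, hgc, hg0⟩ := hmain (M * γ + 2) (by omega)
  set N := M * γ + 2 with hN
  have h0 := S.Dj_continuousOn (N := N) (j := 0) hM hc₁ hρ hA hgd hgA (by omega)
  have h1 := S.Dj_continuousOn (N := N) (j := γ) hM hc₁ hρ hA hgd hgA (by omega)
  have heq : ∀ z ∈ Ω, Dj Ω g 0 z = g z := by
    intro z hz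
    rw [Dj, if_pos hz, iteratedDeriv_zero]
  have hloc : ∀ z ∈ Ω, Dj Ω g 0 =ᶠ[𝓝 z] g := by
    intro z hz
    filter_upwards [hΩo.mem_nhds hz] with x hx using heq x hx
  refine ⟨Dj Ω g 0, ?_, ?_, h0, ?_, ?_⟩
  · exact (hgd.mono hGΩ).congr fun z hz => heq z (hGΩ hz)
  · have huc : UniformContinuousOn (Dj Ω g γ) S.G :=
      (S.hG.bdd.isCompact_closure.uniformContinuousOn_of_continuous h1).mono subset_closure
    refine huc.congr fun z hz => ?_
    rw [Dj, if_pos (hGΩ hz)]
    exact ((hloc z (hGΩ hz)).iteratedDeriv_eq γ).symm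
  · intro z hz
    by_cases hzΩ : z ∈ Ω
    · rw [heq z hzΩ]
      by_cases hzG : z ∈ S.G
      · exact hg0 z hz hzG
      · exfalso
        have hzf : z ∈ frontier S.G := by
          rw [S.hG.isOpen.frontier_eq]; exact ⟨S.hEG hz, hzG⟩
        have h2 : z ∈ S.Es := mem_Est_of_frontier S.hG.isOpen hzf hz
        have h3 : S.ds z = 0 := infDist_zero_of_mem h2
        have h4 := mem_fat.1 hzΩ
        simp only [hρdef, h3, zero_pow hM.ne', mul_zero] at h4
        exact absurd h4 (not_lt.2 infDist_nonneg)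
    · rw [Dj, if_neg hzΩ]
  · intro z hz hFz
    have hds : 0 < S.ds z := by
      rcases (S.ds_nonneg z).eq_or_lt with h | h
      · exfalso
        apply hFz
        have h2 := S.F_le hz
        rw [← h, mul_zero] at h2
        exact norm_le_zero_iff.1 h2
      · exact h
    have hzΩ : z ∈ Ω := S.mem_fat_of_closure hc₁ hz hds
    -- lower bound on the closure
    have hlow : c * ‖S.F z‖ ^ N ≤ ‖Dj Ω g 0 z‖ := by
      have hf1 : ContinuousWithinAt (fun z => c * ‖S.F z‖ ^ N) S.G z :=
        (continuousWithinAt_const.mul (((S.hFc z hz).norm).pow N)).mono subset_closure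
      have hf2 : ContinuousWithinAt (fun z => ‖Dj Ω g 0 z‖) S.G z :=
        ((h0 z hz).norm).mono subset_closure
      exact ContinuousWithinAt.closure_le hz hf1 hf2 (fun x hx => by
        rw [heq x (hGΩ hx)]; exact hgc x hx)
    intro hcon
    rw [hcon, norm_zero] at hlow
    have h5 : 0 < ‖S.F z‖ := norm_pos_iff.2 hFz
    have h6 : 0 < c * ‖S.F z‖ ^ N := by positivity
    linarith

end Setup

end Pool.Agent.Helper93.LZ
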